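import Pool.Agent.Lib.MP_51b9c2_an.Basic

/-!
# A uniform bound near a polynomial with nonnegative coefficients
-/

namespace Pool.Agent.MP51b9c2

open Filter Metric Topology
open scoped ENNReal NNReal Real

/-- The power series with real coefficients `a`. -/
noncomputable def phi (a : ℕ → ℝ) : ℂ → ℂ := fun z => ∑' n, (a n : ℂ) * z ^ n

theorem phi_summable {a : ℕ → ℝ} (ha : Summable fun n => |a n|) {z : ℂ} (hz : ‖z‖ ≤ 1) :
    Summable fun n => (a n : ℂ) * z ^ n := by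
  refine Summable.of_norm_bounded ha fun n => ?_
  rw [norm_mul, norm_pow, Complex.norm_real, Real.norm_eq_abs]
  exact mul_le_of_le_one_right (abs_nonneg _) (pow_le_one₀ (norm_nonneg _) hz)

theorem phi_hasCoeffs {a : ℕ → ℝ} (ha : Summable fun n => |a n|) :
    HasCoeffs (phi a) (fun n => (a n : ℂ)) := by
  intro z hz
  exact (phi_summable ha (mem_ball_zero_iff.1 hz).le).hasSum

theorem norm_phi_le {a : ℕ → ℝ} (ha0 : ∀ n, 0 ≤ a n) (h0 : a 0 = 0) (h1 : HasSum a 1) {z : ℂ}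
    (hz : ‖z‖ ≤ 1) : ‖phi a z‖ ≤ ‖z‖ := by
  have h2 : HasSum (fun n => a n * ‖z‖) ‖z‖ := by simpa using h1.mul_right ‖z‖
  refine tsum_of_norm_bounded h2 fun n => ?_
  rw [norm_mul, norm_pow, Complex.norm_real, Real.norm_eq_abs, abs_of_nonneg (ha0 n)]
  rcases Nat.eq_zero_or_pos n with rfl | hn
  · simp [h0]
  · exact mul_le_mul_of_nonneg_left (pow_le_of_le_one (norm_nonneg _) hz hn.ne') (ha0 n)

theorem phi_mapsTo {a : ℕ → ℝ} (ha0 : ∀ n, 0 ≤ a n) (h0 : a 0 = 0) (h1 : HasSum a 1) :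
    Set.MapsTo (phi a) (ball 0 1) (ball 0 1) := by
  intro z hz
  rw [mem_ball_zero_iff] at hz ⊢
  exact (norm_phi_le ha0 h0 h1 hz.le).trans_lt hz

theorem isSymbol_phi {a : ℕ → ℝ} (ha0 : ∀ n, 0 ≤ a n) (h0 : a 0 = 0) (h1 : HasSum a 1) :
    IsSymbol (phi a) := by
  have hs : Summable fun n => |a n| := by
    simpa only [abs_of_nonneg (ha0 _)] using h1.summable
  refine ⟨(phi_hasCoeffs hs).differentiableOn, phi_mapsTo ha0 h0 h1, ?_⟩
  by_contra hcon
  push Not at hcon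
  have h2 : HasCoeffs (phi a) (fun _ => 0) := by
    intro z hz
    rw [hcon z hz 0 (mem_ball_self one_pos)]
    have : phi a 0 = 0 := by
      have := norm_phi_le ha0 h0 h1 (z := 0) (by simp)
      simpa using this
    rw [this]
    simp
  have h3 : (fun n => (a n : ℂ)) = fun _ => 0 := by
    rw [← (phi_hasCoeffs hs).coeff_eq, h2.coeff_eq]
  have h4 : a = fun _ => 0 := by
    funext n
    exact_mod_cast congrFun h3 n
  rw [h4] at h1
  exact one_ne_zero (h1.unique hasSum_zero)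

theorem memH2_phi {a : ℕ → ℝ} {β : ℕ → ℝ} (ha : Summable fun n => |a n|)
    (h : Summable fun n => a n ^ 2 * β n) : MemH2 β (phi a) := by
  refine ⟨(phi_hasCoeffs ha).differentiableOn, ?_⟩
  rw [(phi_hasCoeffs ha).coeff_eq]
  refine h.congr fun n => ?_
  rw [Complex.norm_real, Real.norm_eq_abs, sq_abs]

/-- pairs (sequence in `ℓ¹`, weighted sequence in `ℓ²`) -/
abbrev EE : Type := lp (fun _ : ℕ => ℝ) 1 × lp (fun _ : ℕ => ℝ) 2

/-- Nonnegative sequences with sum one, vanishing at `0`, and of finite `H²(β)` norm. -/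
def YY (β : ℕ → ℝ) : Set EE :=
  {p | ‖p.1‖ = 1 ∧ (p.1 : ℕ → ℝ) 0 = 0 ∧ (∀ n, 0 ≤ (p.1 : ℕ → ℝ) n) ∧
    ∀ n, (p.2 : ℕ → ℝ) n = √(β n) * (p.1 : ℕ → ℝ) n}

theorem isClosed_YY (β : ℕ → ℝ) : IsClosed (YY β) := by
  have h1 : ∀ n, Continuous fun p : EE => (p.1 : ℕ → ℝ) n := by
    intro n
    exact (lp.evalCLM ℝ (fun _ : ℕ => ℝ) 1 n).continuous.comp continuous_fst
  have h2 : ∀ n, Continuous fun p : EE => (p.2 : ℕ → ℝ) n := by
    intro n
    exact (lp.evalCLM ℝ (fun _ : ℕ => ℝ) 2 n).continuous.comp continuous_snd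
  have e : YY β = {p : EE | ‖p.1‖ = 1} ∩ {p : EE | (p.1 : ℕ → ℝ) 0 = 0} ∩
      (⋂ n, {p : EE | 0 ≤ (p.1 : ℕ → ℝ) n}) ∩
      (⋂ n, {p : EE | (p.2 : ℕ → ℝ) n = √(β n) * (p.1 : ℕ → ℝ) n}) := by
    ext p
    simp only [YY, Set.mem_ofPred_eq, Set.mem_inter_iff, Set.mem_iInter]
    tauto
  rw [e]
  refine ((IsClosed.inter ?_ ?_).inter ?_).inter ?_
  · exact isClosed_eq (continuous_fst.norm) continuous_const
  · exact isClosed_eq (h1 0) continuous_const
  · exact isClosed_iInter fun n => isClosed_le continuous_const (h1 n)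
  · exact isClosed_iInter fun n => isClosed_eq (h2 n) (continuous_const.mul (h1 n))

theorem lp_one_hasSum (u : lp (fun _ : ℕ => ℝ) 1) : HasSum (fun n => |(u : ℕ → ℝ) n|) ‖u‖ := by
  have := lp.hasSum_norm (p := 1) (by norm_num) u
  simpa using this

theorem lp_two_hasSum (u : lp (fun _ : ℕ => ℝ) 2) :
    HasSum (fun n => (u : ℕ → ℝ) n ^ 2) (‖u‖ ^ 2) := by
  have := lp.hasSum_norm (p := 2) (by norm_num) u
  simpa using this

theorem exists_mem_YY {β : ℕ → ℝ} (hβ : ∀ n, 0 < β n) {b : ℕ → ℝ} (hb0 : ∀ n, 0 ≤ b n)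
    (h0 : b 0 = 0) (h1 : HasSum b 1) (h2 : Summable fun n => b n ^ 2 * β n) :
    ∃ p ∈ YY β, (p.1 : ℕ → ℝ) = b := by
  have hs : Summable fun n => |b n| := by
    simpa only [abs_of_nonneg (hb0 _)] using h1.summable
  have m1 : Memℓp (E := fun _ : ℕ => ℝ) b 1 := by
    apply memℓp_gen
    simpa using hs
  have m2 : Memℓp (E := fun _ : ℕ => ℝ) (fun n => √(β n) * b n) 2 := by
    apply memℓp_gen
    refine h2.congr fun n => ?_
    have : (2 : ℝ≥0∞).toReal = ((2:ℕ) : ℝ) := by norm_num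
    rw [this, Real.rpow_natCast, Real.norm_eq_abs, sq_abs, mul_pow, Real.sq_sqrt (hβ n).le]
    ring
  refine ⟨(⟨b, m1⟩, ⟨fun n => √(β n) * b n, m2⟩), ⟨?_, h0, hb0, fun n => rfl⟩, rfl⟩
  have h3 := lp_one_hasSum (⟨b, m1⟩ : lp (fun _ : ℕ => ℝ) 1)
  have h4 : HasSum (fun n => |b n|) 1 := by simpa only [abs_of_nonneg (hb0 _)] using h1
  exact h3.unique h4

theorem YY_fst_hasSum {β : ℕ → ℝ} {p : EE} (hp : p ∈ YY β) : HasSum (p.1 : ℕ → ℝ) 1 := by
  have h3 := lp_one_hasSum p.1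
  rw [hp.1] at h3
  have e : (fun n => |(p.1 : ℕ → ℝ) n|) = (p.1 : ℕ → ℝ) :=
    funext fun n => abs_of_nonneg (hp.2.2.1 n)
  rwa [e] at h3

theorem YY_sq_hasSum {β : ℕ → ℝ} (hβ : ∀ n, 0 < β n) {p : EE} (hp : p ∈ YY β) :
    HasSum (fun n => (p.1 : ℕ → ℝ) n ^ 2 * β n) (‖p.2‖ ^ 2) := by
  have h3 := lp_two_hasSum p.2
  have e : (fun n => (p.2 : ℕ → ℝ) n ^ 2) = fun n => (p.1 : ℕ → ℝ) n ^ 2 * β n := by
    funext n
    rw [hp.2.2.2 n, mul_pow, Real.sq_sqrt (hβ n).le]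
    ring
  rwa [e] at h3

theorem YY_norm_sub_fst {p q : EE} :
    ‖p.1 - q.1‖ = ∑' n, |(p.1 : ℕ → ℝ) n - (q.1 : ℕ → ℝ) n| := by
  have h3 := lp_one_hasSum (p.1 - q.1)
  rw [← h3.tsum_eq]
  rfl

theorem YY_norm_sub_snd {β : ℕ → ℝ} (hβ : ∀ n, 0 < β n) {p q : EE} (hp : p ∈ YY β)
    (hq : q ∈ YY β) :
    ‖p.2 - q.2‖ ^ 2 = ∑' n, ((p.1 : ℕ → ℝ) n - (q.1 : ℕ → ℝ) n) ^ 2 * β n := by
  have h3 := lp_two_hasSum (p.2 - q.2)
  rw [← h3.tsum_eq]
  congr 1
  funext n
  change ((p.2 : ℕ → ℝ) n - (q.2 : ℕ → ℝ) n) ^ 2 = _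
  rw [hp.2.2.2 n, hq.2.2.2 n, ← mul_sub, mul_pow, Real.sq_sqrt (hβ n).le]
  ring

theorem hasSum_tail {u : ℕ → ℝ} {S : ℝ} (h : HasSum u S) (N : ℕ) :
    HasSum (fun n => if N < n then u n else 0) (S - ∑ n ∈ Finset.range (N + 1), u n) := by
  have h1 : HasSum (fun n => if n < N + 1 then u n else 0)
      (∑ n ∈ Finset.range (N + 1), u n) := by
    have e : ∑ n ∈ Finset.range (N + 1), u n =
        ∑ n ∈ Finset.range (N + 1), if n < N + 1 then u n else 0 := by
      apply Finset.sum_congr rfl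
      intro n hn
      rw [if_pos (Finset.mem_range.1 hn)]
    rw [e]
    apply hasSum_sum_of_ne_finset_zero
    intro b hb
    rw [if_neg (by simpa using hb)]
  have h2 := h.sub h1
  have e : (fun n => if N < n then u n else 0) =
      fun n => u n - if n < N + 1 then u n else 0 := by
    funext n
    by_cases hn : N < n
    · rw [if_pos hn, if_neg (by omega)]
      ring
    · rw [if_neg hn, if_pos (by omega)]
      ring
  rwa [e]

theorem tendsto_tail {u : ℕ → ℝ} {S : ℝ} (h : HasSum u S) :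
    Tendsto (fun N => S - ∑ n ∈ Finset.range (N + 1), u n) atTop (𝓝 0) := by
  have h1 := (tendsto_add_atTop_iff_nat 1).2 h.tendsto_sum_nat
  have h2 := tendsto_const_nhds.sub h1 (a := S)
  simpa using h2

/-- Finitely supported members of `YY` are dense. -/
theorem exists_near {β : ℕ → ℝ} (hβ : ∀ n, 0 < β n) {u : ℕ → ℝ} (hu0 : ∀ n, 0 ≤ u n)
    (h0 : u 0 = 0) (h1 : HasSum u 1) (h2 : Summable fun n => u n ^ 2 * β n) {ε : ℝ}
    (hε : 0 < ε) :
    ∃ (a : ℕ → ℝ) (D : ℕ), (∀ n, 0 ≤ a n) ∧ a 0 = 0 ∧ HasSum a 1 ∧ (∀ n, D < n → a n = 0) ∧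
      ∑' n, |a n - u n| < ε ∧ ∑' n, (a n - u n) ^ 2 * β n < ε := by
  obtain ⟨S, hS⟩ := h2
  have t1 := tendsto_tail h1
  have t2 := tendsto_tail hS
  have t3 : Tendsto (fun N => 2 * (1 - ∑ n ∈ Finset.range (N + 1), u n)) atTop (𝓝 0) := by
    simpa using t1.const_mul 2
  have t4 : Tendsto (fun N => 2 * (1 - ∑ n ∈ Finset.range (N + 1), u n) ^ 2 * β 1 +
      2 * (S - ∑ n ∈ Finset.range (N + 1), u n ^ 2 * β n)) atTop (𝓝 0) := by
    have := (((t1.pow 2).const_mul 2).mul_const (β 1)).add (t2.const_mul 2)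
    simpa using this
  obtain ⟨N, hN1, hN3, hN4⟩ : ∃ N, 1 ≤ N ∧ 2 * (1 - ∑ n ∈ Finset.range (N + 1), u n) < ε ∧
      2 * (1 - ∑ n ∈ Finset.range (N + 1), u n) ^ 2 * β 1 +
      2 * (S - ∑ n ∈ Finset.range (N + 1), u n ^ 2 * β n) < ε := by
    have := ((eventually_ge_atTop 1).and
      ((t3.eventually_lt_const hε).and (t4.eventually_lt_const hε))).exists
    exact this
  set t := 1 - ∑ n ∈ Finset.range (N + 1), u n with ht
  have htail := hasSum_tail h1 N
  have ht0 : 0 ≤ t := htail.nonneg fun n => by split_ifs; exacts [hu0 n, le_rfl]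
  have hone : HasSum (fun n => if n = 1 then t else 0) t := hasSum_ite_eq 1 t
  refine ⟨fun n => u n - (if N < n then u n else 0) + (if n = 1 then t else 0), N + 1, ?_, ?_, ?_,
    ?_, ?_, ?_⟩
  · intro n
    have := hu0 n
    dsimp only
    split_ifs <;> linarith
  · simp [h0]
  · have := (h1.sub htail).add hone
    have e : 1 - (1 - ∑ n ∈ Finset.range (N + 1), u n) + t = 1 := by
      rw [ht]
      ring
    rwa [e] at this
  · intro n hn
    dsimp only
    rw [if_pos (by omega), if_neg (by omega)]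
    ring
  · refine lt_of_le_of_lt ?_ hN3
    have hb := htail.add hone
    have : HasSum (fun n => (if N < n then u n else 0) + if n = 1 then t else 0) (2 * t) := by
      convert hb using 1
      ring
    rw [← this.tsum_eq]
    apply Summable.tsum_le_tsum
    · intro n
      have hn := hu0 n
      rw [abs_le]
      constructor <;> (dsimp only; split_ifs <;> linarith)
    · refine Summable.of_nonneg_of_le (fun n => abs_nonneg _) (fun n => ?_) this.summable
      have hn := hu0 n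
      rw [abs_le]
      constructor <;> (dsimp only; split_ifs <;> linarith)
    · exact this.summable
  · refine lt_of_le_of_lt ?_ hN4
    have hb1 := (hasSum_tail hS N).mul_left 2
    have hb2 : HasSum (fun n => if n = 1 then 2 * t ^ 2 * β 1 else 0) (2 * t ^ 2 * β 1) :=
      hasSum_ite_eq 1 _
    have hb := hb2.add hb1
    rw [← hb.tsum_eq]
    have hle : ∀ n, (u n - (if N < n then u n else 0) + (if n = 1 then t else 0) - u n) ^ 2 * β n ≤
        (if n = 1 then 2 * t ^ 2 * β 1 else 0) + 2 * (if N < n then u n ^ 2 * β n else 0) := by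
      intro n
      have hn := hu0 n
      have hbn := (hβ n).le
      have hbn2 := mul_nonneg (sq_nonneg (u n)) hbn
      by_cases h1n : n = 1
      · subst h1n
        rw [if_neg (by omega), if_pos rfl, if_pos rfl, if_neg (by omega)]
        have := mul_nonneg (sq_nonneg t) hbn
        nlinarith
      · rw [if_neg h1n, if_neg h1n]
        split_ifs
        · have : (u n - u n + 0 - u n) ^ 2 * β n = u n ^ 2 * β n := by ring
          rw [this]
          linarith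
        · simp
    apply Summable.tsum_le_tsum hle
    · exact Summable.of_nonneg_of_le (fun n => mul_nonneg (sq_nonneg _) (hβ n).le) hle hb.summable
    · exact hb.summable


/-- The uniform bound furnished by Baire's theorem. -/
theorem baire_step {β : ℕ → ℝ} (hβ : ∀ n, 0 < β n) (hZ : PropertyZ β) :
    ∃ (a : ℕ → ℝ) (D : ℕ) (ε : ℝ) (K : ℝ≥0), (∀ n, 0 ≤ a n) ∧ a 0 = 0 ∧ HasSum a 1 ∧
      (∀ n, D < n → a n = 0) ∧ 0 < ε ∧
      ∀ b : ℕ → ℝ, (∀ n, 0 ≤ b n) → b 0 = 0 → HasSum b 1 →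
        Summable (fun n => b n ^ 2 * β n) →
        ∑' n, |b n - a n| < ε → ∑' n, (b n - a n) ^ 2 * β n < ε → Bdd β (phi b) K := by
  have : CompleteSpace (YY β) := (isClosed_YY β).completeSpace_coe
  have hs : ∀ x : YY β, Summable fun n => |(x.1.1 : ℕ → ℝ) n| := fun x =>
    (lp_one_hasSum x.1.1).summable
  obtain ⟨p0, hp0, -⟩ := exists_mem_YY hβ (b := fun n => if n = 1 then 1 else 0)
    (fun n => by split_ifs <;> norm_num) (by simp) (hasSum_ite_eq 1 1) (by
      apply summable_of_hasFiniteSupport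
      refine (Set.finite_singleton 1).subset fun n hn => ?_
      by_contra h
      apply hn
      have : n ≠ 1 := h
      simp [this])
  have : Nonempty (YY β) := ⟨⟨p0, hp0⟩⟩
  have hclosed : ∀ K : ℕ, IsClosed {x : YY β | Bdd β (phi (x.1.1 : ℕ → ℝ)) ((K : ℝ≥0) : ℝ≥0∞)} := by
    intro K
    apply isClosed_setOf_bdd (Φ := fun x : YY β => phi (x.1.1 : ℕ → ℝ))
    · intro x
      exact (phi_hasCoeffs (hs x)).differentiableOn
    · intro x
      exact phi_mapsTo x.2.2.2.1 x.2.2.1 (YY_fst_hasSum x.2)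
    · intro z hz
      have hz1 : ‖z‖ ≤ 1 := (mem_ball_zero_iff.1 hz).le
      have hL : LipschitzWith 1 fun x : YY β => phi (x.1.1 : ℕ → ℝ) z := by
        apply LipschitzWith.of_dist_le_mul
        intro x y
        rw [NNReal.coe_one, one_mul, dist_eq_norm]
        have h1 : phi (x.1.1 : ℕ → ℝ) z - phi (y.1.1 : ℕ → ℝ) z =
            ∑' n, ((((x.1.1 : ℕ → ℝ) n : ℝ) : ℂ) * z ^ n -
              (((y.1.1 : ℕ → ℝ) n : ℝ) : ℂ) * z ^ n) := by
          rw [phi, phi, ← (phi_summable (hs x) hz1).tsum_sub (phi_summable (hs y) hz1)]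
        have h2 : ‖phi (x.1.1 : ℕ → ℝ) z - phi (y.1.1 : ℕ → ℝ) z‖ ≤ ‖x.1.1 - y.1.1‖ := by
          rw [h1]
          refine tsum_of_norm_bounded (lp_one_hasSum (x.1.1 - y.1.1)) fun n => ?_
          rw [← sub_mul, norm_mul, norm_pow, ← Complex.ofReal_sub, Complex.norm_real,
            Real.norm_eq_abs]
          exact mul_le_of_le_one_right (abs_nonneg _) (pow_le_one₀ (norm_nonneg _) hz1)
        refine h2.trans ?_
        rw [← dist_eq_norm, Subtype.dist_eq, Prod.dist_eq]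
        exact le_max_left _ _
      exact hL.continuous
  have hcover : ⋃ K : ℕ, {x : YY β | Bdd β (phi (x.1.1 : ℕ → ℝ)) ((K : ℝ≥0) : ℝ≥0∞)} =
      Set.univ := by
    rw [Set.eq_univ_iff_forall]
    intro x
    have hsym := isSymbol_phi x.2.2.2.1 x.2.2.1 (YY_fst_hasSum x.2)
    have hmem : MemH2 β (phi (x.1.1 : ℕ → ℝ)) := memH2_phi (hs x) (YY_sq_hasSum hβ x.2).summable
    obtain ⟨K, hK⟩ := (boundedComp_iff hβ hsym.1 hsym.2.1).1 (hZ _ hsym hmem)
    rw [Set.mem_iUnion]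
    refine ⟨⌈K⌉₊, fun f hf => (hK f hf).trans ?_⟩
    gcongr
    exact_mod_cast Nat.le_ceil K
  obtain ⟨K, hint⟩ := nonempty_interior_of_iUnion_of_closed hclosed hcover
  obtain ⟨x, hx⟩ := hint
  rw [mem_interior_iff_mem_nhds, Metric.mem_nhds_iff] at hx
  obtain ⟨δ, hδ, hball⟩ := hx
  have hδ2 : 0 < min (δ / 2) ((δ / 2) ^ 2) := by positivity
  obtain ⟨a, D, ha0, h0, h1, hD, hn1, hn2⟩ := exists_near hβ x.2.2.2.1 x.2.2.1
    (YY_fst_hasSum x.2) (YY_sq_hasSum hβ x.2).summable hδ2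
  refine ⟨a, D, min (δ / 2) ((δ / 2) ^ 2), K, ha0, h0, h1, hD, hδ2, ?_⟩
  intro b hb0 hbz hb1 hb2 hd1 hd2
  have ha2 : Summable fun n => a n ^ 2 * β n := by
    apply summable_of_hasFiniteSupport
    refine (Set.finite_Iic D).subset fun n hn => ?_
    by_contra h
    apply hn
    dsimp only
    rw [hD n (by simpa using h)]
    simp
  obtain ⟨pa, hpa, hpaa⟩ := exists_mem_YY hβ ha0 h0 h1 ha2
  obtain ⟨pb, hpb, hpbb⟩ := exists_mem_YY hβ hb0 hbz hb1 hb2
  have key : ∀ {p q : EE}, p ∈ YY β → q ∈ YY β →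
      ∑' n, |(p.1 : ℕ → ℝ) n - (q.1 : ℕ → ℝ) n| < min (δ / 2) ((δ / 2) ^ 2) →
      ∑' n, ((p.1 : ℕ → ℝ) n - (q.1 : ℕ → ℝ) n) ^ 2 * β n < min (δ / 2) ((δ / 2) ^ 2) →
      dist p q < δ / 2 := by
    intro p q hp hq e1 e2
    rw [Prod.dist_eq, max_lt_iff, dist_eq_norm, dist_eq_norm]
    constructor
    · rw [YY_norm_sub_fst]
      exact e1.trans_le (min_le_left _ _)
    · rw [← YY_norm_sub_snd hβ hp hq] at e2
      have := e2.trans_le (min_le_right _ _)
      exact lt_of_pow_lt_pow_left₀ 2 (by positivity) this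
  have d1 : dist pa x.1 < δ / 2 := by
    apply key hpa x.2
    · rw [hpaa]; exact hn1
    · rw [hpaa]; exact hn2
  have d2 : dist pb pa < δ / 2 := by
    apply key hpb hpa
    · rw [hpaa, hpbb]; exact hd1
    · rw [hpaa, hpbb]; exact hd2
  have d3 : dist (⟨pb, hpb⟩ : YY β) x < δ := by
    rw [Subtype.dist_eq]
    linarith [dist_triangle pb pa x.1]
  have := hball d3
  rw [Set.mem_ofPred_eq] at this
  rwa [hpbb] at this

end Pool.Agent.MP51b9c2
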