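import Pool.Agent.Lib.MP_51b9c2_an.Defs

/-!
# Power series on the unit disc: basic facts
-/

namespace Pool.Agent.MP51b9c2

open Filter Metric Topology MeasureTheory
open scoped ENNReal NNReal Real ComplexConjugate

/-- `f` is given on the open unit disc by the power series with coefficients `a`. -/
def HasCoeffs (f : ℂ → ℂ) (a : ℕ → ℂ) : Prop :=
  ∀ z ∈ ball (0 : ℂ) 1, HasSum (fun n => a n * z ^ n) (f z)

theorem hasCoeffs_coeff {f : ℂ → ℂ} (hf : DifferentiableOn ℂ f (ball 0 1)) :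
    HasCoeffs f (coeff f) := by
  intro z hz
  have h := Complex.hasSum_taylorSeries_on_ball hf hz
  have e : (fun n => coeff f n * z ^ n) =
      fun n : ℕ => (n.factorial : ℂ)⁻¹ • (z - 0) ^ n • iteratedDeriv n f 0 := by
    funext n
    rw [coeff, sub_zero, smul_eq_mul, smul_eq_mul, div_eq_mul_inv]
    ring
  rw [e]
  exact h

theorem hasSum_coeff {f : ℂ → ℂ} (hf : DifferentiableOn ℂ f (ball 0 1)) {z : ℂ}
    (hz : z ∈ ball (0 : ℂ) 1) : HasSum (fun n => coeff f n * z ^ n) (f z) :=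
  hasCoeffs_coeff hf z hz

theorem HasCoeffs.bound {f : ℂ → ℂ} {a : ℕ → ℂ} (h : HasCoeffs f a) {r : ℝ}
    (hr0 : 0 ≤ r) (hr1 : r < 1) : ∃ C, ∀ n, ‖a n‖ * r ^ n ≤ C := by
  have hz : (r : ℂ) ∈ ball (0 : ℂ) 1 := by
    simp [abs_of_nonneg hr0, hr1]
  have h1 := (h _ hz).summable.tendsto_atTop_zero
  have h2 := h1.norm
  obtain ⟨C, hC⟩ := h2.bddAbove_range
  refine ⟨C, fun n => ?_⟩
  have := hC ⟨n, rfl⟩
  simpa [abs_of_nonneg hr0] using this

theorem HasCoeffs.summable_norm {f : ℂ → ℂ} {a : ℕ → ℂ} (h : HasCoeffs f a) {r : ℝ}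
    (hr0 : 0 ≤ r) (hr1 : r < 1) : Summable fun n => ‖a n‖ * r ^ n := by
  obtain ⟨C, hC⟩ := h.bound (r := (1 + r) / 2) (by linarith) (by linarith)
  have hs : Summable fun n : ℕ => C * (r / ((1 + r) / 2)) ^ n := by
    apply Summable.mul_left
    apply summable_geometric_of_lt_one (by positivity)
    rw [div_lt_one (by linarith)]; linarith
  refine Summable.of_nonneg_of_le (fun n => by positivity) (fun n => ?_) hs
  have hp : 0 < ((1 + r) / 2) ^ n := by positivity
  calc ‖a n‖ * r ^ n = (‖a n‖ * ((1 + r) / 2) ^ n) * (r / ((1 + r) / 2)) ^ n := by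
        rw [div_pow r, mul_assoc, mul_div_cancel₀ _ hp.ne']
    _ ≤ C * (r / ((1 + r) / 2)) ^ n := by
        apply mul_le_mul_of_nonneg_right (hC n) (by positivity)

theorem HasCoeffs.hasFPowerSeriesOnBall {f : ℂ → ℂ} {a : ℕ → ℂ} (h : HasCoeffs f a) :
    HasFPowerSeriesOnBall f (FormalMultilinearSeries.ofScalars ℂ a) 0 1 := by
  constructor
  · apply le_of_forall_lt_imp_le_of_dense
    intro r hr
    lift r to ℝ≥0 using hr.ne_top
    have hr1 : (r : ℝ) < 1 := by exact_mod_cast hr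
    obtain ⟨C, hC⟩ := h.bound (r := r) r.coe_nonneg hr1
    apply FormalMultilinearSeries.le_radius_of_bound _ C
    intro n
    have : ‖FormalMultilinearSeries.ofScalars ℂ a n‖ = ‖a n‖ := by
      simp [FormalMultilinearSeries.ofScalars, norm_smul]
    rw [this]
    exact hC n
  · exact one_pos
  · intro y hy
    have hy' : y ∈ ball (0 : ℂ) 1 := by
      rwa [show (1 : ℝ≥0∞) = ENNReal.ofReal 1 by simp, Metric.eball_ofReal] at hy
    have := h y hy'
    rw [zero_add]
    have e : (fun n => (FormalMultilinearSeries.ofScalars ℂ a n) fun _ => y) =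
        fun n => a n * y ^ n := by
      funext n
      simp [FormalMultilinearSeries.ofScalars]
    rw [e]
    exact this

theorem HasCoeffs.differentiableOn {f : ℂ → ℂ} {a : ℕ → ℂ} (h : HasCoeffs f a) :
    DifferentiableOn ℂ f (ball 0 1) := by
  have := h.hasFPowerSeriesOnBall.differentiableOn
  rwa [show (1 : ℝ≥0∞) = ENNReal.ofReal 1 by simp, Metric.eball_ofReal] at this

theorem HasCoeffs.coeff_eq {f : ℂ → ℂ} {a : ℕ → ℂ} (h : HasCoeffs f a) : coeff f = a := by
  funext n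
  have h1 := h.hasFPowerSeriesOnBall.factorial_smul 1 n
  rw [coeff, iteratedDeriv_eq_iteratedFDeriv]
  rw [← h1]
  have : (n.factorial : ℂ) ≠ 0 := by exact_mod_cast n.factorial_ne_zero
  simp [FormalMultilinearSeries.ofScalars, this]

theorem circleAverage_hasSum {f : ℂ → ℂ} {a : ℕ → ℂ} (h : HasCoeffs f a) {r : ℝ}
    (hr0 : 0 ≤ r) (hr1 : r < 1) {g : ℂ → ℂ} (hg : Continuous fun θ : ℝ => g (circleMap 0 r θ)) :
    HasSum (fun n => a n * Real.circleAverage (fun z => z ^ n * g z) 0 r)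
      (Real.circleAverage (fun z => f z * g z) 0 r) := by
  have hmem : ∀ θ : ℝ, circleMap 0 r θ ∈ ball (0 : ℂ) 1 := by
    intro θ
    simp [circleMap, abs_of_nonneg hr0, hr1]
  obtain ⟨M, hM⟩ : ∃ M, ∀ θ ∈ Set.Icc (0:ℝ) (2 * π), ‖g (circleMap 0 r θ)‖ ≤ M :=
    isCompact_Icc.exists_bound_of_continuousOn hg.continuousOn
  have key : HasSum (fun n => ∫ θ in (0:ℝ)..(2 * π), a n * ((circleMap 0 r θ) ^ n *
      g (circleMap 0 r θ))) (∫ θ in (0:ℝ)..(2 * π), f (circleMap 0 r θ) * g (circleMap 0 r θ)) := by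
    apply intervalIntegral.hasSum_integral_of_dominated_convergence
      (fun n (_ : ℝ) => ‖a n‖ * r ^ n * M)
    · intro n
      apply Continuous.aestronglyMeasurable
      exact continuous_const.mul (((continuous_circleMap 0 r).pow n).mul hg)
    · intro n
      refine ae_of_all _ fun θ hθ => ?_
      rw [Set.uIoc_of_le (by positivity)] at hθ
      have h1 : ‖circleMap 0 r θ‖ = r := by simp [circleMap, abs_of_nonneg hr0]
      rw [norm_mul, norm_mul, norm_pow, h1, ← mul_assoc]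
      exact mul_le_mul_of_nonneg_left (hM θ ⟨hθ.1.le, hθ.2⟩) (by positivity)
    · refine ae_of_all _ fun θ _ => ?_
      exact (h.summable_norm hr0 hr1).mul_right M
    · exact intervalIntegrable_const
    · refine ae_of_all _ fun θ _ => ?_
      have := (h _ (hmem θ)).mul_right (g (circleMap 0 r θ))
      simpa [mul_assoc] using this
  have e1 : ∀ n, a n * Real.circleAverage (fun z => z ^ n * g z) 0 r =
      (2 * π)⁻¹ • ∫ θ in (0:ℝ)..(2 * π), a n * ((circleMap 0 r θ) ^ n * g (circleMap 0 r θ)) := by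
    intro n
    rw [Real.circleAverage, intervalIntegral.integral_const_mul, mul_smul_comm]
  simp_rw [e1]
  exact key.const_smul _

theorem circleAverage_pow_mul_conj_pow (r : ℝ) (n m : ℕ) :
    Real.circleAverage (fun z => z ^ n * (conj z) ^ m) 0 r = if n = m then ((r:ℂ) ^ (2 * n)) else 0 := by
  have e : ∀ θ : ℝ, (circleMap 0 r θ) ^ n * (conj (circleMap 0 r θ)) ^ m =
      (r:ℂ) ^ (n + m) * Complex.exp ((((n:ℤ) - (m:ℤ) : ℤ) : ℂ) * Complex.I * θ) := by
    intro θ
    simp only [circleMap, zero_add, map_mul, Complex.conj_ofReal, ← Complex.exp_conj, mul_pow,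
      ← Complex.exp_nat_mul, Complex.conj_I]
    rw [show (r:ℂ) ^ n * Complex.exp (↑n * (↑θ * Complex.I)) *
      ((r:ℂ) ^ m * Complex.exp (↑m * (↑θ * -Complex.I))) = (r:ℂ) ^ (n + m) *
      (Complex.exp (↑n * (↑θ * Complex.I)) * Complex.exp (↑m * (↑θ * -Complex.I))) by ring,
      ← Complex.exp_add]
    congr 2
    push_cast
    ring
  rw [Real.circleAverage]
  simp_rw [e]
  rw [intervalIntegral.integral_const_mul]
  by_cases hnm : n = m
  · subst hnm
    simp only [sub_self, Int.cast_zero, zero_mul, Complex.exp_zero, intervalIntegral.integral_const,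
      sub_zero, if_true]
    rw [two_mul n]
    rw [Complex.real_smul, Complex.real_smul]
    push_cast
    have : (π : ℂ) ≠ 0 := by exact_mod_cast Real.pi_ne_zero
    field_simp
  · have hk : ((((n:ℤ) - (m:ℤ) : ℤ) : ℂ) * Complex.I) ≠ 0 := by
      apply mul_ne_zero _ Complex.I_ne_zero
      have : (n:ℤ) - (m:ℤ) ≠ 0 := by omega
      exact_mod_cast this
    rw [integral_exp_mul_complex hk]
    have h2 : Complex.exp ((((n:ℤ) - (m:ℤ) : ℤ) : ℂ) * Complex.I * ((2 * π : ℝ) : ℂ)) = 1 := by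
      rw [Complex.exp_eq_one_iff]
      refine ⟨(n:ℤ) - (m:ℤ), ?_⟩
      push_cast
      ring
    rw [h2, if_neg hnm]
    simp

theorem circleAverage_mul_conj_pow {f : ℂ → ℂ} {a : ℕ → ℂ} (h : HasCoeffs f a) {r : ℝ}
    (hr0 : 0 ≤ r) (hr1 : r < 1) (m : ℕ) :
    Real.circleAverage (fun z => f z * (conj z) ^ m) 0 r = a m * (r:ℂ) ^ (2 * m) := by
  have h1 := circleAverage_hasSum h hr0 hr1 (g := fun z => (conj z) ^ m)
    (((Complex.continuous_conj.comp (continuous_circleMap 0 r))).pow m)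
  simp_rw [circleAverage_pow_mul_conj_pow] at h1
  have h2 : HasSum (fun n => a n * (if n = m then (r:ℂ) ^ (2 * n) else 0))
      (a m * (r:ℂ) ^ (2 * m)) := by
    have := hasSum_ite_eq m (a m * (r:ℂ) ^ (2 * m))
    convert this using 2 with n
    split_ifs with hn
    · rw [hn]
    · simp
  exact h1.unique h2

theorem hasSum_parseval_complex {f : ℂ → ℂ} {a : ℕ → ℂ} (h : HasCoeffs f a) {r : ℝ}
    (hr0 : 0 ≤ r) (hr1 : r < 1) :
    HasSum (fun n => ((‖a n‖ ^ 2 * r ^ (2 * n) : ℝ) : ℂ))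
      (Real.circleAverage (fun z => f z * conj (f z)) 0 r) := by
  have hmem : ∀ θ : ℝ, circleMap 0 r θ ∈ ball (0 : ℂ) 1 := by
    intro θ
    simp [circleMap, abs_of_nonneg hr0, hr1]
  have hfc : Continuous fun θ : ℝ => f (circleMap 0 r θ) :=
    h.differentiableOn.continuousOn.comp_continuous (continuous_circleMap 0 r) hmem
  have h1 := circleAverage_hasSum h hr0 hr1 (g := fun z => conj (f z))
    (Complex.continuous_conj.comp hfc)
  convert h1 using 2 with n
  have h2 := circleAverage_mul_conj_pow h hr0 hr1 n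
  have h3 : Real.circleAverage (fun z => z ^ n * conj (f z)) 0 r =
      conj (Real.circleAverage (fun z => f z * (conj z) ^ n) 0 r) := by
    rw [Real.circleAverage, Real.circleAverage, Complex.real_smul, Complex.real_smul, map_mul,
      Complex.conj_ofReal]
    congr 1
    rw [intervalIntegral.integral_of_le (by positivity),
      intervalIntegral.integral_of_le (by positivity), ← integral_conj]
    congr 1
    funext θ
    simp [mul_comm]
  rw [h3, h2, map_mul, map_pow, Complex.conj_ofReal]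
  have h4 : a n * conj (a n) = ((‖a n‖ ^ 2 : ℝ) : ℂ) := by
    rw [Complex.mul_conj, Complex.normSq_eq_norm_sq]
  rw [← mul_assoc, h4]
  push_cast
  ring

/-- Parseval's identity on the circle of radius `r < 1`. -/
theorem hasSum_parseval {f : ℂ → ℂ} {a : ℕ → ℂ} (h : HasCoeffs f a) {r : ℝ}
    (hr0 : 0 ≤ r) (hr1 : r < 1) :
    HasSum (fun n => ‖a n‖ ^ 2 * r ^ (2 * n))
      (Real.circleAverage (fun z => ‖f z‖ ^ 2) 0 r) := by
  have h1 := hasSum_parseval_complex h hr0 hr1
  have h2 : Real.circleAverage (fun z => f z * conj (f z)) 0 r =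
      ((Real.circleAverage (fun z => ‖f z‖ ^ 2) 0 r : ℝ) : ℂ) := by
    rw [Real.circleAverage, Real.circleAverage]
    simp_rw [Complex.mul_conj, Complex.normSq_eq_norm_sq]
    rw [intervalIntegral.integral_ofReal]
    simp
  rw [h2] at h1
  exact_mod_cast h1

/-! ### The `ENNReal`-valued square of the norm -/

/-- The square of the `H²(β)` norm with values in `[0, ∞]`. -/
noncomputable def enormSq (β : ℕ → ℝ) (f : ℂ → ℂ) : ℝ≥0∞ :=
  ∑' n, ENNReal.ofReal (‖coeff f n‖ ^ 2 * β n)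

theorem memH2_iff {β : ℕ → ℝ} (hβ : ∀ n, 0 < β n) {f : ℂ → ℂ} :
    MemH2 β f ↔ DifferentiableOn ℂ f (ball 0 1) ∧ enormSq β f ≠ ∞ := by
  unfold MemH2 enormSq
  refine and_congr_right fun _ => ⟨fun h => h.tsum_ofReal_ne_top, fun h => ?_⟩
  have h1 := ENNReal.summable_toReal h
  refine h1.congr fun n => ?_
  rw [ENNReal.toReal_ofReal]
  have := (hβ n).le
  positivity

theorem ofReal_normSq {β : ℕ → ℝ} (hβ : ∀ n, 0 < β n) {f : ℂ → ℂ} (hf : MemH2 β f) :
    ENNReal.ofReal (normSq β f) = enormSq β f := by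
  unfold normSq enormSq
  apply ENNReal.ofReal_tsum_of_nonneg
  · intro n
    have := (hβ n).le
    positivity
  · exact hf.2

theorem normSq_nonneg {β : ℕ → ℝ} (hβ : ∀ n, 0 < β n) (f : ℂ → ℂ) : 0 ≤ normSq β f := by
  unfold normSq
  apply tsum_nonneg
  intro n
  have := (hβ n).le
  positivity

/-- `C_φ` is bounded on `H²(β)` with constant `K` (for the squares of the norms). -/
def Bdd (β : ℕ → ℝ) (φ : ℂ → ℂ) (K : ℝ≥0∞) : Prop :=
  ∀ f : ℂ → ℂ, DifferentiableOn ℂ f (ball 0 1) → enormSq β (f ∘ φ) ≤ K * enormSq β f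

theorem boundedComp_iff {β : ℕ → ℝ} (hβ : ∀ n, 0 < β n) {φ : ℂ → ℂ}
    (hφ : DifferentiableOn ℂ φ (ball 0 1)) (hm : Set.MapsTo φ (ball 0 1) (ball 0 1)) :
    BoundedComp β φ ↔ ∃ K : ℝ≥0, Bdd β φ K := by
  constructor
  · rintro ⟨C, hC⟩
    refine ⟨Real.toNNReal (max C 1), fun f hf => ?_⟩
    by_cases hfin : enormSq β f = ∞
    · rw [hfin, ENNReal.mul_top]
      · exact le_top
      · simp
    · have hmem : MemH2 β f := (memH2_iff hβ).2 ⟨hf, hfin⟩
      obtain ⟨h1, h2⟩ := hC f hmem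
      rw [← ofReal_normSq hβ hmem, ← ofReal_normSq hβ h1]
      change _ ≤ ENNReal.ofReal (max C 1) * _
      rw [← ENNReal.ofReal_mul (by positivity)]
      apply ENNReal.ofReal_le_ofReal
      refine h2.trans (mul_le_mul_of_nonneg_right (le_max_left _ _) (normSq_nonneg hβ f))
  · rintro ⟨K, hK⟩
    refine ⟨K, fun f hf => ?_⟩
    have hd := hf.1.comp hφ hm
    have h1 := hK f hf.1
    have h2 := ((memH2_iff hβ).1 hf).2
    have h3 : enormSq β (f ∘ φ) ≠ ∞ := (h1.trans_lt (ENNReal.mul_lt_top (by simp) h2.lt_top)).ne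
    have hmem : MemH2 β (f ∘ φ) := (memH2_iff hβ).2 ⟨hd, h3⟩
    refine ⟨hmem, ?_⟩
    rw [← ofReal_normSq hβ hmem, ← ofReal_normSq hβ hf, ← ENNReal.ofReal_coe_nnreal,
      ← ENNReal.ofReal_mul K.coe_nonneg] at h1
    rwa [ENNReal.ofReal_le_ofReal_iff (mul_nonneg K.coe_nonneg (normSq_nonneg hβ f))] at h1

theorem tendsto_coeff {ι : Type*} {l : Filter ι} [l.IsCountablyGenerated] {F : ι → ℂ → ℂ}
    {G : ℂ → ℂ} (hF : ∀ᶠ i in l, DifferentiableOn ℂ (F i) (ball 0 1))
    (hG : DifferentiableOn ℂ G (ball 0 1)) {r : ℝ} (hr0 : 0 < r) (hr1 : r < 1) {M : ℝ}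
    (hb : ∀ᶠ i in l, ∀ z : ℂ, ‖z‖ = r → ‖F i z‖ ≤ M)
    (hlim : ∀ z : ℂ, ‖z‖ = r → Tendsto (fun i => F i z) l (𝓝 (G z))) (n : ℕ) :
    Tendsto (fun i => coeff (F i) n) l (𝓝 (coeff G n)) := by
  have hr : (r : ℂ) ^ (2 * n) ≠ 0 := by
    apply pow_ne_zero
    exact_mod_cast hr0.ne'
  have hnorm : ∀ θ : ℝ, ‖circleMap 0 r θ‖ = r := by
    intro θ
    simp [circleMap, abs_of_nonneg hr0.le]
  have hmem : ∀ θ : ℝ, circleMap 0 r θ ∈ ball (0 : ℂ) 1 := by
    intro θ
    rw [mem_ball_zero_iff, hnorm]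
    exact hr1
  have key : Tendsto (fun i => Real.circleAverage (fun z => F i z * (conj z) ^ n) 0 r) l
      (𝓝 (Real.circleAverage (fun z => G z * (conj z) ^ n) 0 r)) := by
    unfold Real.circleAverage
    apply Tendsto.const_smul
    apply intervalIntegral.tendsto_integral_filter_of_dominated_convergence (fun _ => M * r ^ n)
    · filter_upwards [hF] with i hi
      apply Continuous.aestronglyMeasurable
      exact (hi.continuousOn.comp_continuous (continuous_circleMap 0 r) hmem).mul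
        (((Complex.continuous_conj.comp (continuous_circleMap 0 r))).pow n)
    · filter_upwards [hb] with i hi
      refine ae_of_all _ fun θ _ => ?_
      rw [norm_mul, norm_pow, RCLike.norm_conj, hnorm]
      exact mul_le_mul_of_nonneg_right (hi _ (hnorm θ)) (by positivity)
    · exact intervalIntegrable_const
    · refine ae_of_all _ fun θ _ => ?_
      exact (hlim _ (hnorm θ)).mul_const _
  rw [circleAverage_mul_conj_pow (hasCoeffs_coeff hG) hr0.le hr1 n] at key
  have key2 : Tendsto (fun i => coeff (F i) n * (r : ℂ) ^ (2 * n)) l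
      (𝓝 (coeff G n * (r : ℂ) ^ (2 * n))) := by
    refine key.congr' ?_
    filter_upwards [hF] with i hi
    rw [circleAverage_mul_conj_pow (hasCoeffs_coeff hi) hr0.le hr1 n]
  have key3 := key2.mul_const ((r : ℂ) ^ (2 * n))⁻¹
  simpa [mul_assoc, hr] using key3

theorem enormSq_le_of_tendsto {ι : Type*} {l : Filter ι} [l.NeBot] {F : ι → ℂ → ℂ}
    {G : ℂ → ℂ} {β : ℕ → ℝ} {K : ℝ≥0∞}
    (h : ∀ n, Tendsto (fun i => coeff (F i) n) l (𝓝 (coeff G n)))
    (hK : ∀ᶠ i in l, enormSq β (F i) ≤ K) : enormSq β G ≤ K := by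
  unfold enormSq
  rw [ENNReal.tsum_eq_iSup_sum]
  apply iSup_le
  intro s
  have h1 : Tendsto (fun i => ∑ n ∈ s, ENNReal.ofReal (‖coeff (F i) n‖ ^ 2 * β n)) l
      (𝓝 (∑ n ∈ s, ENNReal.ofReal (‖coeff G n‖ ^ 2 * β n))) := by
    apply tendsto_finsetSum
    intro n _
    apply ENNReal.tendsto_ofReal
    exact ((h n).norm.pow 2).mul_const _
  refine le_of_tendsto h1 ?_
  filter_upwards [hK] with i hi
  exact (ENNReal.sum_le_tsum s).trans hi

theorem hasCoeffs_polynomial (p : Polynomial ℂ) : HasCoeffs (fun z => p.eval z) p.coeff := by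
  intro z _
  change HasSum _ (Polynomial.eval z p)
  rw [Polynomial.eval_eq_sum_range]
  apply hasSum_sum_of_ne_finset_zero
  intro n hn
  rw [Finset.mem_range, not_lt] at hn
  rw [Polynomial.coeff_eq_zero_of_natDegree_lt (by omega)]
  simp

theorem coeff_polynomial (p : Polynomial ℂ) : coeff (fun z => p.eval z) = p.coeff :=
  (hasCoeffs_polynomial p).coeff_eq

theorem exists_norm_le_of_self_map {φ : ℂ → ℂ} (hφ : DifferentiableOn ℂ φ (ball 0 1))
    (hm : Set.MapsTo φ (ball 0 1) (ball 0 1)) {r : ℝ} (hr0 : 0 < r) (hr1 : r < 1) :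
    ∃ ρ : ℝ, 0 ≤ ρ ∧ ρ < 1 ∧ ∀ z : ℂ, ‖z‖ = r → ‖φ z‖ ≤ ρ := by
  have hcomp : IsCompact (sphere (0 : ℂ) r) := isCompact_sphere _ _
  have hne : (sphere (0 : ℂ) r).Nonempty := NormedSpace.sphere_nonempty.2 hr0.le
  have hsub : sphere (0 : ℂ) r ⊆ ball 0 1 := fun z hz => by
    rw [mem_sphere_zero_iff_norm] at hz
    rw [mem_ball_zero_iff, hz]
    exact hr1
  obtain ⟨w, hw, hmax⟩ := hcomp.exists_isMaxOn hne (hφ.continuousOn.mono hsub).norm
  refine ⟨‖φ w‖, norm_nonneg _, ?_, fun z hz => ?_⟩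
  · simpa using hm (hsub hw)
  · exact hmax (by simpa using hz)

/-- It is enough to bound a composition operator on polynomials. -/
theorem bdd_of_polynomial {β : ℕ → ℝ} {φ : ℂ → ℂ} (hφ : DifferentiableOn ℂ φ (ball 0 1))
    (hm : Set.MapsTo φ (ball 0 1) (ball 0 1)) {K : ℝ≥0∞}
    (h : ∀ p : Polynomial ℂ, enormSq β (fun z => p.eval (φ z)) ≤
      K * enormSq β (fun z => p.eval z)) : Bdd β φ K := by
  intro f hf
  set a := coeff f with ha
  set P : ℕ → Polynomial ℂ := fun N => ∑ n ∈ Finset.range N, Polynomial.C (a n) * Polynomial.X ^ n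
    with hP
  have hPc : ∀ N n, (P N).coeff n = if n < N then a n else 0 := by
    intro N n
    simp only [hP, Polynomial.finsetSum_coeff, Polynomial.coeff_C_mul_X_pow]
    rw [Finset.sum_ite_eq]
    simp
  obtain ⟨ρ, hρ0, hρ1, hρ⟩ := exists_norm_le_of_self_map hφ hm (r := 1 / 2) (by norm_num)
    (by norm_num)
  have hsum := (hasCoeffs_coeff hf).summable_norm hρ0 hρ1
  have hev : ∀ N z, (P N).eval z = ∑ n ∈ Finset.range N, a n * z ^ n := by
    intro N z
    simp [hP, Polynomial.eval_finsetSum]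
  apply enormSq_le_of_tendsto (l := atTop) (F := fun N z => (P N).eval (φ z))
  · apply tendsto_coeff (r := 1 / 2) (M := ∑' n, ‖a n‖ * ρ ^ n)
    · exact Eventually.of_forall fun N => (P N).differentiable.comp_differentiableOn hφ
    · exact hf.comp hφ hm
    · norm_num
    · norm_num
    · refine Eventually.of_forall fun N z hz => ?_
      rw [hev]
      refine (norm_sum_le _ _).trans ?_
      refine (Finset.sum_le_sum fun n _ => ?_).trans
        (hsum.sum_le_tsum (Finset.range N) (fun n _ => by positivity))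
      rw [norm_mul, norm_pow]
      exact mul_le_mul_of_nonneg_left (pow_le_pow_left₀ (norm_nonneg _) (hρ z hz) n)
        (norm_nonneg _)
    · intro z hz
      have hz' : φ z ∈ ball (0 : ℂ) 1 := by
        rw [mem_ball_zero_iff]
        exact (hρ z hz).trans_lt hρ1
      have := (hasSum_coeff hf hz').tendsto_sum_nat
      simp_rw [hev]
      exact this
  · refine Eventually.of_forall fun N => (h (P N)).trans ?_
    gcongr
    unfold enormSq
    apply ENNReal.tsum_le_tsum
    intro n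
    rw [coeff_polynomial, hPc]
    split_ifs with hn
    · exact le_rfl
    · simp

theorem bdd_of_tendsto {ι : Type*} {l : Filter ι} [l.NeBot] [l.IsCountablyGenerated]
    {Φ : ι → ℂ → ℂ} {φ : ℂ → ℂ} {β : ℕ → ℝ} {K : ℝ≥0∞}
    (hΦ : ∀ᶠ i in l, DifferentiableOn ℂ (Φ i) (ball 0 1))
    (hΦm : ∀ᶠ i in l, Set.MapsTo (Φ i) (ball 0 1) (ball 0 1))
    (hφ : DifferentiableOn ℂ φ (ball 0 1)) (hm : Set.MapsTo φ (ball 0 1) (ball 0 1))
    (hlim : ∀ z ∈ ball (0 : ℂ) 1, Tendsto (fun i => Φ i z) l (𝓝 (φ z)))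
    (hK : ∀ᶠ i in l, Bdd β (Φ i) K) : Bdd β φ K := by
  apply bdd_of_polynomial hφ hm
  intro p
  apply enormSq_le_of_tendsto (l := l) (F := fun i z => p.eval (Φ i z))
  · obtain ⟨M, hM⟩ : ∃ M, ∀ w ∈ closedBall (0:ℂ) 1, ‖p.eval w‖ ≤ M :=
      (isCompact_closedBall _ _).exists_bound_of_continuousOn p.continuous.continuousOn
    apply tendsto_coeff (r := 1 / 2) (M := M)
    · filter_upwards [hΦ] with i hi
      exact p.differentiable.comp_differentiableOn hi
    · exact p.differentiable.comp_differentiableOn hφ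
    · norm_num
    · norm_num
    · filter_upwards [hΦm] with i hi z hz
      apply hM
      apply ball_subset_closedBall
      apply hi
      rw [mem_ball_zero_iff, hz]
      norm_num
    · intro z hz
      apply (p.continuous.tendsto _).comp
      apply hlim
      rw [mem_ball_zero_iff, hz]
      norm_num
  · filter_upwards [hK] with i hi
    exact hi (fun z => p.eval z) p.differentiable.differentiableOn

theorem isClosed_setOf_bdd {X : Type*} [TopologicalSpace X] [FirstCountableTopology X]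
    {Φ : X → ℂ → ℂ} {β : ℕ → ℝ} {K : ℝ≥0∞}
    (hΦ : ∀ x, DifferentiableOn ℂ (Φ x) (ball 0 1))
    (hΦm : ∀ x, Set.MapsTo (Φ x) (ball 0 1) (ball 0 1))
    (hc : ∀ z ∈ ball (0 : ℂ) 1, Continuous fun x => Φ x z) :
    IsClosed {x | Bdd β (Φ x) K} := by
  rw [← closure_subset_iff_isClosed]
  intro x hx
  rw [mem_closure_iff_nhdsWithin_neBot] at hx
  refine bdd_of_tendsto (l := 𝓝[{x | Bdd β (Φ x) K}] x) (Φ := Φ) (Eventually.of_forall hΦ)
    (Eventually.of_forall hΦm) (hΦ x) (hΦm x) (fun z hz => ?_) ?_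
  · exact ((hc z hz).tendsto x).mono_left nhdsWithin_le_nhds
  · exact self_mem_nhdsWithin

theorem HasCoeffs.add {f g : ℂ → ℂ} {a b : ℕ → ℂ} (hf : HasCoeffs f a) (hg : HasCoeffs g b) :
    HasCoeffs (fun z => f z + g z) (fun n => a n + b n) := by
  intro z hz
  simpa [add_mul] using (hf z hz).add (hg z hz)

theorem HasCoeffs.sub {f g : ℂ → ℂ} {a b : ℕ → ℂ} (hf : HasCoeffs f a) (hg : HasCoeffs g b) :
    HasCoeffs (fun z => f z - g z) (fun n => a n - b n) := by
  intro z hz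
  simpa [sub_mul] using (hf z hz).sub (hg z hz)

theorem HasCoeffs.const_mul {f : ℂ → ℂ} {a : ℕ → ℂ} (hf : HasCoeffs f a) (c : ℂ) :
    HasCoeffs (fun z => c * f z) (fun n => c * a n) := by
  intro z hz
  simpa [mul_assoc] using (hf z hz).mul_left c

theorem HasCoeffs.mul {f g : ℂ → ℂ} {a b : ℕ → ℂ} (hf : HasCoeffs f a) (hg : HasCoeffs g b) :
    HasCoeffs (fun z => f z * g z) (fun n => ∑ p ∈ Finset.HasAntidiagonal.antidiagonal n, a p.1 * b p.2) := by
  intro z hz
  have hz1 : ‖z‖ < 1 := by simpa using hz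
  have h1 : Summable fun n => ‖a n * z ^ n‖ := by
    simpa [norm_mul, norm_pow] using hf.summable_norm (norm_nonneg z) hz1
  have h2 : Summable fun n => ‖b n * z ^ n‖ := by
    simpa [norm_mul, norm_pow] using hg.summable_norm (norm_nonneg z) hz1
  have h3 := tsum_mul_tsum_eq_tsum_sum_antidiagonal_of_summable_norm h1 h2
  have h4 := (summable_norm_sum_mul_antidiagonal_of_summable_norm h1 h2).of_norm
  rw [(hf z hz).tsum_eq, (hg z hz).tsum_eq] at h3
  have h5 : (fun n => (∑ p ∈ Finset.HasAntidiagonal.antidiagonal n, a p.1 * b p.2) * z ^ n) =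
      fun n => ∑ p ∈ Finset.HasAntidiagonal.antidiagonal n, a p.1 * z ^ p.1 * (b p.2 * z ^ p.2) := by
    funext n
    rw [Finset.sum_mul]
    apply Finset.sum_congr rfl
    intro p hp
    rw [Finset.HasAntidiagonal.mem_antidiagonal] at hp
    rw [← hp, pow_add]
    ring
  rw [h5]
  change HasSum _ (f z * g z)
  rw [h3]
  exact h4.hasSum

theorem coeff_congr {f g : ℂ → ℂ} (h : Set.EqOn f g (ball 0 1)) : coeff f = coeff g := by
  funext n
  have h1 : f =ᶠ[𝓝 0] g := by
    filter_upwards [isOpen_ball.mem_nhds (mem_ball_self (x := (0:ℂ)) one_pos)] with z hz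
    exact h hz
  rw [coeff, coeff, h1.iteratedDeriv_eq]

theorem coeff_mul {f g : ℂ → ℂ} (hf : DifferentiableOn ℂ f (ball 0 1))
    (hg : DifferentiableOn ℂ g (ball 0 1)) (n : ℕ) :
    coeff (fun z => f z * g z) n = ∑ p ∈ Finset.HasAntidiagonal.antidiagonal n, coeff f p.1 * coeff g p.2 := by
  rw [((hasCoeffs_coeff hf).mul (hasCoeffs_coeff hg)).coeff_eq]

theorem coeff_add {f g : ℂ → ℂ} (hf : DifferentiableOn ℂ f (ball 0 1))
    (hg : DifferentiableOn ℂ g (ball 0 1)) (n : ℕ) :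
    coeff (fun z => f z + g z) n = coeff f n + coeff g n := by
  rw [((hasCoeffs_coeff hf).add (hasCoeffs_coeff hg)).coeff_eq]

theorem coeff_const_mul {f : ℂ → ℂ} (hf : DifferentiableOn ℂ f (ball 0 1)) (c : ℂ) (n : ℕ) :
    coeff (fun z => c * f z) n = c * coeff f n := by
  rw [((hasCoeffs_coeff hf).const_mul c).coeff_eq]

theorem coeff_deriv (f : ℂ → ℂ) (n : ℕ) : coeff (deriv f) n = (n + 1) * coeff f (n + 1) := by
  rw [coeff, coeff, iteratedDeriv_succ', Nat.factorial_succ]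
  have h1 : (n.factorial : ℂ) ≠ 0 := by exact_mod_cast n.factorial_ne_zero
  have h2 : (n + 1 : ℂ) ≠ 0 := by exact_mod_cast n.succ_ne_zero
  push_cast
  field_simp

theorem coeff_zero (f : ℂ → ℂ) : coeff f 0 = f 0 := by
  simp [coeff]

theorem coeff_pow_id (m n : ℕ) : coeff (fun z => z ^ m) n = if n = m then 1 else 0 := by
  have := coeff_polynomial (Polynomial.X ^ m)
  simp only [Polynomial.eval_pow, Polynomial.eval_X] at this
  rw [this, Polynomial.coeff_X_pow]

theorem enormSq_pow_id (β : ℕ → ℝ) (m : ℕ) :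
    enormSq β (fun z => z ^ m) = ENNReal.ofReal (β m) := by
  unfold enormSq
  rw [tsum_eq_single m]
  · simp [coeff_pow_id]
  · intro n hn
    simp [coeff_pow_id, hn]

/-- A single coefficient is controlled by the norm. -/
theorem coeff_le_enormSq (β : ℕ → ℝ) (f : ℂ → ℂ) (n : ℕ) :
    ENNReal.ofReal (‖coeff f n‖ ^ 2 * β n) ≤ enormSq β f :=
  ENNReal.le_tsum n

/-- The `H²` norm of a bounded function. -/
theorem tsum_coeff_sq_le {f : ℂ → ℂ} (hf : DifferentiableOn ℂ f (ball 0 1)) {M : ℝ}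
    (hM : ∀ z ∈ ball (0 : ℂ) 1, ‖f z‖ ≤ M) :
    Summable (fun n => ‖coeff f n‖ ^ 2) ∧ ∑' n, ‖coeff f n‖ ^ 2 ≤ M ^ 2 := by
  have hM0 : 0 ≤ M := (norm_nonneg _).trans (hM 0 (mem_ball_self one_pos))
  have key : ∀ s : Finset ℕ, ∑ n ∈ s, ‖coeff f n‖ ^ 2 ≤ M ^ 2 := by
    intro s
    have h1 : ∀ r ∈ Set.Ico (0:ℝ) 1, ∑ n ∈ s, ‖coeff f n‖ ^ 2 * r ^ (2 * n) ≤ M ^ 2 := by
      intro r hr
      have hp := hasSum_parseval (hasCoeffs_coeff hf) hr.1 hr.2
      have hle : Real.circleAverage (fun z => ‖f z‖ ^ 2) 0 r ≤ M ^ 2 := by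
        have hmem : ∀ z ∈ sphere (0:ℂ) |r|, z ∈ ball (0 : ℂ) 1 := by
          intro z hz
          rw [mem_sphere_zero_iff_norm, abs_of_nonneg hr.1] at hz
          rw [mem_ball_zero_iff, hz]
          exact hr.2
        apply Real.circleAverage_mono_on_of_le_circle
        · apply ContinuousOn.circleIntegrable'
          exact (hf.continuousOn.mono hmem).norm.pow 2
        · intro z hz
          exact pow_le_pow_left₀ (norm_nonneg _) (hM z (hmem z hz)) 2
      refine le_trans ?_ hle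
      exact sum_le_hasSum s (fun n _ => by have := hr.1; positivity) hp
    have h2 : Tendsto (fun r : ℝ => ∑ n ∈ s, ‖coeff f n‖ ^ 2 * r ^ (2 * n)) (𝓝[<] 1)
        (𝓝 (∑ n ∈ s, ‖coeff f n‖ ^ 2)) := by
      have : Continuous fun r : ℝ => ∑ n ∈ s, ‖coeff f n‖ ^ 2 * r ^ (2 * n) := by fun_prop
      have := (this.tendsto 1).mono_left (nhdsWithin_le_nhds (s := Set.Iio 1))
      simpa using this
    refine le_of_tendsto h2 ?_
    have : Set.Ico (0:ℝ) 1 ∈ 𝓝[<] (1:ℝ) := Ico_mem_nhdsLT (by norm_num)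
    filter_upwards [this] with r hr using h1 r hr
  refine ⟨summable_of_sum_le (fun n => by positivity) key, ?_⟩
  exact Real.tsum_le_of_sum_le (fun n => by positivity) key

end Pool.Agent.MP51b9c2
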