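import Mathlib

/-!
# Weighted Hardy spaces, symbols and property (Z): definitions
-/

namespace Pool.Agent.MP51b9c2

open Filter Metric

/-- The `n`-th Taylor coefficient at the origin of a function `f`. -/
noncomputable def coeff (f : ℂ → ℂ) (n : ℕ) : ℂ :=
  iteratedDeriv n f 0 / (n.factorial : ℂ)

/-- `f` belongs to `H²(β)`: it is analytic on the open unit disc and its Taylor coefficients
`a_n` satisfy `∑ |a_n|² β_n < ∞`. -/
def MemH2 (β : ℕ → ℝ) (f : ℂ → ℂ) : Prop :=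
  DifferentiableOn ℂ f (ball 0 1) ∧ Summable fun n => ‖coeff f n‖ ^ 2 * β n

/-- The square of the norm of `f` in `H²(β)`, that is `∑ |a_n|² β_n`. -/
noncomputable def normSq (β : ℕ → ℝ) (f : ℂ → ℂ) : ℝ :=
  ∑' n, ‖coeff f n‖ ^ 2 * β n

/-- A symbol: a non-constant analytic map of the open unit disc into itself. -/
def IsSymbol (φ : ℂ → ℂ) : Prop :=
  DifferentiableOn ℂ φ (ball 0 1) ∧ Set.MapsTo φ (ball 0 1) (ball 0 1) ∧
    ∃ z ∈ ball (0 : ℂ) 1, ∃ w ∈ ball (0 : ℂ) 1, φ z ≠ φ w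

/-- The composition operator `f ↦ f ∘ φ` maps `H²(β)` into itself and is bounded there. -/
def BoundedComp (β : ℕ → ℝ) (φ : ℂ → ℂ) : Prop :=
  ∃ C : ℝ, ∀ f : ℂ → ℂ, MemH2 β f →
    MemH2 β (f ∘ φ) ∧ normSq β (f ∘ φ) ≤ C * normSq β f

/-- Property (Z): every symbol that lies in `H²(β)` induces a bounded composition operator
on `H²(β)`. -/
def PropertyZ (β : ℕ → ℝ) : Prop :=
  ∀ φ : ℂ → ℂ, IsSymbol φ → MemH2 β φ → BoundedComp β φ

/-- `β` is slowly oscillating: `c β_n ≤ β_m ≤ C β_n` whenever `n/2 ≤ m ≤ 2n`. -/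
def SlowlyOscillating (β : ℕ → ℝ) : Prop :=
  ∃ c C : ℝ, 0 < c ∧ c < 1 ∧ 1 < C ∧
    ∀ n m : ℕ, (n : ℝ) / 2 ≤ m → (m : ℝ) ≤ 2 * n → c * β n ≤ β m ∧ β m ≤ C * β n

/-- `β` is essentially decreasing: `β_m ≤ C β_n` for all `m ≥ n ≥ 0`. -/
def EssDecreasing (β : ℕ → ℝ) : Prop :=
  ∃ C : ℝ, 1 ≤ C ∧ ∀ n m : ℕ, n ≤ m → β m ≤ C * β n

end Pool.Agent.MP51b9c2
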