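import Pool.Agent.Lib.MP_51b9c2_an.PartI2

/-!
# Part I, step 3: the `ℓ²` norms of the coefficient sequences
-/

namespace Pool.Agent.MP51b9c2.PartI

open PowerSeries Filter Topology

theorem coeff_P_zero (b : ℝ) : PowerSeries.coeff 0 (P b) = b := by
  simp [P, G]

theorem coeff_P_succ (b : ℝ) (m : ℕ) :
    PowerSeries.coeff (m + 1) (P b) = -(1 - b ^ 2) * b ^ m := by
  rw [P, sub_mul, map_sub, PowerSeries.coeff_C_mul, PowerSeries.coeff_succ_X_mul]
  simp [G]
  ring

/-- Truncated form of the isometry property. -/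
theorem sum_sq_sub (b : ℝ) (v : PowerSeries ℝ) (M : ℕ) :
    ∑ m ∈ Finset.range (M + 1), (PowerSeries.coeff m ((C b - X) * v)) ^ 2 =
      ∑ m ∈ Finset.range (M + 1), (PowerSeries.coeff m ((1 - C b * X) * v)) ^ 2
        - (1 - b ^ 2) * (PowerSeries.coeff M v) ^ 2 := by
  induction M with
  | zero =>
    simp [sub_mul, mul_assoc]
    ring
  | succ M ih =>
    rw [Finset.sum_range_succ, ih, Finset.sum_range_succ _ (M + 1)]
    have h1 : PowerSeries.coeff (M + 1) ((C b - X) * v) =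
        b * PowerSeries.coeff (M + 1) v - PowerSeries.coeff M v := by
      rw [sub_mul, map_sub, PowerSeries.coeff_C_mul, PowerSeries.coeff_succ_X_mul]
    have h2 : PowerSeries.coeff (M + 1) ((1 - C b * X) * v) =
        PowerSeries.coeff (M + 1) v - b * PowerSeries.coeff M v := by
      rw [sub_mul, one_mul, mul_assoc, map_sub, PowerSeries.coeff_C_mul,
        PowerSeries.coeff_succ_X_mul]
    rw [h1, h2]
    ring

theorem sum_sq_P_mul (b : ℝ) (u : PowerSeries ℝ) (M : ℕ) :
    ∑ m ∈ Finset.range (M + 1), (PowerSeries.coeff m (P b * u)) ^ 2 =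
      ∑ m ∈ Finset.range (M + 1), (PowerSeries.coeff m u) ^ 2
        - (1 - b ^ 2) * (PowerSeries.coeff M (G b * u)) ^ 2 := by
  have h := sum_sq_sub b (G b * u) M
  rw [← mul_assoc, ← mul_assoc, one_sub_mul_G, one_mul] at h
  exact h

theorem sum_sq_P_pow_mul_le {b : ℝ} (hb : b ^ 2 ≤ 1) (n : ℕ) (u : PowerSeries ℝ) (M : ℕ) :
    ∑ m ∈ Finset.range (M + 1), (PowerSeries.coeff m (P b ^ n * u)) ^ 2 ≤
      ∑ m ∈ Finset.range (M + 1), (PowerSeries.coeff m u) ^ 2 := by
  induction n with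
  | zero => simp
  | succ n ih =>
    have : P b ^ (n + 1) * u = P b * (P b ^ n * u) := by ring
    rw [this, sum_sq_P_mul]
    have h2 : 0 ≤ (1 - b ^ 2) * (PowerSeries.coeff M (G b * (P b ^ n * u))) ^ 2 :=
      mul_nonneg (by linarith) (sq_nonneg _)
    linarith

theorem sum_sq_G_mul_le {b : ℝ} (hb : b ^ 2 ≤ 1 / 4) (u : PowerSeries ℝ) (M : ℕ) :
    ∑ m ∈ Finset.range (M + 1), (PowerSeries.coeff m (G b * u)) ^ 2 ≤
      4 * ∑ m ∈ Finset.range (M + 1), (PowerSeries.coeff m u) ^ 2 := by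
  -- stronger: the last term is counted one more time
  have key : ∀ M : ℕ, ∑ m ∈ Finset.range (M + 1), (PowerSeries.coeff m (G b * u)) ^ 2
      + (PowerSeries.coeff M (G b * u)) ^ 2 ≤
      4 * ∑ m ∈ Finset.range (M + 1), (PowerSeries.coeff m u) ^ 2 := by
    intro M
    have hrel : (1 - C b * X) * (G b * u) = u := by
      rw [← mul_assoc, one_sub_mul_G, one_mul]
    induction M with
    | zero =>
      have h0 := congrArg (PowerSeries.coeff 0) hrel
      simp [sub_mul, mul_assoc] at h0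
      simp [h0]
      nlinarith [sq_nonneg (PowerSeries.constantCoeff u)]
    | succ M ih =>
      rw [Finset.sum_range_succ, Finset.sum_range_succ _ (M + 1)]
      have h1 := congrArg (PowerSeries.coeff (M + 1)) hrel
      rw [sub_mul, one_mul, mul_assoc, map_sub, PowerSeries.coeff_C_mul,
        PowerSeries.coeff_succ_X_mul] at h1
      have h2 : PowerSeries.coeff (M + 1) (G b * u) =
          PowerSeries.coeff (M + 1) u + b * PowerSeries.coeff M (G b * u) := by linarith
      have h3 : (PowerSeries.coeff (M + 1) (G b * u)) ^ 2 ≤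
          2 * (PowerSeries.coeff (M + 1) u) ^ 2
            + (PowerSeries.coeff M (G b * u)) ^ 2 / 2 := by
        rw [h2]
        nlinarith [sq_nonneg (PowerSeries.coeff (M + 1) u - b * PowerSeries.coeff M (G b * u)),
          mul_le_mul_of_nonneg_right hb (sq_nonneg (PowerSeries.coeff M (G b * u)))]
      linarith
  have := key M
  linarith [sq_nonneg (PowerSeries.coeff M (G b * u))]

theorem sum_sq_one (M : ℕ) :
    ∑ m ∈ Finset.range (M + 1), (PowerSeries.coeff m (1 : PowerSeries ℝ)) ^ 2 = 1 := by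
  induction M with
  | zero => simp
  | succ M ih => rw [Finset.sum_range_succ, ih]; simp [PowerSeries.coeff_one]

theorem sum_sq_H_le {b : ℝ} (hb : b ^ 2 ≤ 1) (n M : ℕ) :
    ∑ m ∈ Finset.range (M + 1), (H b n m) ^ 2 ≤ 1 := by
  have := sum_sq_P_pow_mul_le hb n 1 M
  rw [mul_one, sum_sq_one] at this
  exact this

theorem tendsto_coeff_G_mul {b : ℝ} (hb : b ^ 2 ≤ 1 / 4) (n : ℕ) :
    Tendsto (fun M => (PowerSeries.coeff M (G b * P b ^ n)) ^ 2) atTop (𝓝 0) := by
  have hs : Summable fun M => (PowerSeries.coeff M (G b * P b ^ n)) ^ 2 := by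
    refine summable_of_sum_range_le (c := 4) (fun _ => sq_nonneg _) ?_
    intro M
    refine (Finset.sum_le_sum_of_subset_of_nonneg
      (Finset.range_mono (Nat.le_succ M)) (fun _ _ _ => sq_nonneg _)).trans ?_
    have h1 := sum_sq_G_mul_le hb (P b ^ n) M
    have h2 := sum_sq_H_le (b := b) (by linarith) n M
    simp only [H] at h2
    simp only [Nat.succ_eq_add_one]
    linarith
  exact hs.tendsto_atTop_zero

theorem tendsto_sum_sq_H {b : ℝ} (hb : b ^ 2 ≤ 1 / 4) (n : ℕ) :
    Tendsto (fun M => ∑ m ∈ Finset.range (M + 1), (H b n m) ^ 2) atTop (𝓝 1) := by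
  induction n with
  | zero =>
    simp only [H, pow_zero, sum_sq_one]
    exact tendsto_const_nhds
  | succ n ih =>
    have h : ∀ M, ∑ m ∈ Finset.range (M + 1), (H b (n + 1) m) ^ 2 =
        ∑ m ∈ Finset.range (M + 1), (H b n m) ^ 2
          - (1 - b ^ 2) * (PowerSeries.coeff M (G b * P b ^ n)) ^ 2 := by
      intro M
      have h1 : P b ^ (n + 1) = P b * P b ^ n := by ring
      simp only [H, h1]
      exact sum_sq_P_mul b (P b ^ n) M
    simp only [h]
    have := ih.sub ((tendsto_coeff_G_mul hb n).const_mul (1 - b ^ 2))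
    simpa using this

theorem sum_sq_mul_geom (x : ℝ) (hx : x ≠ 1) (M : ℕ) :
    ∑ k ∈ Finset.range M, (k : ℝ) ^ 2 * x ^ k =
      x * (1 + x) / (1 - x) ^ 3
        - x ^ M * ((M : ℝ) ^ 2 / (1 - x) + 2 * M * x / (1 - x) ^ 2
          + x * (1 + x) / (1 - x) ^ 3) := by
  have h1 : (1 - x) ≠ 0 := sub_ne_zero.2 (Ne.symm hx)
  induction M with
  | zero => simp
  | succ M ih =>
    rw [Finset.sum_range_succ, ih]
    push_cast
    field_simp
    ring

/-- The variance bound. -/
theorem sum_variance_le {b : ℝ} (hb : b ^ 2 < 1) (n M : ℕ) :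
    ∑ m ∈ Finset.range (M + 1), (((m : ℝ) - n) * H b n m) ^ 2 ≤
      2 * b ^ 2 / (1 - b ^ 2) * (n : ℝ) ^ 2 := by
  cases n with
  | zero =>
    have : ∀ m ∈ Finset.range (M + 1), (((m : ℝ) - (0 : ℕ)) * H b 0 m) ^ 2 = 0 := by
      intro m _
      simp only [H, pow_zero, PowerSeries.coeff_one]
      by_cases h : m = 0 <;> simp [h]
    rw [Finset.sum_eq_zero this]
    simp
  | succ n =>
    set u : PowerSeries ℝ := X * d⁄dX ℝ (P b) - P b with hu
    have hcoef : ∀ m : ℕ, ((m : ℝ) - (n + 1 : ℕ)) * H b (n + 1) m =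
        (n + 1 : ℕ) * PowerSeries.coeff m (P b ^ n * u) := by
      intro m
      have hN : X * d⁄dX ℝ (P b ^ (n + 1)) - C ((n + 1 : ℕ) : ℝ) * P b ^ (n + 1) =
          C ((n + 1 : ℕ) : ℝ) * (P b ^ n * u) := by
        rw [Derivation.leibniz_pow, hu]
        simp only [Nat.add_sub_cancel, nsmul_eq_mul, smul_eq_mul, map_natCast]
        ring
      have h := congrArg (PowerSeries.coeff m) hN
      rw [map_sub, PowerSeries.coeff_C_mul, PowerSeries.coeff_C_mul] at h
      rw [← h, H]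
      cases m with
      | zero => simp; ring
      | succ m =>
        rw [PowerSeries.coeff_succ_X_mul, PowerSeries.coeff_derivative]
        push_cast
        ring
    simp only [hcoef, mul_pow]
    rw [← Finset.mul_sum, mul_comm]
    refine mul_le_mul_of_nonneg_right ?_ (sq_nonneg _)
    refine (sum_sq_P_pow_mul_le hb.le n u M).trans ?_
    have hu0 : PowerSeries.coeff 0 u = - b := by
      rw [hu, map_sub, coeff_P_zero]; simp
    have hus : ∀ m, PowerSeries.coeff (m + 1) u = - (1 - b ^ 2) * (m * b ^ m) := by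
      intro m
      rw [hu, map_sub, PowerSeries.coeff_succ_X_mul, PowerSeries.coeff_derivative, coeff_P_succ]
      ring
    rw [Finset.sum_range_succ']
    simp only [hu0, hus]
    have hx : (b ^ 2) ≠ 1 := ne_of_lt hb
    have hgeo := sum_sq_mul_geom (b ^ 2) hx M
    have h1 : ∀ m : ℕ, (-(1 - b ^ 2) * ((m : ℝ) * b ^ m)) ^ 2 =
        (1 - b ^ 2) ^ 2 * ((m : ℝ) ^ 2 * (b ^ 2) ^ m) := by
      intro m; rw [← pow_mul, mul_comm 2 m, pow_mul]; ring
    simp only [h1]
    rw [← Finset.mul_sum, hgeo]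
    have h1b : 0 < 1 - b ^ 2 := by linarith
    have hpos : 0 ≤ (b ^ 2) ^ M * ((M : ℝ) ^ 2 / (1 - b ^ 2) + 2 * M * b ^ 2 / (1 - b ^ 2) ^ 2
          + b ^ 2 * (1 + b ^ 2) / (1 - b ^ 2) ^ 3) := by positivity
    have h2 : (1 - b ^ 2) ^ 2 * (b ^ 2 * (1 + b ^ 2) / (1 - b ^ 2) ^ 3) + (-b) ^ 2 =
        2 * b ^ 2 / (1 - b ^ 2) := by
      field_simp; ring
    nlinarith [mul_nonneg (sq_nonneg (1 - b ^ 2)) hpos]

end Pool.Agent.MP51b9c2.PartI
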