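import Pool.Agent.Lib.MP_51b9c2_an.PartI2

/-!
# Part I, step 4: the symmetry `m [z^m] P^n = n [z^n] P^m`
-/

namespace Pool.Agent.MP51b9c2.PartI

open PowerSeries

theorem coeff_G_pow (b : ℝ) (n j : ℕ) :
    PowerSeries.coeff j (G b ^ (n + 1)) = ((n + j).choose n : ℝ) * b ^ j := by
  have hG : G b = PowerSeries.rescale b (PowerSeries.mk 1 : PowerSeries ℝ) := by
    ext m
    simp [G, PowerSeries.coeff_rescale]
  rw [hG, ← map_pow, PowerSeries.mk_one_pow_eq_mk_choose_add, PowerSeries.coeff_rescale,
    PowerSeries.coeff_mk]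
  ring

theorem coeff_sub_pow (b : ℝ) (n i : ℕ) :
    PowerSeries.coeff i ((C b - X) ^ n) = (-1) ^ i * (n.choose i : ℝ) * b ^ (n - i) := by
  induction n generalizing i with
  | zero =>
    cases i with
    | zero => simp
    | succ i => simp [PowerSeries.coeff_one]
  | succ n ih =>
    rw [pow_succ' (C b - X), sub_mul, map_sub, PowerSeries.coeff_C_mul]
    cases i with
    | zero =>
      rw [ih]
      simp
      ring
    | succ i =>
      rw [PowerSeries.coeff_succ_X_mul, ih, ih, Nat.choose_succ_succ]
      rcases lt_or_ge i n with h | h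
      · have h1 : n - i = (n - (i + 1)) + 1 := by omega
        have h2 : n + 1 - (i + 1) = (n - (i + 1)) + 1 := by omega
        rw [h1, h2]
        push_cast
        ring
      · have h1 : n.choose (i + 1) = 0 := Nat.choose_eq_zero_of_lt (by omega)
        have h2 : n + 1 - (i + 1) = n - i := by omega
        rw [h1, h2]
        push_cast
        ring

/-- The common summand. -/
noncomputable def symTerm (b : ℝ) (m n i : ℕ) : ℝ :=
  (-1) ^ i * b ^ (n - i + (m - i)) * (m * n.choose i * (n + m - i - 1).choose (n - 1) : ℕ)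

theorem mul_H_eq (b : ℝ) (m n : ℕ) (hn : 1 ≤ n) :
    m * H b n m = ∑ i ∈ Finset.range (min m n + 1), symTerm b m n i := by
  have h1 : P b ^ n = (C b - X) ^ n * G b ^ n := by rw [P, mul_pow]
  rw [H, h1, PowerSeries.coeff_mul, Finset.mul_sum,
    Finset.Nat.sum_antidiagonal_eq_sum_range_succ_mk]
  have hsub : Finset.range (min m n + 1) ⊆ Finset.range (m + 1) :=
    Finset.range_mono (by simp)
  rw [← Finset.sum_subset hsub]
  · refine Finset.sum_congr rfl ?_
    intro i hi
    rw [Finset.mem_range] at hi
    have hi1 : i ≤ m := by omega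
    have hi2 : i ≤ n := by omega
    obtain ⟨n', rfl⟩ : ∃ n', n = n' + 1 := ⟨n - 1, by omega⟩
    simp only []
    rw [coeff_G_pow, coeff_sub_pow, symTerm]
    have h2 : n' + 1 + m - i - 1 = n' + (m - i) := by omega
    rw [h2, Nat.add_sub_cancel, pow_add]
    push_cast
    ring
  · intro i hi hi2
    rw [Finset.mem_range] at hi hi2
    have : n < i := by omega
    simp only []
    rw [coeff_sub_pow, Nat.choose_eq_zero_of_lt this]
    simp

theorem choose_symm_identity (i p q : ℕ) (hp : 1 ≤ i + p) (hq : 1 ≤ i + q) :
    (i + q) * (i + p).choose i * (i + p + q - 1).choose (i + p - 1) =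
      (i + p) * (i + q).choose i * (i + p + q - 1).choose (i + q - 1) := by
  obtain ⟨s, hs⟩ : ∃ s, i + p = s + 1 := ⟨i + p - 1, by omega⟩
  obtain ⟨t, ht⟩ : ∃ t, i + q = t + 1 := ⟨i + q - 1, by omega⟩
  have e1 : i + p + q - 1 = s + q := by omega
  have e2 : i + p + q - 1 = t + p := by omega
  have f1 := Nat.add_choose_mul_factorial_mul_factorial i p
  have f2 := Nat.add_choose_mul_factorial_mul_factorial i q
  have f3 := Nat.add_choose_mul_factorial_mul_factorial s q
  have f4 := Nat.add_choose_mul_factorial_mul_factorial t p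
  rw [← Nat.choose_symm_add] at f1 f2 f3 f4
  have g1 : (i + p).factorial = (s + 1) * s.factorial := by rw [hs, Nat.factorial_succ]
  have g2 : (i + q).factorial = (t + 1) * t.factorial := by rw [ht, Nat.factorial_succ]
  have e3 : s + q = t + p := by omega
  have e4 : i + p - 1 = s := by omega
  have e5 : i + q - 1 = t := by omega
  rw [e4, e5, e1]
  have hpos : 0 < i.factorial * p.factorial * q.factorial * s.factorial * t.factorial := by
    positivity
  apply Nat.eq_of_mul_eq_mul_right hpos
  have hA : (i + q) * (i + p).choose i * (s + q).choose s *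
      (i.factorial * p.factorial * q.factorial * s.factorial * t.factorial) =
      (i + q) * t.factorial * ((i + p).choose i * i.factorial * p.factorial) *
        ((s + q).choose s * s.factorial * q.factorial) := by ring
  have hB : (i + p) * (i + q).choose i * (s + q).choose t *
      (i.factorial * p.factorial * q.factorial * s.factorial * t.factorial) =
      (i + p) * s.factorial * ((i + q).choose i * i.factorial * q.factorial) *
        ((s + q).choose t * t.factorial * p.factorial) := by ring
  rw [hA, hB, f1, f2, f3, e3, f4, g1, g2, hs, ht]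
  ring

theorem symTerm_comm (b : ℝ) (m n i : ℕ) (hm : 1 ≤ m) (hn : 1 ≤ n) (him : i ≤ m) (hin : i ≤ n) :
    symTerm b m n i = symTerm b n m i := by
  obtain ⟨p, rfl⟩ := Nat.exists_eq_add_of_le hin
  obtain ⟨q, rfl⟩ := Nat.exists_eq_add_of_le him
  have h := choose_symm_identity i p q hn hm
  have e1 : i + p + (i + q) - i - 1 = i + p + q - 1 := by omega
  have e2 : i + q + (i + p) - i - 1 = i + p + q - 1 := by omega
  rw [symTerm, symTerm, e1, e2, h]
  congr 2
  congr 1
  omega

/-- The symmetry relation. -/
theorem H_symm (b : ℝ) (m n : ℕ) : m * H b n m = n * H b m n := by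
  rcases Nat.eq_zero_or_pos n with rfl | hn
  · rcases Nat.eq_zero_or_pos m with rfl | hm
    · simp
    · have : H b 0 m = 0 := by
        simp [H, PowerSeries.coeff_one]; omega
      rw [this]; simp
  rcases Nat.eq_zero_or_pos m with rfl | hm
  · have : H b 0 n = 0 := by
      simp [H, PowerSeries.coeff_one]; omega
    rw [this]; simp
  rw [mul_H_eq b m n hn, mul_H_eq b n m hm, min_comm m n]
  refine Finset.sum_congr rfl ?_
  intro i hi
  rw [Finset.mem_range] at hi
  exact symTerm_comm b m n i hm hn (by omega) (by omega)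

end Pool.Agent.MP51b9c2.PartI
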