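import Pool.Agent.Lib.MP_51b9c2_an.PartI1
import Pool.Agent.Lib.MP_51b9c2_an.PartI3
import Pool.Agent.Lib.MP_51b9c2_an.PartI4

/-!
# Part I, step 5: lower bounds for the square of the matrix `|[z^m] P^n|²`
-/

namespace Pool.Agent.MP51b9c2.PartI

open Filter Topology

/-- The coefficient function of the recurrence. -/
noncomputable def cc (b : ℝ) (m : ℕ) (k : ℕ) : ℝ :=
  ((1 + b ^ 2) - (1 - b ^ 2) * ((m : ℝ) / k)) / (2 * b)

theorem cc_rec {b : ℝ} (hb : 0 < b) (m k : ℕ) :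
    ((k + 2 : ℕ) : ℝ) * H b m (k + 2) + (k : ℝ) * H b m k =
      2 * cc b m (k + 1) * (((k + 1 : ℕ) : ℝ) * H b m (k + 1)) := by
  have h := H_rec b m k
  have hk : ((k + 1 : ℕ) : ℝ) ≠ 0 := by positivity
  have hb' : b ≠ 0 := hb.ne'
  rw [cc]
  have h2 : 2 * (((1 + b ^ 2) - (1 - b ^ 2) * ((m : ℝ) / ((k + 1 : ℕ) : ℝ))) / (2 * b)) *
      (((k + 1 : ℕ) : ℝ) * H b m (k + 1)) =
      ((1 + b ^ 2) * (((k + 1 : ℕ) : ℝ) * H b m (k + 1)) - m * (1 - b ^ 2) * H b m (k + 1)) / b := by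
    field_simp
  rw [h2, eq_div_iff hb']
  linear_combination h

theorem cc_mono {b : ℝ} (hb : 0 < b) (hb1 : b ≤ 1 / 100) (m k : ℕ) (hk : 1 ≤ k) :
    cc b m k ≤ cc b m (k + 1) := by
  rw [cc, cc]
  have h0 : (0:ℝ) < k := by exact_mod_cast hk
  have h1 : (m : ℝ) / ((k + 1 : ℕ) : ℝ) ≤ (m : ℝ) / k := by
    apply div_le_div_of_nonneg_left (by positivity) h0
    push_cast; linarith
  have h2 : 0 ≤ 1 - b ^ 2 := by nlinarith
  apply div_le_div_of_nonneg_right _ (by positivity)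
  nlinarith [mul_le_mul_of_nonneg_left h1 h2]

theorem cc_abs {b : ℝ} (hb : 0 < b) (hb1 : b ≤ 1 / 100) (m k : ℕ) (hm : 1 ≤ m)
    (h1 : (m : ℝ) * (1 - 9 / 5 * b) ≤ k) (h2 : (k : ℝ) ≤ m * (1 + 9 / 5 * b)) :
    |cc b m k| ≤ 19 / 20 := by
  have hm0 : (0:ℝ) < m := by exact_mod_cast hm
  have hk0 : (0:ℝ) < k := lt_of_lt_of_le (by nlinarith) h1
  have hmk1 : (m : ℝ) / k ≤ 1 / (1 - 9 / 5 * b) := by
    rw [div_le_div_iff₀ hk0 (by linarith)]; linarith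
  have hmk2 : 1 / (1 + 9 / 5 * b) ≤ (m : ℝ) / k := by
    rw [div_le_div_iff₀ (by linarith) hk0]; linarith
  have hb2 : 0 < 1 - b ^ 2 := by nlinarith
  have u1 : (1 - b ^ 2) * (1 / (1 - 9 / 5 * b)) ≤ 1 + b ^ 2 + 19 / 10 * b := by
    rw [mul_one_div, div_le_iff₀ (by linarith)]
    nlinarith [mul_pos hb hb, mul_pos (mul_pos hb hb) hb,
      mul_le_mul_of_nonneg_left hb1 hb.le,
      mul_le_mul_of_nonneg_left hb1 (mul_pos hb hb).le]
  have u2 : 1 + b ^ 2 - 19 / 10 * b ≤ (1 - b ^ 2) * (1 / (1 + 9 / 5 * b)) := by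
    rw [mul_one_div, le_div_iff₀ (by linarith)]
    nlinarith [mul_pos hb hb, mul_pos (mul_pos hb hb) hb,
      mul_le_mul_of_nonneg_left hb1 hb.le,
      mul_le_mul_of_nonneg_left hb1 (mul_pos hb hb).le]
  have v1 := mul_le_mul_of_nonneg_left hmk1 hb2.le
  have v2 := mul_le_mul_of_nonneg_left hmk2 hb2.le
  rw [cc, abs_le]
  constructor
  · rw [le_div_iff₀ (by linarith)]; linarith
  · rw [div_le_iff₀ (by linarith)]; linarith

theorem cc_ge {b : ℝ} (hb : 0 < b) (hb1 : b ≤ 1 / 100) (m k : ℕ) (hm : 1 ≤ m)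
    (h1 : (m : ℝ) * (1 + 3 / 5 * b) ≤ k) : 1 / 4 ≤ cc b m k := by
  have hm0 : (0:ℝ) < m := by exact_mod_cast hm
  have hk0 : (0:ℝ) < k := lt_of_lt_of_le (by nlinarith) h1
  have hmk1 : (m : ℝ) / k ≤ 1 / (1 + 3 / 5 * b) := by
    rw [div_le_div_iff₀ hk0 (by linarith)]; linarith
  have hb2 : 0 < 1 - b ^ 2 := by nlinarith
  have u1 : (1 - b ^ 2) * (1 / (1 + 3 / 5 * b)) ≤ 1 + b ^ 2 - 1 / 2 * b := by
    rw [mul_one_div, div_le_iff₀ (by linarith)]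
    nlinarith [mul_pos hb hb, mul_pos (mul_pos hb hb) hb]
  have v1 := mul_le_mul_of_nonneg_left hmk1 hb2.le
  rw [cc, le_div_iff₀ (by linarith)]
  linarith

/-- A positive proportion of the mass lies in the interior of the band. -/
theorem mass_interior {b : ℝ} (hb : 0 < b) (hb1 : b ≤ 1 / 100) (m p q : ℕ) (hm : 1 ≤ m)
    (hp : p = ⌈(m : ℝ) * (1 - 9 / 5 * b)⌉₊) (hq : q = ⌊(m : ℝ) * (1 + 9 / 5 * b)⌋₊) :
    (m : ℝ) ^ 2 / 4 ≤ ∑ k ∈ Finset.Icc p q, ((k : ℝ) * H b m k) ^ 2 := by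
  have hm0 : (0:ℝ) < m := by exact_mod_cast hm
  have hb2 : b ^ 2 ≤ 1 / 10000 := by nlinarith
  have htend := tendsto_sum_sq_H (b := b) (by linarith) m
  have hev : ∀ᶠ M in atTop, 99 / 100 < ∑ k ∈ Finset.range (M + 1), (H b m k) ^ 2 :=
    htend.eventually (lt_mem_nhds (by norm_num))
  obtain ⟨M, hM1, hM2⟩ := (hev.and (eventually_ge_atTop q)).exists
  have hsub : Finset.Icc p q ⊆ Finset.range (M + 1) := by
    intro k hk
    rw [Finset.mem_Icc] at hk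
    rw [Finset.mem_range]; omega
  have hsplit := Finset.sum_sdiff (f := fun k => (H b m k) ^ 2) hsub
  -- outside mass
  have hout : ∑ k ∈ Finset.range (M + 1) \ Finset.Icc p q, (H b m k) ^ 2 ≤ 62 / 100 := by
    have hvar := sum_variance_le (b := b) (by linarith) m M
    have h1 : ∀ k ∈ Finset.range (M + 1) \ Finset.Icc p q,
        (9 / 5 * b * m) ^ 2 * (H b m k) ^ 2 ≤ (((k : ℝ) - m) * H b m k) ^ 2 := by
      intro k hk
      rw [Finset.mem_sdiff, Finset.mem_Icc] at hk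
      have hk2 : k < p ∨ q < k := by
        by_contra hcon
        push Not at hcon
        exact hk.2 ⟨hcon.1, hcon.2⟩
      rw [mul_pow ((k : ℝ) - m)]
      apply mul_le_mul_of_nonneg_right _ (sq_nonneg _)
      rcases hk2 with h | h
      · rw [hp, Nat.lt_ceil] at h
        nlinarith [mul_pos hb hm0]
      · rw [hq, Nat.floor_lt (by positivity)] at h
        nlinarith [mul_pos hb hm0]
    have h2 := Finset.sum_le_sum h1
    rw [← Finset.mul_sum] at h2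
    have h3 : ∑ k ∈ Finset.range (M + 1) \ Finset.Icc p q, (((k : ℝ) - m) * H b m k) ^ 2 ≤
        ∑ k ∈ Finset.range (M + 1), (((k : ℝ) - m) * H b m k) ^ 2 :=
      Finset.sum_le_sum_of_subset_of_nonneg Finset.sdiff_subset (fun _ _ _ => sq_nonneg _)
    have h4 := (h2.trans h3).trans hvar
    have hbm : 0 < b ^ 2 * (m : ℝ) ^ 2 := by positivity
    have h5 : 2 * b ^ 2 / (1 - b ^ 2) * (m : ℝ) ^ 2 ≤ 2.0003 * (b ^ 2 * (m : ℝ) ^ 2) := by
      have : 2 / (1 - b ^ 2) ≤ 2.0003 := by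
        rw [div_le_iff₀ (by linarith)]; linarith
      calc 2 * b ^ 2 / (1 - b ^ 2) * (m : ℝ) ^ 2 = (2 / (1 - b ^ 2)) * (b ^ 2 * (m : ℝ) ^ 2) := by
            ring
        _ ≤ _ := mul_le_mul_of_nonneg_right this hbm.le
    have h6 : (b ^ 2 * (m : ℝ) ^ 2) * (81 / 25 *
        ∑ k ∈ Finset.range (M + 1) \ Finset.Icc p q, (H b m k) ^ 2) ≤
        (b ^ 2 * (m : ℝ) ^ 2) * 2.0003 := by
      calc _ = (9 / 5 * b * m) ^ 2 *
        ∑ k ∈ Finset.range (M + 1) \ Finset.Icc p q, (H b m k) ^ 2 := by ring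
        _ ≤ _ := h4.trans h5
        _ = _ := by ring
    have h7 := le_of_mul_le_mul_left h6 hbm
    linarith
  have hin : 37 / 100 ≤ ∑ k ∈ Finset.Icc p q, (H b m k) ^ 2 := by linarith
  have hterm : ∀ k ∈ Finset.Icc p q, 96 / 100 * (m : ℝ) ^ 2 * (H b m k) ^ 2 ≤
      ((k : ℝ) * H b m k) ^ 2 := by
    intro k hk
    rw [Finset.mem_Icc, hp, Nat.ceil_le] at hk
    rw [mul_pow]
    apply mul_le_mul_of_nonneg_right _ (sq_nonneg _)
    have h98 : (98 / 100 : ℝ) * m ≤ k := by nlinarith [hk.1]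
    have : (98 / 100 * (m : ℝ)) ^ 2 ≤ (k : ℝ) ^ 2 := by
      apply pow_le_pow_left₀ (by positivity) h98
    nlinarith
  have hsum := Finset.sum_le_sum hterm
  rw [← Finset.mul_sum] at hsum
  have hmm : 0 < (m : ℝ) ^ 2 := by positivity
  nlinarith [mul_le_mul_of_nonneg_left hin hmm.le]

/-- Lower bounds for consecutive terms. -/
theorem H_pair {b : ℝ} (hb : 0 < b) (hb1 : b ≤ 1 / 100) (m k : ℕ) (hm : 100 ≤ b * m)
    (h1 : (m : ℝ) * (1 - 9 / 5 * b) ≤ k) (h2 : (k : ℝ) ≤ m * (1 + 9 / 5 * b)) :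
    (m : ℝ) / (640 * Real.exp 38 * b) ≤
      ((k : ℝ) * H b m k) ^ 2 + (((k + 1 : ℕ) : ℝ) * H b m (k + 1)) ^ 2 := by
  have hm0 : (0:ℝ) < m := by
    by_contra hcon
    have : (m : ℝ) ≤ 0 := not_lt.mp hcon
    nlinarith
  have hm1 : 1 ≤ m := by exact_mod_cast hm0
  set p := ⌈(m : ℝ) * (1 - 9 / 5 * b)⌉₊ with hp
  set q := ⌊(m : ℝ) * (1 + 9 / 5 * b)⌋₊ with hq
  have hpk : p ≤ k := Nat.ceil_le.2 h1
  have hkq : k ≤ q := Nat.le_floor h2
  have hpq : p ≤ q := hpk.trans hkq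
  have hin : ∀ j, p ≤ j → j ≤ q → (m : ℝ) * (1 - 9 / 5 * b) ≤ j ∧
      (j : ℝ) ≤ m * (1 + 9 / 5 * b) := by
    intro j hj1 hj2
    refine ⟨Nat.ceil_le.1 hj1, ?_⟩
    exact (Nat.le_floor_iff (by positivity)).1 hj2
  have hp1 : 1 ≤ p := by
    rw [hp, Nat.one_le_ceil_iff]
    nlinarith
  have hmass := mass_interior hb hb1 m p q hm1 hp hq
  have h := consecutive_lower (cc b m) (fun k => (k : ℝ) * H b m k) p q hpq
    (fun j hj1 hj2 => cc_abs hb hb1 m j hm1 (hin j hj1 hj2).1 (hin j hj1 hj2).2)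
    (fun j hj1 _ => cc_mono hb hb1 m j (hp1.trans hj1))
    (fun j _ _ => cc_rec hb m j)
    ((m : ℝ) ^ 2 / 4) hmass hpk hkq
  refine le_trans ?_ h
  have hqp : (q : ℝ) + 1 - p ≤ 4 * b * m := by
    have e1 : (q : ℝ) ≤ m * (1 + 9 / 5 * b) := Nat.floor_le (by positivity)
    have e2 : (m : ℝ) * (1 - 9 / 5 * b) ≤ p := Nat.le_ceil _
    nlinarith
  have hqp0 : 0 < (q : ℝ) + 1 - p := by
    have : (p : ℝ) ≤ q := by exact_mod_cast hpq
    linarith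
  have hexp := Real.exp_pos 38
  rw [div_le_div_iff₀ (by positivity) (by positivity)]
  calc (m : ℝ) * (40 * Real.exp 38 * ((q : ℝ) + 1 - p))
      ≤ (m : ℝ) * (40 * Real.exp 38 * (4 * b * m)) := by gcongr
    _ = _ := by ring

/-- The lower bound constant. -/
noncomputable def κ (b : ℝ) : ℝ := 1 / (17 * (640 * Real.exp 38 * b))

theorem κ_pos {b : ℝ} (hb : 0 < b) : 0 < κ b := by
  unfold κ; positivity

/-- The three-term statement for a single `m`. -/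
theorem H_triple {b : ℝ} (hb : 0 < b) (hb1 : b ≤ 1 / 100) (m t : ℕ) (hm : 100 ≤ b * m)
    (h1 : (m : ℝ) * (1 + 3 / 5 * b) ≤ t) (h2 : (t : ℝ) + 1 ≤ m * (1 + 9 / 5 * b)) :
    (κ b * m ≤ ((t : ℝ) * H b m t) ^ 2 ∨ κ b * m ≤ (((t + 1 : ℕ) : ℝ) * H b m (t + 1)) ^ 2) ∧
    (κ b * m ≤ (((t + 1 : ℕ) : ℝ) * H b m (t + 1)) ^ 2 ∨
      κ b * m ≤ (((t + 2 : ℕ) : ℝ) * H b m (t + 2)) ^ 2) ∧
    (κ b * m ≤ ((t : ℝ) * H b m t) ^ 2 ∨
      κ b * m ≤ (((t + 2 : ℕ) : ℝ) * H b m (t + 2)) ^ 2) := by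
  have hm0 : (0:ℝ) < m := by
    by_contra hcon
    have : (m : ℝ) ≤ 0 := not_lt.mp hcon
    nlinarith
  have hm1 : 1 ≤ m := by exact_mod_cast hm0
  have hbm : 0 < b * m := by positivity
  have e1 := H_pair hb hb1 m t hm (by nlinarith) (by linarith)
  have e2 := H_pair hb hb1 m (t + 1) hm (by push_cast; nlinarith) (by push_cast; linarith)
  have hκ : 17 * (κ b * m) = (m : ℝ) / (640 * Real.exp 38 * b) := by
    unfold κ
    have := Real.exp_pos 38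
    field_simp
  rw [← hκ] at e1 e2
  have hc := cc_ge hb hb1 m (t + 1) hm1 (by push_cast; linarith)
  exact triple_lower hc (cc_rec hb m t) e1 e2 (mul_nonneg (κ_pos hb).le hm0.le)

/-- The main lower bound for the square of the matrix. -/
theorem square_lower {b : ℝ} (hb : 0 < b) (hb1 : b ≤ 1 / 100) (n m m' : ℕ) (hn : 100 ≤ b * n)
    (hm1 : n ≤ m) (hm2 : (m : ℝ) ≤ n * (1 + b / 10)) (hm1' : n ≤ m')
    (hm2' : (m' : ℝ) ≤ n * (1 + b / 10)) :
    b * κ b ^ 2 / (48 * n) ≤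
      ∑ k ∈ Finset.range (2 * n), (H b k m) ^ 2 * (H b m' k) ^ 2 := by
  have hn0 : (0:ℝ) < n := by
    by_contra hcon
    have : (n : ℝ) ≤ 0 := not_lt.mp hcon
    nlinarith
  have hbn : 0 < b * n := by positivity
  have hκ := κ_pos hb
  have hmn : (n : ℝ) ≤ m := by exact_mod_cast hm1
  have hmn' : (n : ℝ) ≤ m' := by exact_mod_cast hm1'
  have hm0 : (0:ℝ) < m := by linarith
  set s : ℕ → ℝ := fun k => (H b k m) ^ 2 * (H b m' k) ^ 2 with hs
  have hsnn : ∀ k, 0 ≤ s k := fun k => by simp only [hs]; positivity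
  set a := ⌈(n : ℝ) * (1 + 4 / 5 * b)⌉₊ with ha
  set e := ⌊(n : ℝ) * (1 + 8 / 5 * b)⌋₊ - 1 with he
  have hfl : (n : ℝ) * (1 + 8 / 5 * b) < 2 * n := by nlinarith
  -- a single index with both entries large
  have hidx : ∀ j : ℕ, (j : ℝ) < 2 * n → 1 ≤ j →
      κ b * m ≤ ((j : ℝ) * H b m j) ^ 2 → κ b * m' ≤ ((j : ℝ) * H b m' j) ^ 2 →
      κ b ^ 2 / (8 * (n : ℝ) ^ 2) ≤ s j := by
    intro j hj hj1 h1 h2
    have hj0 : (0:ℝ) < j := by exact_mod_cast hj1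
    have hsym : (m : ℝ) * H b j m = j * H b m j := H_symm b m j
    have hA : κ b / (2 * n) ≤ (H b j m) ^ 2 := by
      have : (m : ℝ) ^ 2 * (H b j m) ^ 2 = ((j : ℝ) * H b m j) ^ 2 := by
        rw [← hsym]; ring
      rw [← this] at h1
      have h3 : κ b ≤ m * (H b j m) ^ 2 := by
        have : κ b * m ≤ (m * (H b j m) ^ 2) * m := by
          calc κ b * m ≤ _ := h1
            _ = _ := by ring
        exact le_of_mul_le_mul_right this hm0
      rw [div_le_iff₀ (by positivity)]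
      have h4 : (m : ℝ) ≤ 2 * n := by nlinarith
      nlinarith [mul_le_mul_of_nonneg_right h4 (sq_nonneg (H b j m))]
    have hB : κ b / (4 * n) ≤ (H b m' j) ^ 2 := by
      rw [div_le_iff₀ (by positivity)]
      have h5 : κ b * n ≤ (j : ℝ) ^ 2 * (H b m' j) ^ 2 := by
        calc κ b * n ≤ κ b * m' := by gcongr
          _ ≤ _ := h2
          _ = _ := by ring
      have h6 : (j : ℝ) ^ 2 ≤ 4 * (n : ℝ) ^ 2 := by nlinarith
      have h7 : κ b * n ≤ (4 * (n : ℝ) ^ 2) * (H b m' j) ^ 2 :=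
        h5.trans (mul_le_mul_of_nonneg_right h6 (sq_nonneg _))
      have h8 : κ b * n ≤ ((H b m' j) ^ 2 * (4 * n)) * n := by
        calc κ b * n ≤ _ := h7
          _ = _ := by ring
      exact le_of_mul_le_mul_right h8 hn0
    calc κ b ^ 2 / (8 * (n : ℝ) ^ 2) = (κ b / (2 * n)) * (κ b / (4 * n)) := by
          field_simp; norm_num
      _ ≤ (H b j m) ^ 2 * (H b m' j) ^ 2 := by gcongr
  have htriple : ∀ t ∈ Finset.Ico a e, κ b ^ 2 / (8 * (n : ℝ) ^ 2) ≤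
      s t + s (t + 1) + s (t + 2) := by
    intro t ht
    rw [Finset.mem_Ico, ha, Nat.ceil_le] at ht
    obtain ⟨ht1, ht2⟩ := ht
    have ht3 : t + 2 ≤ ⌊(n : ℝ) * (1 + 8 / 5 * b)⌋₊ := by omega
    have ht4 : ((t + 2 : ℕ) : ℝ) ≤ (n : ℝ) * (1 + 8 / 5 * b) :=
      (Nat.le_floor_iff (by positivity)).1 ht3
    push_cast at ht4
    have ht0 : 1 ≤ t := by
      have : (0:ℝ) < t := lt_of_lt_of_le (by positivity) ht1
      exact_mod_cast this
    have hr : ∀ x : ℕ, n ≤ x → (x : ℝ) ≤ n * (1 + b / 10) →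
        100 ≤ b * x ∧ (x : ℝ) * (1 + 3 / 5 * b) ≤ t ∧ (t : ℝ) + 1 ≤ x * (1 + 9 / 5 * b) := by
      intro x hx1 hx2
      have hx1' : (n : ℝ) ≤ x := by exact_mod_cast hx1
      refine ⟨by nlinarith, ?_, ?_⟩
      · calc (x : ℝ) * (1 + 3 / 5 * b) ≤ (n * (1 + b / 10)) * (1 + 3 / 5 * b) := by gcongr
          _ ≤ n * (1 + 4 / 5 * b) := by nlinarith [mul_pos hbn hb]
          _ ≤ t := ht1
      · calc (t : ℝ) + 1 ≤ n * (1 + 8 / 5 * b) := by linarith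
          _ ≤ n * (1 + 9 / 5 * b) := by nlinarith
          _ ≤ x * (1 + 9 / 5 * b) := by gcongr
    obtain ⟨r1, r2, r3⟩ := hr m hm1 hm2
    obtain ⟨r1', r2', r3'⟩ := hr m' hm1' hm2'
    have T := H_triple hb hb1 m t r1 r2 r3
    have T' := H_triple hb hb1 m' t r1' r2' r3'
    have hs0 := hsnn t
    have hs1 := hsnn (t + 1)
    have hs2 := hsnn (t + 2)
    have i0 := hidx t (by linarith) ht0
    have i1 := hidx (t + 1) (by push_cast; linarith) (by omega)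
    have i2 := hidx (t + 2) (by push_cast; linarith) (by omega)
    have hcases : (κ b * m ≤ ((t : ℝ) * H b m t) ^ 2 ∧ κ b * m' ≤ ((t : ℝ) * H b m' t) ^ 2) ∨
        (κ b * m ≤ (((t + 1 : ℕ) : ℝ) * H b m (t + 1)) ^ 2 ∧
          κ b * m' ≤ (((t + 1 : ℕ) : ℝ) * H b m' (t + 1)) ^ 2) ∨
        (κ b * m ≤ (((t + 2 : ℕ) : ℝ) * H b m (t + 2)) ^ 2 ∧
          κ b * m' ≤ (((t + 2 : ℕ) : ℝ) * H b m' (t + 2)) ^ 2) := by tauto
    rcases hcases with h | h | h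
    · have := i0 h.1 h.2; linarith
    · have := i1 h.1 h.2; linarith
    · have := i2 h.1 h.2; linarith
  have hsum := Finset.sum_le_sum htriple
  rw [Finset.sum_const, Nat.card_Ico, nsmul_eq_mul, Finset.sum_add_distrib,
    Finset.sum_add_distrib] at hsum
  have hupper : ∀ c ≤ 2, ∑ t ∈ Finset.Ico a e, s (t + c) ≤ ∑ k ∈ Finset.range (2 * n), s k := by
    intro c hc
    rw [Finset.sum_Ico_add']
    apply Finset.sum_le_sum_of_subset_of_nonneg _ (fun _ _ _ => hsnn _)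
    intro k hk
    rw [Finset.mem_Ico] at hk
    rw [Finset.mem_range]
    have h1 : ⌊(n : ℝ) * (1 + 8 / 5 * b)⌋₊ < 2 * n := by
      rw [Nat.floor_lt (by positivity)]; push_cast; exact hfl
    omega
  have u0 := hupper 0 (by norm_num)
  have u1 := hupper 1 (by norm_num)
  have u2 := hupper 2 (by norm_num)
  simp only [add_zero] at u0
  have hcount : b * n / 2 ≤ ((e - a : ℕ) : ℝ) := by
    have e1 : (n : ℝ) * (1 + 8 / 5 * b) < ⌊(n : ℝ) * (1 + 8 / 5 * b)⌋₊ + 1 :=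
      Nat.lt_floor_add_one _
    have e2 : (a : ℝ) < (n : ℝ) * (1 + 4 / 5 * b) + 1 := Nat.ceil_lt_add_one (by positivity)
    have e3 : ((⌊(n : ℝ) * (1 + 8 / 5 * b)⌋₊ : ℕ) : ℝ) ≤ (e : ℝ) + 1 := by
      have : ⌊(n : ℝ) * (1 + 8 / 5 * b)⌋₊ ≤ e + 1 := by omega
      exact_mod_cast this
    have e4 : (e : ℝ) ≤ ((e - a : ℕ) : ℝ) + a := by
      have : e ≤ (e - a) + a := by omega
      exact_mod_cast this
    nlinarith
  have hfin : (b * n / 2) * (κ b ^ 2 / (8 * (n : ℝ) ^ 2)) ≤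
      3 * ∑ k ∈ Finset.range (2 * n), s k := by
    have h1 : (b * n / 2) * (κ b ^ 2 / (8 * (n : ℝ) ^ 2)) ≤
        ((e - a : ℕ) : ℝ) * (κ b ^ 2 / (8 * (n : ℝ) ^ 2)) :=
      mul_le_mul_of_nonneg_right hcount (by positivity)
    linarith
  have heq : b * κ b ^ 2 / (48 * n) = ((b * n / 2) * (κ b ^ 2 / (8 * (n : ℝ) ^ 2))) / 3 := by
    field_simp; norm_num
  rw [heq]
  linarith

end Pool.Agent.MP51b9c2.PartI
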