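import Pool.Agent.Lib.MP_51b9c2_an.Basic
import Pool.Agent.Lib.MP_51b9c2_an.PartI5

/-!
# Part I, step 7: the symbols and the matrix inequalities
-/

namespace Pool.Agent.MP51b9c2.PartI

open Filter Metric Topology
open scoped ENNReal NNReal

/-! ### A polynomial symbol -/

/-- The symbol `(z + z²)/2`. -/
noncomputable def psi : Polynomial ℂ := Polynomial.C (1 / 2) * (Polynomial.X * (1 + Polynomial.X))

theorem psi_eval (z : ℂ) : psi.eval z = (z + z ^ 2) / 2 := by
  simp [psi]; ring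

theorem isSymbol_psi : IsSymbol (fun z => psi.eval z) := by
  refine ⟨psi.differentiable.differentiableOn, ?_, 0, by simp, 1 / 2, by simp; norm_num, ?_⟩
  · intro z hz
    rw [mem_ball_zero_iff] at hz ⊢
    beta_reduce
    rw [psi_eval, norm_div]
    have h1 : ‖z + z ^ 2‖ ≤ ‖z‖ + ‖z‖ ^ 2 := by
      refine (norm_add_le _ _).trans ?_
      rw [norm_pow]
    have h2 : ‖(2:ℂ)‖ = 2 := by simp
    rw [h2, div_lt_one (by norm_num)]
    have h3 : ‖z‖ ^ 2 < 1 := by
      have := norm_nonneg z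
      nlinarith
    linarith
  · simp only [psi_eval]
    norm_num

theorem memH2_polynomial (β : ℕ → ℝ) (p : Polynomial ℂ) : MemH2 β (fun z => p.eval z) := by
  refine ⟨p.differentiable.differentiableOn, ?_⟩
  apply summable_of_ne_finset_zero (s := Finset.range (p.natDegree + 1))
  intro n hn
  rw [Finset.mem_range, not_lt] at hn
  rw [coeff_polynomial, Polynomial.coeff_eq_zero_of_natDegree_lt (by omega)]
  simp

theorem psi_pow_coeff (n j : ℕ) : (psi ^ n).coeff (n + j) = (n.choose j : ℂ) / 2 ^ n := by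
  rw [psi, mul_pow, mul_pow, ← Polynomial.C_pow, Polynomial.coeff_C_mul, add_comm n j,
    Polynomial.coeff_X_pow_mul, Polynomial.coeff_one_add_X_pow]
  rw [div_pow, one_pow]
  ring

/-- The growth bound. -/
theorem doubling {β : ℕ → ℝ} (hpos : ∀ n, 0 < β n) (hZ : PropertyZ β) :
    ∃ K : ℝ, 1 ≤ K ∧ ∀ n j : ℕ, j ≤ n → β (n + j) ≤ K * 4 ^ n * β n := by
  have hb := hZ _ isSymbol_psi (memH2_polynomial β psi)
  rw [boundedComp_iff hpos isSymbol_psi.1 isSymbol_psi.2.1] at hb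
  obtain ⟨K, hK⟩ := hb
  refine ⟨K + 1, by linarith [K.coe_nonneg], fun n j hj => ?_⟩
  have h1 := hK (fun z => z ^ n) (differentiable_id.pow n).differentiableOn
  rw [enormSq_pow_id] at h1
  have h2 := (coeff_le_enormSq β ((fun z => z ^ n) ∘ fun z => psi.eval z) (n + j)).trans h1
  have h3 : ((fun z : ℂ => z ^ n) ∘ fun z => psi.eval z) = fun z => (psi ^ n).eval z := by
    funext z; simp
  rw [h3, coeff_polynomial, psi_pow_coeff] at h2
  rw [← ENNReal.ofReal_coe_nnreal, ← ENNReal.ofReal_mul K.coe_nonneg,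
    ENNReal.ofReal_le_ofReal_iff (mul_nonneg K.coe_nonneg (hpos n).le)] at h2
  have h4 : ‖(n.choose j : ℂ) / 2 ^ n‖ ^ 2 = (n.choose j : ℝ) ^ 2 / 4 ^ n := by
    rw [norm_div, norm_pow, div_pow, ← pow_mul, mul_comm n 2, pow_mul]
    norm_num
  rw [h4] at h2
  have h5 : (1:ℝ) ≤ (n.choose j : ℝ) ^ 2 := by
    have : (1:ℝ) ≤ n.choose j := by exact_mod_cast Nat.choose_pos hj
    nlinarith
  have h6 : (0:ℝ) < 4 ^ n := by positivity
  have h7 : (n.choose j : ℝ) ^ 2 * β (n + j) ≤ K * β n * 4 ^ n := by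
    rw [div_mul_eq_mul_div, div_le_iff₀ h6] at h2
    exact h2
  have h8 : β (n + j) ≤ (n.choose j : ℝ) ^ 2 * β (n + j) := by
    nlinarith [hpos (n + j)]
  calc β (n + j) ≤ K * β n * 4 ^ n := h8.trans h7
    _ = K * 4 ^ n * β n := by ring
    _ ≤ _ := by
      have := hpos n
      gcongr
      linarith

theorem exp_growth {β : ℕ → ℝ} (hpos : ∀ n, 0 < β n) (hZ : PropertyZ β) :
    ∃ B D : ℝ, 0 < B ∧ 16 ≤ D ∧ ∀ m : ℕ, β m ≤ B * D ^ m := by
  obtain ⟨K, hK1, hK⟩ := doubling hpos hZ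
  refine ⟨β 0 + β 1, 16 * K, by linarith [hpos 0, hpos 1], by linarith, ?_⟩
  intro m
  induction m using Nat.strong_induction_on with
  | _ m ih =>
    rcases Nat.lt_or_ge m 2 with hm | hm
    · have hm' : m = 0 ∨ m = 1 := by omega
      rcases hm' with rfl | rfl
      · simp; exact (hpos 1).le
      · rw [pow_one]
        nlinarith [hpos 0, hpos 1]
    · set n := (m + 1) / 2 with hn
      set j := m - n with hj
      have hnj : m = n + j := by omega
      have hjn : j ≤ n := by omega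
      have hnm : n < m := by omega
      have h1 := hK n j hjn
      rw [← hnj] at h1
      have h2 := ih n hnm
      have hj1 : 1 ≤ j := by omega
      have h4 : (4:ℝ) ^ n ≤ 16 ^ j := by
        calc (4:ℝ) ^ n ≤ 4 ^ (2 * j) := pow_le_pow_right₀ (by norm_num) (by omega)
          _ = 16 ^ j := by rw [pow_mul]; norm_num
      have h5 : K ≤ K ^ j := by
        calc K = K ^ 1 := (pow_one K).symm
          _ ≤ K ^ j := pow_le_pow_right₀ hK1 hj1
      have hB : 0 < β 0 + β 1 := by linarith [hpos 0, hpos 1]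
      calc β m ≤ K * 4 ^ n * β n := h1
        _ ≤ (K ^ j * 16 ^ j) * ((β 0 + β 1) * (16 * K) ^ n) := by
          apply mul_le_mul _ h2 (hpos n).le (by positivity)
          gcongr
        _ = (β 0 + β 1) * (16 * K) ^ m := by
          rw [hnj, pow_add, mul_pow 16 K j]; ring

/-! ### The Möbius symbol -/

/-- The involution `(b - z)/(1 - b z)`. -/
noncomputable def phi (b : ℝ) : ℂ → ℂ := fun z => (b - z) * (1 - b * z)⁻¹

theorem one_sub_ne_zero {b : ℝ} (hb : 0 < b) (hb1 : b < 1) {z : ℂ} (hz : z ∈ ball (0:ℂ) 1) :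
    1 - (b : ℂ) * z ≠ 0 := by
  intro h
  have h1 : (b : ℂ) * z = 1 := by linear_combination -h
  have h2 := congrArg norm h1
  rw [norm_mul, Complex.norm_real, Real.norm_of_nonneg hb.le, norm_one] at h2
  rw [mem_ball_zero_iff] at hz
  nlinarith [norm_nonneg z]

theorem hasCoeffs_inv {b : ℝ} (hb : 0 < b) (hb1 : b < 1) :
    HasCoeffs (fun z => (1 - (b : ℂ) * z)⁻¹) (fun m => ((PowerSeries.coeff m (G b) : ℝ) : ℂ)) := by
  intro z hz
  rw [mem_ball_zero_iff] at hz
  have h1 : ‖(b : ℂ) * z‖ < 1 := by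
    rw [norm_mul, Complex.norm_real, Real.norm_of_nonneg hb.le]
    nlinarith [norm_nonneg z]
  have h2 := hasSum_geometric_of_norm_lt_one h1
  refine h2.congr_fun ?_
  intro m
  simp [G, mul_pow]

theorem hasCoeffs_sub (b : ℝ) :
    HasCoeffs (fun z => (b : ℂ) - z)
      (fun m => ((PowerSeries.coeff m (PowerSeries.C b - PowerSeries.X : PowerSeries ℝ) : ℝ) : ℂ)) := by
  have h := hasCoeffs_polynomial (Polynomial.C (b : ℂ) - Polynomial.X)
  have e1 : (fun z : ℂ => (Polynomial.C (b : ℂ) - Polynomial.X).eval z) = fun z => (b : ℂ) - z := by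
    funext z; simp
  rw [e1] at h
  have e2 : (Polynomial.C (b : ℂ) - Polynomial.X).coeff =
      (fun m => ((PowerSeries.coeff m (PowerSeries.C b - PowerSeries.X : PowerSeries ℝ) : ℝ) : ℂ)) := by
    funext m
    rw [Polynomial.coeff_sub, Polynomial.coeff_C, Polynomial.coeff_X, map_sub,
      PowerSeries.coeff_C, PowerSeries.coeff_X]
    by_cases h : m = 1
    · subst h; simp
    · rw [if_neg (Ne.symm h), if_neg h]
      by_cases h0 : m = 0
      · subst h0; simp
      · rw [if_neg h0, if_neg h0]; simp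
  rw [e2] at h
  exact h

theorem hasCoeffs_phi {b : ℝ} (hb : 0 < b) (hb1 : b < 1) :
    HasCoeffs (phi b) (fun m => ((PowerSeries.coeff m (P b) : ℝ) : ℂ)) := by
  have h := (hasCoeffs_sub b).mul (hasCoeffs_inv hb hb1)
  have e : (fun n => ∑ p ∈ Finset.HasAntidiagonal.antidiagonal n,
      ((PowerSeries.coeff p.1 (PowerSeries.C b - PowerSeries.X : PowerSeries ℝ) : ℝ) : ℂ) *
        ((PowerSeries.coeff p.2 (G b) : ℝ) : ℂ)) =
      (fun m => ((PowerSeries.coeff m (P b) : ℝ) : ℂ)) := by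
    funext m
    rw [P, PowerSeries.coeff_mul]
    push_cast
    rfl
  rw [e] at h
  exact h

theorem hasCoeffs_phi_pow {b : ℝ} (hb : 0 < b) (hb1 : b < 1) (n : ℕ) :
    HasCoeffs (fun z => phi b z ^ n) (fun m => ((H b n m : ℝ) : ℂ)) := by
  induction n with
  | zero =>
    have h := hasCoeffs_polynomial (1 : Polynomial ℂ)
    have e1 : (fun z : ℂ => (1 : Polynomial ℂ).eval z) = fun z => phi b z ^ 0 := by
      funext z; simp
    have e2 : (1 : Polynomial ℂ).coeff = (fun m => ((H b 0 m : ℝ) : ℂ)) := by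
      funext m
      rw [H, pow_zero, PowerSeries.coeff_one, Polynomial.coeff_one]
      split_ifs <;> simp_all
    rw [e1, e2] at h
    exact h
  | succ n ih =>
    have h := ih.mul (hasCoeffs_phi hb hb1)
    have e : (fun k => ∑ p ∈ Finset.HasAntidiagonal.antidiagonal k,
        ((H b n p.1 : ℝ) : ℂ) * ((PowerSeries.coeff p.2 (P b) : ℝ) : ℂ)) =
        (fun m => ((H b (n + 1) m : ℝ) : ℂ)) := by
      funext m
      rw [H, pow_succ, PowerSeries.coeff_mul]
      push_cast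
      rfl
    rw [e] at h
    have e3 : (fun z => phi b z ^ n * phi b z) = fun z => phi b z ^ (n + 1) := by
      funext z; rw [pow_succ]
    rw [e3] at h
    exact h

theorem isSymbol_phi {b : ℝ} (hb : 0 < b) (hb1 : b < 1) : IsSymbol (phi b) := by
  refine ⟨(hasCoeffs_phi hb hb1).differentiableOn, ?_, 0, by simp, b, by
    simp [abs_of_pos hb, hb1], ?_⟩
  · intro z hz
    have hne := one_sub_ne_zero hb hb1 hz
    rw [mem_ball_zero_iff] at hz ⊢
    rw [phi, ← div_eq_mul_inv, norm_div, div_lt_one (norm_pos_iff.2 hne)]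
    rw [← sq_lt_sq₀ (norm_nonneg _) (norm_nonneg _), ← Complex.normSq_eq_norm_sq,
      ← Complex.normSq_eq_norm_sq, Complex.normSq_apply, Complex.normSq_apply]
    have hz2 : z.re ^ 2 + z.im ^ 2 < 1 := by
      have : ‖z‖ ^ 2 < 1 := by nlinarith [norm_nonneg z]
      rw [← Complex.normSq_eq_norm_sq, Complex.normSq_apply] at this
      nlinarith
    simp only [Complex.sub_re, Complex.sub_im, Complex.ofReal_re, Complex.ofReal_im,
      Complex.one_re, Complex.one_im, Complex.mul_re, Complex.mul_im]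
    nlinarith [mul_pos (sub_pos.2 hz2) (by nlinarith : (0:ℝ) < 1 - b ^ 2)]
  · simp [phi, hb.ne']

theorem memH2_phi {β : ℕ → ℝ} (hpos : ∀ n, 0 < β n) {b : ℝ} (hb : 0 < b) (hb1 : b < 1) {B D : ℝ}
    (hB : 0 < B) (hD : 16 ≤ D) (hβ : ∀ m : ℕ, β m ≤ B * D ^ m) (hbD : b ^ 2 * D < 1) :
    MemH2 β (phi b) := by
  refine ⟨(isSymbol_phi hb hb1).1, ?_⟩
  rw [(hasCoeffs_phi hb hb1).coeff_eq]
  rw [← summable_nat_add_iff 1]
  have hs : Summable fun m : ℕ => B * D * (b ^ 2 * D) ^ m := by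
    apply Summable.mul_left
    apply summable_geometric_of_lt_one (by positivity) hbD
  refine Summable.of_nonneg_of_le (fun m => ?_) (fun m => ?_) hs
  · have := (hpos (m + 1)).le
    positivity
  · beta_reduce
    rw [coeff_P_succ, Complex.norm_real, Real.norm_eq_abs, sq_abs]
    have h1 := hβ (m + 1)
    have h2 : (-(1 - b ^ 2) * b ^ m) ^ 2 ≤ (b ^ 2) ^ m := by
      have e : (-(1 - b ^ 2) * b ^ m) ^ 2 = (1 - b ^ 2) ^ 2 * (b ^ 2) ^ m := by
        rw [← pow_mul, mul_comm 2 m, pow_mul]; ring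
      rw [e]
      have h3 : (1 - b ^ 2) ^ 2 ≤ 1 := by
        have : 0 < b ^ 2 := by positivity
        nlinarith
      have h4 : 0 ≤ (b ^ 2) ^ m := by positivity
      nlinarith
    calc (-(1 - b ^ 2) * b ^ m) ^ 2 * β (m + 1) ≤ (b ^ 2) ^ m * (B * D ^ (m + 1)) := by
          apply mul_le_mul h2 h1 (hpos _).le (by positivity)
      _ = _ := by rw [mul_pow]; ring

/-! ### The matrix inequalities -/

/-- Column inequality. -/
theorem col_le {β : ℕ → ℝ} (hpos : ∀ n, 0 < β n) {b : ℝ} (hb : 0 < b) (hb1 : b < 1) {K : ℝ≥0}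
    (hK : Bdd β (phi b) K) (n : ℕ) (W : Finset ℕ) :
    ∑ m ∈ W, β m * (H b n m) ^ 2 ≤ K * β n := by
  have h1 := hK (fun z => z ^ n) (differentiable_id.pow n).differentiableOn
  rw [enormSq_pow_id] at h1
  have h3 : ((fun z : ℂ => z ^ n) ∘ phi b) = fun z => phi b z ^ n := rfl
  rw [h3] at h1
  unfold enormSq at h1
  rw [(hasCoeffs_phi_pow hb hb1 n).coeff_eq] at h1
  have h2 := (ENNReal.sum_le_tsum W).trans h1
  rw [← ENNReal.ofReal_sum_of_nonneg (fun m _ => by have := (hpos m).le; positivity),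
    ← ENNReal.ofReal_coe_nnreal, ← ENNReal.ofReal_mul K.coe_nonneg,
    ENNReal.ofReal_le_ofReal_iff (mul_nonneg K.coe_nonneg (hpos n).le)] at h2
  refine le_trans (le_of_eq ?_) h2
  refine Finset.sum_congr rfl fun m _ => ?_
  rw [Complex.norm_real, Real.norm_eq_abs, sq_abs]
  ring

/-- Row inequality. -/
theorem row_le {β : ℕ → ℝ} (hpos : ∀ n, 0 < β n) {b : ℝ} (hb : 0 < b) (hb1 : b < 1) {K : ℝ≥0}
    (hK : Bdd β (phi b) K) (m : ℕ) (W : Finset ℕ) :
    ∑ n ∈ W, (H b n m) ^ 2 / β n ≤ K / β m := by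
  set S : ℝ := ∑ n ∈ W, (H b n m) ^ 2 / β n with hS
  have hSnn : 0 ≤ S := Finset.sum_nonneg fun n _ => div_nonneg (sq_nonneg _) (hpos n).le
  rcases hSnn.eq_or_lt with h0 | hSpos
  · rw [← h0]; exact div_nonneg K.coe_nonneg (hpos m).le
  -- the test function
  set p : Polynomial ℂ := ∑ n ∈ W, Polynomial.C (((H b n m / β n : ℝ)) : ℂ) * Polynomial.X ^ n
    with hp
  have hpc : ∀ k, p.coeff k = if k ∈ W then (((H b k m / β k : ℝ)) : ℂ) else 0 := by
    intro k
    simp only [hp, Polynomial.finsetSum_coeff, Polynomial.coeff_C_mul_X_pow]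
    rw [Finset.sum_ite_eq]
  have hnorm : enormSq β (fun z => p.eval z) = ENNReal.ofReal S := by
    unfold enormSq
    rw [coeff_polynomial, tsum_eq_sum (s := W)]
    · rw [← ENNReal.ofReal_sum_of_nonneg (fun n _ => by have := (hpos n).le; positivity)]
      congr 1
      refine Finset.sum_congr rfl fun n hn => ?_
      rw [hpc, if_pos hn, Complex.norm_real, Real.norm_eq_abs, sq_abs]
      have := (hpos n).ne'
      field_simp
    · intro n hn
      rw [hpc, if_neg hn]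
      simp
  have hcomp : HasCoeffs ((fun z => p.eval z) ∘ phi b)
      (fun k => ∑ n ∈ W, (((H b n m / β n : ℝ)) : ℂ) * ((H b n k : ℝ) : ℂ)) := by
    intro z hz
    have e1 : ((fun z => p.eval z) ∘ phi b) z =
        ∑ n ∈ W, (((H b n m / β n : ℝ)) : ℂ) * phi b z ^ n := by
      simp [hp, Polynomial.eval_finsetSum]
    rw [e1]
    have e2 : (fun k => (∑ n ∈ W, (((H b n m / β n : ℝ)) : ℂ) * ((H b n k : ℝ) : ℂ)) * z ^ k) =
        fun k => ∑ n ∈ W, (((H b n m / β n : ℝ)) : ℂ) * (((H b n k : ℝ) : ℂ) * z ^ k) := by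
      funext k
      rw [Finset.sum_mul]
      exact Finset.sum_congr rfl fun n _ => by ring
    rw [e2]
    exact hasSum_sum fun n _ => (hasCoeffs_phi_pow hb hb1 n z hz).mul_left _
  have h1 := hK (fun z => p.eval z) p.differentiable.differentiableOn
  have h2 := (coeff_le_enormSq β ((fun z => p.eval z) ∘ phi b) m).trans h1
  rw [hnorm, hcomp.coeff_eq] at h2
  beta_reduce at h2
  have e3 : (∑ n ∈ W, (((H b n m / β n : ℝ)) : ℂ) * ((H b n m : ℝ) : ℂ)) = ((S : ℝ) : ℂ) := by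
    rw [hS]
    push_cast
    exact Finset.sum_congr rfl fun n _ => by ring
  rw [e3, Complex.norm_real, Real.norm_eq_abs, sq_abs, ← ENNReal.ofReal_coe_nnreal,
    ← ENNReal.ofReal_mul K.coe_nonneg,
    ENNReal.ofReal_le_ofReal_iff (mul_nonneg K.coe_nonneg hSnn)] at h2
  rw [le_div_iff₀ (hpos m)]
  have h3 : S * (S * β m) ≤ S * K := by
    calc S * (S * β m) = S ^ 2 * β m := by ring
      _ ≤ K * S := h2
      _ = S * K := by ring
  exact le_of_mul_le_mul_left h3 hSpos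

theorem short_range {β : ℕ → ℝ} (hpos : ∀ n, 0 < β n) {b : ℝ} (hb : 0 < b) (hb1 : b ≤ 1 / 100)
    {K : ℝ≥0} (hK : Bdd β (phi b) K) (n : ℕ) (hn : 100 ≤ b * n) (m m' : ℕ)
    (hm1 : n ≤ m) (hm2 : (m : ℝ) ≤ n * (1 + b / 10)) (hm1' : n ≤ m')
    (hm2' : (m' : ℝ) ≤ n * (1 + b / 10)) :
    β m' ≤ (960 * (K : ℝ) ^ 2 / (b ^ 2 * κ b ^ 2)) ^ 2 * β m := by
  have hn0 : (0:ℝ) < n := by
    by_contra hcon
    have : (n : ℝ) ≤ 0 := not_lt.mp hcon
    nlinarith
  have hκ := κ_pos hb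
  have hb1' : b < 1 := by linarith
  set N := ⌊(n : ℝ) * (1 + b / 10)⌋₊ with hN
  set W := Finset.Icc n N with hW
  have hmem : ∀ k ∈ W, n ≤ k ∧ (k : ℝ) ≤ n * (1 + b / 10) := by
    intro k hk
    rw [hW, Finset.mem_Icc] at hk
    exact ⟨hk.1, (Nat.le_floor_iff (by positivity)).1 hk.2⟩
  set c : ℝ := b * κ b ^ 2 / (48 * n) with hc
  have hcpos : 0 < c := by rw [hc]; positivity
  -- first inequality
  have e1 : (∑ k ∈ W, β k) * c ≤ (K : ℝ) ^ 2 * β m := by
    calc (∑ k ∈ W, β k) * c = ∑ k ∈ W, β k * c := Finset.sum_mul _ _ _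
      _ ≤ ∑ k ∈ W, β k * ∑ j ∈ Finset.range (2 * n), (H b j k) ^ 2 * (H b m j) ^ 2 := by
        refine Finset.sum_le_sum fun k hk => ?_
        apply mul_le_mul_of_nonneg_left _ (hpos k).le
        obtain ⟨k1, k2⟩ := hmem k hk
        exact square_lower hb hb1 n k m hn k1 k2 hm1 hm2
      _ = ∑ j ∈ Finset.range (2 * n), (H b m j) ^ 2 * ∑ k ∈ W, β k * (H b j k) ^ 2 := by
        simp_rw [Finset.mul_sum]
        rw [Finset.sum_comm]
        refine Finset.sum_congr rfl fun j _ => Finset.sum_congr rfl fun k _ => by ring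
      _ ≤ ∑ j ∈ Finset.range (2 * n), (H b m j) ^ 2 * (K * β j) := by
        refine Finset.sum_le_sum fun j _ => ?_
        exact mul_le_mul_of_nonneg_left (col_le hpos hb hb1' hK j W) (sq_nonneg _)
      _ = K * ∑ j ∈ Finset.range (2 * n), β j * (H b m j) ^ 2 := by
        rw [Finset.mul_sum]
        exact Finset.sum_congr rfl fun j _ => by ring
      _ ≤ K * (K * β m) := by
        exact mul_le_mul_of_nonneg_left (col_le hpos hb hb1' hK m _) K.coe_nonneg
      _ = _ := by ring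
  have e2 : (∑ k ∈ W, (β k)⁻¹) * c ≤ (K : ℝ) ^ 2 / β m' := by
    calc (∑ k ∈ W, (β k)⁻¹) * c = ∑ k ∈ W, (β k)⁻¹ * c := Finset.sum_mul _ _ _
      _ ≤ ∑ k ∈ W, (β k)⁻¹ * ∑ j ∈ Finset.range (2 * n), (H b j m') ^ 2 * (H b k j) ^ 2 := by
        refine Finset.sum_le_sum fun k hk => ?_
        apply mul_le_mul_of_nonneg_left _ (inv_pos.2 (hpos k)).le
        obtain ⟨k1, k2⟩ := hmem k hk
        exact square_lower hb hb1 n m' k hn hm1' hm2' k1 k2
      _ = ∑ j ∈ Finset.range (2 * n), (H b j m') ^ 2 * ∑ k ∈ W, (H b k j) ^ 2 / β k := by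
        simp_rw [Finset.mul_sum]
        rw [Finset.sum_comm]
        refine Finset.sum_congr rfl fun j _ => Finset.sum_congr rfl fun k _ => by
          rw [div_eq_mul_inv]; ring
      _ ≤ ∑ j ∈ Finset.range (2 * n), (H b j m') ^ 2 * (K / β j) := by
        refine Finset.sum_le_sum fun j _ => ?_
        exact mul_le_mul_of_nonneg_left (row_le hpos hb hb1' hK j W) (sq_nonneg _)
      _ = K * ∑ j ∈ Finset.range (2 * n), (H b j m') ^ 2 / β j := by
        rw [Finset.mul_sum]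
        exact Finset.sum_congr rfl fun j _ => by rw [div_eq_mul_inv, div_eq_mul_inv]; ring
      _ ≤ K * (K / β m') := by
        exact mul_le_mul_of_nonneg_left (row_le hpos hb hb1' hK m' _) K.coe_nonneg
      _ = _ := by ring
  -- Cauchy-Schwarz
  have hCS : (W.card : ℝ) ^ 2 ≤ (∑ k ∈ W, β k) * ∑ k ∈ W, (β k)⁻¹ := by
    have h := Finset.sum_mul_sq_le_sq_mul_sq W (fun k => Real.sqrt (β k))
      (fun k => (Real.sqrt (β k))⁻¹)
    have h1 : ∀ k ∈ W, Real.sqrt (β k) * (Real.sqrt (β k))⁻¹ = 1 := fun k _ =>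
      mul_inv_cancel₀ (Real.sqrt_pos.2 (hpos k)).ne'
    have h2 : ∀ k ∈ W, Real.sqrt (β k) ^ 2 = β k := fun k _ => Real.sq_sqrt (hpos k).le
    have h3 : ∀ k ∈ W, (Real.sqrt (β k))⁻¹ ^ 2 = (β k)⁻¹ := fun k _ => by
      rw [inv_pow, Real.sq_sqrt (hpos k).le]
    rw [Finset.sum_congr rfl h1, Finset.sum_congr rfl h2, Finset.sum_congr rfl h3] at h
    simpa using h
  have hcard : b * n / 20 ≤ (W.card : ℝ) := by
    rw [hW, Nat.card_Icc]
    have h1 : (n : ℝ) * (1 + b / 10) < N + 1 := Nat.lt_floor_add_one _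
    have h2 : (N : ℝ) + 1 ≤ ((N + 1 - n : ℕ) : ℝ) + n := by
      have : N + 1 ≤ (N + 1 - n) + n := by omega
      exact_mod_cast this
    nlinarith
  have hsum1 : 0 ≤ ∑ k ∈ W, β k := Finset.sum_nonneg fun k _ => (hpos k).le
  have hsum2 : 0 ≤ ∑ k ∈ W, (β k)⁻¹ := Finset.sum_nonneg fun k _ => (inv_pos.2 (hpos k)).le
  have e3 : (b * n / 20) ^ 2 * c ^ 2 * β m' ≤ (K : ℝ) ^ 4 * β m := by
    have hbn : 0 ≤ b * n / 20 := by positivity
    have h1 : (b * n / 20) ^ 2 ≤ (∑ k ∈ W, β k) * ∑ k ∈ W, (β k)⁻¹ :=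
      (pow_le_pow_left₀ hbn hcard 2).trans hCS
    have h2 : (b * n / 20) ^ 2 * c ^ 2 ≤ ((K : ℝ) ^ 2 * β m) * ((K : ℝ) ^ 2 / β m') := by
      calc (b * n / 20) ^ 2 * c ^ 2 ≤ ((∑ k ∈ W, β k) * ∑ k ∈ W, (β k)⁻¹) * c ^ 2 :=
            mul_le_mul_of_nonneg_right h1 (sq_nonneg c)
        _ = ((∑ k ∈ W, β k) * c) * ((∑ k ∈ W, (β k)⁻¹) * c) := by ring
        _ ≤ _ := mul_le_mul e1 e2 (by positivity) (by have := (hpos m).le; positivity)
    calc (b * n / 20) ^ 2 * c ^ 2 * β m' ≤ (((K : ℝ) ^ 2 * β m) * ((K : ℝ) ^ 2 / β m')) * β m' :=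
          mul_le_mul_of_nonneg_right h2 (hpos m').le
      _ = (K : ℝ) ^ 4 * β m := by
          have := (hpos m').ne'
          field_simp
  have e4 : (b * n / 20) ^ 2 * c ^ 2 = (b ^ 2 * κ b ^ 2 / 960) ^ 2 := by
    rw [hc]; field_simp; norm_num
  rw [e4] at e3
  have hpos2 : 0 < (b ^ 2 * κ b ^ 2 / 960) ^ 2 := by positivity
  rw [← le_div_iff₀' hpos2] at e3
  refine e3.trans (le_of_eq ?_)
  field_simp

end Pool.Agent.MP51b9c2.PartI
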