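import Pool.Agent.Lib.MP_51b9c2_an.PartI6
import Pool.Agent.Lib.MP_51b9c2_an.PartI7

/-!
# Part I: property (Z) implies slow oscillation
-/

namespace Pool.Agent.MP51b9c2

open PartI
open scoped ENNReal NNReal

/-- Property (Z) forces the weight to be slowly oscillating. -/
theorem slowlyOscillating_of_propertyZ {β : ℕ → ℝ} (hpos : ∀ n, 0 < β n)
    (hZ : PropertyZ β) : SlowlyOscillating β := by
  obtain ⟨B, D, hB, hD, hβ⟩ := exp_growth hpos hZ
  set b : ℝ := 1 / (100 * D) with hb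
  have hD0 : 0 < D := by linarith
  have hb0 : 0 < b := by rw [hb]; positivity
  have hbD : b * D = 1 / 100 := by rw [hb]; field_simp
  have hb1 : b ≤ 1 / 100 := by nlinarith
  have hb1' : b < 1 := by linarith
  have hb2D : b ^ 2 * D < 1 := by
    have : b ^ 2 * D = b * (b * D) := by ring
    rw [this, hbD]; nlinarith
  have hbd := hZ (phi b) (isSymbol_phi hb0 hb1') (memH2_phi hpos hb0 hb1' hB hD hβ hb2D)
  rw [boundedComp_iff hpos (isSymbol_phi hb0 hb1').1 (isSymbol_phi hb0 hb1').2.1] at hbd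
  obtain ⟨K, hK⟩ := hbd
  set C1 : ℝ := (960 * (K : ℝ) ^ 2 / (b ^ 2 * κ b ^ 2)) ^ 2 + 1 with hC1
  have hC1' : 1 ≤ C1 := by
    rw [hC1]
    have : 0 ≤ (960 * (K : ℝ) ^ 2 / (b ^ 2 * κ b ^ 2)) ^ 2 := sq_nonneg _
    linarith
  refine slowlyOscillating_of_short hpos (δ := b / 10) (by positivity)
    (n0 := ⌈100 / b⌉₊) ?_ hC1' ?_
  · have h1 : 100 / b ≤ (⌈100 / b⌉₊ : ℝ) := Nat.le_ceil _
    have h2 : b / 10 * (100 / b) = 10 := by field_simp; norm_num
    nlinarith
  · intro n m m' hn hm1 hm2 hm1' hm2'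
    have h1 : 100 / b ≤ (n : ℝ) := (Nat.le_ceil _).trans (by exact_mod_cast hn)
    have h2 : 100 ≤ b * n := by
      rw [div_le_iff₀ hb0] at h1; linarith
    have h3 := short_range hpos hb0 hb1 hK n h2 m m' hm1 hm2 hm1' hm2'
    refine h3.trans (mul_le_mul_of_nonneg_right ?_ (hpos m).le)
    rw [hC1]; linarith

end Pool.Agent.MP51b9c2
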