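import Mathlib

/-!
# Part I, step 1: an energy estimate for three-term recurrences
-/

namespace Pool.Agent.MP51b9c2.PartI

/-- One step of the energy comparison. -/
theorem energy_step {c c' x y z : ℝ} (hc : |c| ≤ 19 / 20) (hc' : |c'| ≤ 19 / 20) (hcc : c ≤ c')
    (hrec : z + x = 2 * c' * y) :
    (y ^ 2 + z ^ 2 - 2 * c' * y * z ≤
      Real.exp (20 * (c' - c)) * (x ^ 2 + y ^ 2 - 2 * c * x * y)) ∧
    (x ^ 2 + y ^ 2 - 2 * c * x * y ≤
      Real.exp (20 * (c' - c)) * (y ^ 2 + z ^ 2 - 2 * c' * y * z)) := by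
  have hz : z = 2 * c' * y - x := by linarith
  have hE : y ^ 2 + z ^ 2 - 2 * c' * y * z = x ^ 2 + y ^ 2 - 2 * c' * x * y := by
    rw [hz]; ring
  rw [hE]
  have h1 := abs_le.mp hc
  have h2 := abs_le.mp hc'
  have hexp : 1 + 20 * (c' - c) ≤ Real.exp (20 * (c' - c)) := by
    have := Real.add_one_le_exp (20 * (c' - c)); linarith
  have hQ : 0 ≤ x ^ 2 + y ^ 2 := by positivity
  have key : ∀ d : ℝ, -(19 / 20) ≤ d → d ≤ 19 / 20 →
      (x ^ 2 + y ^ 2) / 20 ≤ x ^ 2 + y ^ 2 - 2 * d * x * y := by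
    intro d h3 h4
    nlinarith [mul_nonneg (sub_nonneg.2 h4) (sq_nonneg (x + y)),
      mul_nonneg (by linarith : (0:ℝ) ≤ d + 19 / 20) (sq_nonneg (x - y)),
      sq_nonneg (x - y), sq_nonneg (x + y)]
  have hE1 := key c h1.1 h1.2
  have hE2 := key c' h2.1 h2.2
  have hd : 0 ≤ c' - c := by linarith
  have hxy : |2 * x * y| ≤ x ^ 2 + y ^ 2 := by
    rw [abs_le]; constructor <;> nlinarith [sq_nonneg (x - y), sq_nonneg (x + y)]
  have hxy' := abs_le.mp hxy
  constructor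
  · have : x ^ 2 + y ^ 2 - 2 * c' * x * y ≤
        (1 + 20 * (c' - c)) * (x ^ 2 + y ^ 2 - 2 * c * x * y) := by
      nlinarith [mul_le_mul_of_nonneg_left hE1 hd, mul_le_mul_of_nonneg_left hxy'.1 hd,
        mul_le_mul_of_nonneg_left hxy'.2 hd]
    exact this.trans (mul_le_mul_of_nonneg_right hexp (by linarith))
  · have : x ^ 2 + y ^ 2 - 2 * c * x * y ≤
        (1 + 20 * (c' - c)) * (x ^ 2 + y ^ 2 - 2 * c' * x * y) := by
      nlinarith [mul_le_mul_of_nonneg_left hE2 hd, mul_le_mul_of_nonneg_left hxy'.1 hd,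
        mul_le_mul_of_nonneg_left hxy'.2 hd]
    exact this.trans (mul_le_mul_of_nonneg_right hexp (by linarith))

/-- The energy of a solution of the recurrence `g (m+2) + g m = 2 c (m+1) g (m+1)` is constant
up to a fixed factor on an interval where `c` is increasing with values in `[-19/20, 19/20]`. -/
theorem energy_comparable (c g : ℕ → ℝ) (p q : ℕ)
    (hc : ∀ m, p ≤ m → m ≤ q → |c m| ≤ 19 / 20)
    (hmono : ∀ m, p ≤ m → m + 1 ≤ q → c m ≤ c (m + 1))
    (hrec : ∀ m, p ≤ m → m + 1 ≤ q → g (m + 2) + g m = 2 * c (m + 1) * g (m + 1))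
    {m m' : ℕ} (hm : p ≤ m) (hm1 : m ≤ q) (hm' : p ≤ m') (hm1' : m' ≤ q) :
    g m ^ 2 + g (m + 1) ^ 2 - 2 * c m * g m * g (m + 1) ≤
      Real.exp 38 * (g m' ^ 2 + g (m' + 1) ^ 2 - 2 * c m' * g m' * g (m' + 1)) := by
  set E : ℕ → ℝ := fun m => g m ^ 2 + g (m + 1) ^ 2 - 2 * c m * g m * g (m + 1) with hE
  have hEnn : ∀ k, p ≤ k → k ≤ q → 0 ≤ E k := by
    intro k h1 h2
    have h3 := abs_le.mp (hc k h1 h2)
    simp only [hE]
    nlinarith [mul_nonneg (sub_nonneg.2 h3.2) (sq_nonneg (g k + g (k+1))),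
      mul_nonneg (by linarith : (0:ℝ) ≤ c k + 19 / 20) (sq_nonneg (g k - g (k+1))),
      sq_nonneg (g k - g (k+1)), sq_nonneg (g k + g (k+1))]
  have main : ∀ k a, p ≤ a → a + k ≤ q →
      E (a + k) ≤ Real.exp (20 * (c (a + k) - c a)) * E a ∧
      E a ≤ Real.exp (20 * (c (a + k) - c a)) * E (a + k) := by
    intro k
    induction k with
    | zero => intro a _ _; simp
    | succ k ih =>
      intro a ha hak
      obtain ⟨i1, i2⟩ := ih a ha (by omega)
      have hs := energy_step (c := c (a + k)) (c' := c (a + k + 1)) (x := g (a + k))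
        (y := g (a + k + 1)) (z := g (a + k + 2)) (hc _ (by omega) (by omega))
        (hc _ (by omega) (by omega)) (hmono _ (by omega) (by omega))
        (hrec _ (by omega) (by omega))
      obtain ⟨s1, s2⟩ := hs
      have hexp : Real.exp (20 * (c (a + (k + 1)) - c a)) =
          Real.exp (20 * (c (a + k + 1) - c (a + k))) * Real.exp (20 * (c (a + k) - c a)) := by
        rw [← Real.exp_add]; congr 1; rw [← add_assoc]; ring
      constructor
      · calc E (a + (k + 1)) ≤ Real.exp (20 * (c (a + k + 1) - c (a + k))) * E (a + k) := s1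
          _ ≤ Real.exp (20 * (c (a + k + 1) - c (a + k))) *
              (Real.exp (20 * (c (a + k) - c a)) * E a) :=
            mul_le_mul_of_nonneg_left i1 (Real.exp_pos _).le
          _ = _ := by rw [hexp]; ring
      · calc E a ≤ Real.exp (20 * (c (a + k) - c a)) * E (a + k) := i2
          _ ≤ Real.exp (20 * (c (a + k) - c a)) *
              (Real.exp (20 * (c (a + k + 1) - c (a + k))) * E (a + (k + 1))) :=
            mul_le_mul_of_nonneg_left s2 (Real.exp_pos _).le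
          _ = _ := by rw [hexp]; ring
  change E m ≤ Real.exp 38 * E m'
  have hcm := abs_le.mp (hc m hm hm1)
  have hcm' := abs_le.mp (hc m' hm' hm1')
  rcases le_total m m' with h | h
  · obtain ⟨k, rfl⟩ := Nat.exists_eq_add_of_le h
    refine ((main k m hm hm1').2).trans ?_
    refine mul_le_mul_of_nonneg_right (Real.exp_le_exp.2 (by linarith)) (hEnn _ hm' hm1')
  · obtain ⟨k, rfl⟩ := Nat.exists_eq_add_of_le h
    refine ((main k m' hm' hm1).1).trans ?_
    refine mul_le_mul_of_nonneg_right (Real.exp_le_exp.2 (by linarith)) (hEnn _ hm' hm1')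

/-- Lower bound for consecutive terms from a lower bound of the total mass. -/
theorem consecutive_lower (c g : ℕ → ℝ) (p q : ℕ) (hpq : p ≤ q)
    (hc : ∀ m, p ≤ m → m ≤ q → |c m| ≤ 19 / 20)
    (hmono : ∀ m, p ≤ m → m + 1 ≤ q → c m ≤ c (m + 1))
    (hrec : ∀ m, p ≤ m → m + 1 ≤ q → g (m + 2) + g m = 2 * c (m + 1) * g (m + 1))
    (S : ℝ) (hS : S ≤ ∑ m ∈ Finset.Icc p q, g m ^ 2) {m : ℕ} (hm : p ≤ m) (hm1 : m ≤ q) :
    S / (40 * Real.exp 38 * ((q : ℝ) + 1 - p)) ≤ g m ^ 2 + g (m + 1) ^ 2 := by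
  have hcard : (0:ℝ) < (q : ℝ) + 1 - p := by
    have : (p : ℝ) ≤ q := by exact_mod_cast hpq
    linarith
  have hexp := Real.exp_pos 38
  -- each term is at most 20 * exp 38 * E m
  set Em : ℝ := g m ^ 2 + g (m + 1) ^ 2 - 2 * c m * g m * g (m + 1) with hEm
  have hterm : ∀ k ∈ Finset.Icc p q, g k ^ 2 ≤ 20 * Real.exp 38 * Em := by
    intro k hk
    rw [Finset.mem_Icc] at hk
    have h1 := energy_comparable c g p q hc hmono hrec hk.1 hk.2 hm hm1
    have h3 := abs_le.mp (hc k hk.1 hk.2)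
    have h2 : g k ^ 2 / 20 ≤ g k ^ 2 + g (k + 1) ^ 2 - 2 * c k * g k * g (k + 1) := by
      nlinarith [mul_nonneg (sub_nonneg.2 h3.2) (sq_nonneg (g k + g (k+1))),
        mul_nonneg (by linarith : (0:ℝ) ≤ c k + 19 / 20) (sq_nonneg (g k - g (k+1))),
        sq_nonneg (g k - g (k+1)), sq_nonneg (g k + g (k+1)), sq_nonneg (g (k+1))]
    rw [← hEm] at h1
    linarith
  have hsum := Finset.sum_le_sum hterm
  rw [Finset.sum_const, Nat.card_Icc, nsmul_eq_mul] at hsum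
  have hcast : ((q + 1 - p : ℕ) : ℝ) = (q : ℝ) + 1 - p := by
    rw [Nat.cast_sub (by omega)]; push_cast; ring
  rw [hcast] at hsum
  have hSle : S ≤ ((q : ℝ) + 1 - p) * (20 * Real.exp 38 * Em) := hS.trans hsum
  have h3 := abs_le.mp (hc m hm hm1)
  have hEm2 : Em ≤ 2 * (g m ^ 2 + g (m + 1) ^ 2) := by
    rw [hEm]
    nlinarith [mul_nonneg (sub_nonneg.2 h3.2) (sq_nonneg (g m - g (m+1))),
      mul_nonneg (by linarith : (0:ℝ) ≤ c m + 19 / 20) (sq_nonneg (g m + g (m+1))),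
      sq_nonneg (g m - g (m+1)), sq_nonneg (g m + g (m+1))]
  rw [div_le_iff₀ (by positivity)]
  calc S ≤ ((q : ℝ) + 1 - p) * (20 * Real.exp 38 * Em) := hSle
    _ ≤ ((q : ℝ) + 1 - p) * (20 * Real.exp 38 * (2 * (g m ^ 2 + g (m + 1) ^ 2))) := by
        gcongr
    _ = _ := by ring

/-- Where `c ≥ 1/4`, at most one of three consecutive terms is small. -/
theorem triple_lower {c x y z κ : ℝ} (hc : 1 / 4 ≤ c) (hrec : z + x = 2 * c * y)
    (hxy : 17 * κ ≤ x ^ 2 + y ^ 2) (hyz : 17 * κ ≤ y ^ 2 + z ^ 2) (hκ : 0 ≤ κ) :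
    (κ ≤ x ^ 2 ∨ κ ≤ y ^ 2) ∧ (κ ≤ y ^ 2 ∨ κ ≤ z ^ 2) ∧ (κ ≤ x ^ 2 ∨ κ ≤ z ^ 2) := by
  refine ⟨?_, ?_, ?_⟩
  · by_contra h
    push Not at h
    linarith [h.1, h.2]
  · by_contra h
    push Not at h
    linarith [h.1, h.2]
  · by_contra h
    push Not at h
    have h1 : (2 * c * y) ^ 2 ≤ 2 * (x ^ 2 + z ^ 2) := by
      rw [← hrec]; nlinarith [sq_nonneg (z - x)]
    have h2 : y ^ 2 / 4 ≤ (2 * c * y) ^ 2 := by
      have : (1:ℝ) / 4 ≤ (2 * c) ^ 2 := by nlinarith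
      calc y ^ 2 / 4 = (1 / 4) * y ^ 2 := by ring
        _ ≤ (2 * c) ^ 2 * y ^ 2 := mul_le_mul_of_nonneg_right this (sq_nonneg y)
        _ = _ := by ring
    nlinarith [h.1, h.2]

end Pool.Agent.MP51b9c2.PartI
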