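import Mathlib

/-!
# Part I, step 2: the coefficients of the powers of `(b - z)/(1 - b z)`
-/

namespace Pool.Agent.MP51b9c2.PartI

open PowerSeries

/-- The geometric series `1/(1 - b X)`. -/
noncomputable def G (b : ℝ) : PowerSeries ℝ := PowerSeries.mk fun m => b ^ m

/-- The power series of `(b - z)/(1 - b z)`. -/
noncomputable def P (b : ℝ) : PowerSeries ℝ := (C b - X) * G b

/-- The coefficient of `z ^ m` in `((b - z)/(1 - b z)) ^ n`. -/
noncomputable def H (b : ℝ) (n m : ℕ) : ℝ := PowerSeries.coeff m (P b ^ n)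

theorem one_sub_mul_G (b : ℝ) : (1 - C b * X) * G b = 1 := by
  ext m
  rw [sub_mul, one_mul, mul_assoc, map_sub, PowerSeries.coeff_C_mul]
  cases m with
  | zero => simp [G]
  | succ m =>
    rw [PowerSeries.coeff_succ_X_mul]
    simp [G, PowerSeries.coeff_one]
    ring

theorem derivative_G (b : ℝ) : d⁄dX ℝ (G b) = C b * G b ^ 2 := by
  have h := congrArg (d⁄dX ℝ) (one_sub_mul_G b)
  rw [Derivation.leibniz] at h
  simp only [map_sub, Derivation.leibniz, smul_eq_mul, PowerSeries.derivative_C,
    PowerSeries.derivative_X, Derivation.map_one_eq_zero] at h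
  -- (1 - bX) dG = b G
  have h2 : (1 - C b * X) * d⁄dX ℝ (G b) = C b * G b := by
    linear_combination h
  calc d⁄dX ℝ (G b) = ((1 - C b * X) * G b) * d⁄dX ℝ (G b) := by rw [one_sub_mul_G, one_mul]
    _ = G b * ((1 - C b * X) * d⁄dX ℝ (G b)) := by ring
    _ = _ := by rw [h2]; ring

theorem derivative_P (b : ℝ) : d⁄dX ℝ (P b) = - C (1 - b ^ 2) * G b ^ 2 := by
  rw [P, Derivation.leibniz, derivative_G]
  simp only [map_sub, smul_eq_mul, PowerSeries.derivative_C, PowerSeries.derivative_X, map_one,
    map_pow]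
  have h := one_sub_mul_G b
  linear_combination (G b) * h

theorem ode (b : ℝ) (n : ℕ) :
    (C b - C (1 + b ^ 2) * X + C b * X ^ 2) * d⁄dX ℝ (P b ^ n) =
      - C ((n : ℝ) * (1 - b ^ 2)) * P b ^ n := by
  rw [Derivation.leibniz_pow, derivative_P]
  cases n with
  | zero => simp
  | succ n =>
    have h := one_sub_mul_G b
    simp only [Nat.add_sub_cancel, nsmul_eq_mul, smul_eq_mul, map_mul, map_add, map_sub, map_one,
      map_pow, map_natCast, Nat.cast_add, Nat.cast_one]
    rw [pow_succ (P b) n]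
    simp only [P]
    linear_combination (-(1 - C b ^ 2) * ((n : PowerSeries ℝ) + 1) * ((C b - X) * G b) ^ n
      * (C b - X) * G b) * h

theorem H_rec (b : ℝ) (n m : ℕ) :
    b * ((m + 2 : ℕ) * H b n (m + 2)) - (1 + b ^ 2) * ((m + 1 : ℕ) * H b n (m + 1))
      + b * (m * H b n m) = - (n * (1 - b ^ 2)) * H b n (m + 1) := by
  have h := congrArg (PowerSeries.coeff (m + 1)) (ode b n)
  rw [add_mul, sub_mul, map_add, map_sub, mul_assoc, mul_assoc, PowerSeries.coeff_C_mul,
    PowerSeries.coeff_C_mul, PowerSeries.coeff_C_mul, PowerSeries.coeff_succ_X_mul] at h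
  rw [← map_neg, PowerSeries.coeff_C_mul] at h
  cases m with
  | zero =>
    rw [PowerSeries.coeff_X_pow_mul'] at h
    simp only [PowerSeries.coeff_derivative] at h
    simp only [H]
    push_cast at h ⊢
    simp at h ⊢
    linear_combination h
  | succ m =>
    rw [show m + 1 + 1 = m + 2 from rfl, PowerSeries.coeff_X_pow_mul] at h
    simp only [PowerSeries.coeff_derivative] at h
    simp only [H]
    push_cast at h ⊢
    linear_combination h

end Pool.Agent.MP51b9c2.PartI
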