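import Pool.Agent.Lib.MP_51b9c2_an.Defs

/-!
# Part I, step 6: from short-range comparability to slow oscillation
-/

namespace Pool.Agent.MP51b9c2.PartI

theorem chain_aux {β : ℕ → ℝ} (hpos : ∀ n, 0 < β n) {δ : ℝ} (hδ : 0 < δ) {n0 : ℕ}
    (hn0 : 2 ≤ δ * n0) {C1 : ℝ} (hC1 : 1 ≤ C1)
    (h : ∀ n m m' : ℕ, n0 ≤ n → n ≤ m → (m : ℝ) ≤ n * (1 + δ) → n ≤ m' →
      (m' : ℝ) ≤ n * (1 + δ) → β m' ≤ C1 * β m) (j : ℕ) :
    ∀ n m : ℕ, n0 ≤ n → n ≤ m → (m : ℝ) ≤ n * (1 + δ / 2) ^ j →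
      β m ≤ C1 ^ j * β n ∧ β n ≤ C1 ^ j * β m := by
  induction j with
  | zero =>
    intro n m hn hnm hm
    have : m = n := by
      have : (m : ℝ) ≤ n := by simpa using hm
      have : m ≤ n := by exact_mod_cast this
      omega
    subst this
    simp
  | succ j ih =>
    intro n m hn hnm hm
    have hnr : (n0 : ℝ) ≤ n := by exact_mod_cast hn
    have hδn : 2 ≤ δ * n := hn0.trans (by gcongr)
    set n' := ⌊(n : ℝ) * (1 + δ)⌋₊ with hn'
    have hn'1 : (n' : ℝ) ≤ n * (1 + δ) := Nat.floor_le (by positivity)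
    have hn'2 : (n : ℝ) * (1 + δ) < n' + 1 := Nat.lt_floor_add_one _
    have hn'3 : n ≤ n' := Nat.le_floor (by nlinarith)
    have hpow : (1 : ℝ) ≤ C1 ^ j := one_le_pow₀ hC1
    rcases le_or_gt m n' with hmn | hmn
    · have hm1 : (m : ℝ) ≤ n * (1 + δ) := by
        have : (m : ℝ) ≤ n' := by exact_mod_cast hmn
        linarith
      have e1 := h n n m hn le_rfl (by nlinarith) hnm hm1
      have e2 := h n m n hn hnm hm1 le_rfl (by nlinarith)
      have hCp : C1 ≤ C1 ^ (j + 1) := by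
        rw [pow_succ]; nlinarith
      exact ⟨e1.trans (mul_le_mul_of_nonneg_right hCp (hpos n).le),
        e2.trans (mul_le_mul_of_nonneg_right hCp (hpos m).le)⟩
    · have hm2 : (m : ℝ) ≤ n' * (1 + δ / 2) ^ j := by
        calc (m : ℝ) ≤ n * (1 + δ / 2) ^ (j + 1) := hm
          _ = (n * (1 + δ / 2)) * (1 + δ / 2) ^ j := by ring
          _ ≤ n' * (1 + δ / 2) ^ j := by
            apply mul_le_mul_of_nonneg_right _ (by positivity)
            nlinarith
      obtain ⟨i1, i2⟩ := ih n' m (hn.trans hn'3) hmn.le hm2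
      have e1 := h n n n' hn le_rfl (by nlinarith) hn'3 hn'1
      have e2 := h n n' n hn hn'3 hn'1 le_rfl (by nlinarith)
      constructor
      · calc β m ≤ C1 ^ j * β n' := i1
          _ ≤ C1 ^ j * (C1 * β n) := by gcongr
          _ = _ := by ring
      · calc β n ≤ C1 * β n' := e2
          _ ≤ C1 * (C1 ^ j * β m) := by gcongr
          _ = _ := by ring

theorem slowlyOscillating_of_short {β : ℕ → ℝ} (hpos : ∀ n, 0 < β n) {δ : ℝ} (hδ : 0 < δ)
    {n0 : ℕ} (hn0 : 2 ≤ δ * n0) {C1 : ℝ} (hC1 : 1 ≤ C1)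
    (h : ∀ n m m' : ℕ, n0 ≤ n → n ≤ m → (m : ℝ) ≤ n * (1 + δ) → n ≤ m' →
      (m' : ℝ) ≤ n * (1 + δ) → β m' ≤ C1 * β m) : SlowlyOscillating β := by
  obtain ⟨j, hj⟩ : ∃ j : ℕ, (2 : ℝ) < (1 + δ / 2) ^ j :=
    pow_unbounded_of_one_lt 2 (by linarith)
  set C2 : ℝ := ∑ p ∈ Finset.range (2 * n0 + 1) ×ˢ Finset.range (2 * n0 + 1), β p.1 / β p.2
    with hC2
  have hC2le : ∀ a b : ℕ, a ≤ 2 * n0 → b ≤ 2 * n0 → β a ≤ C2 * β b := by
    intro a b ha hb
    have h1 : β a / β b ≤ C2 := by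
      rw [hC2]
      exact Finset.single_le_sum
        (f := fun p : ℕ × ℕ => β p.1 / β p.2)
        (fun p _ => (div_pos (hpos _) (hpos _)).le)
        (show ((a, b) : ℕ × ℕ) ∈ Finset.range (2 * n0 + 1) ×ˢ Finset.range (2 * n0 + 1) by
          simp; omega)
    rwa [div_le_iff₀ (hpos b)] at h1
  have hC2nn : 0 ≤ C2 := Finset.sum_nonneg fun p _ => (div_pos (hpos _) (hpos _)).le
  set C : ℝ := C1 ^ j + C2 + 1 with hC
  have hCp : 1 ≤ C1 ^ j := one_le_pow₀ hC1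
  have hC1lt : 1 < C := by rw [hC]; linarith
  -- comparability for n ≤ m ≤ 2 n
  have key : ∀ n m : ℕ, n ≤ m → m ≤ 2 * n → β m ≤ C * β n ∧ β n ≤ C * β m := by
    intro n m hnm hm
    rcases le_or_gt n0 n with hn | hn
    · have hm' : (m : ℝ) ≤ n * (1 + δ / 2) ^ j := by
        have : (m : ℝ) ≤ 2 * n := by exact_mod_cast hm
        nlinarith [(Nat.cast_nonneg n : (0:ℝ) ≤ n)]
      obtain ⟨i1, i2⟩ := chain_aux hpos hδ hn0 hC1 h j n m hn hnm hm'
      exact ⟨i1.trans (mul_le_mul_of_nonneg_right (by rw [hC]; linarith) (hpos n).le),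
        i2.trans (mul_le_mul_of_nonneg_right (by rw [hC]; linarith) (hpos m).le)⟩
    · have e1 := hC2le m n (by omega) (by omega)
      have e2 := hC2le n m (by omega) (by omega)
      exact ⟨e1.trans (mul_le_mul_of_nonneg_right (by rw [hC]; linarith) (hpos n).le),
        e2.trans (mul_le_mul_of_nonneg_right (by rw [hC]; linarith) (hpos m).le)⟩
  refine ⟨C⁻¹, C, by positivity, inv_lt_one_of_one_lt₀ hC1lt, hC1lt, ?_⟩
  intro n m h1 h2
  have h1' : n ≤ 2 * m := by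
    have : (n : ℝ) ≤ 2 * m := by linarith
    exact_mod_cast this
  have h2' : m ≤ 2 * n := by exact_mod_cast h2
  have hfin : β m ≤ C * β n ∧ β n ≤ C * β m := by
    rcases le_total n m with hnm | hnm
    · exact key n m hnm h2'
    · exact (key m n hnm h1').symm
  refine ⟨?_, hfin.1⟩
  rw [inv_mul_le_iff₀ (by linarith)]
  exact hfin.2

end Pool.Agent.MP51b9c2.PartI
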