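import Mathlib

/-!
# Part II, step 3: decreasing weights as superpositions of geometric weights
-/

namespace Pool.Agent.MP51b9c2.PartII

/-- Dyadic points. -/
def sk (k : ℕ) : ℕ := 2 ^ k - 1

/-- The radii. -/
noncomputable def rk (k : ℕ) : ℝ := 1 - (1 / 2) ^ (k + 1)

theorem rk_ge (k : ℕ) : 1 / 2 ≤ rk k := by
  unfold rk
  have : ((1:ℝ) / 2) ^ (k + 1) ≤ 1 / 2 := by
    rw [pow_succ]
    have : ((1:ℝ) / 2) ^ k ≤ 1 := pow_le_one₀ (by norm_num) (by norm_num)
    linarith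
  linarith

theorem rk_lt (k : ℕ) : rk k < 1 := by
  unfold rk
  have : (0:ℝ) < (1 / 2) ^ (k + 1) := by positivity
  linarith

theorem rk_pow_ge (k : ℕ) : 1 / 4 ≤ rk k ^ (2 ^ (k + 1)) := by
  induction k with
  | zero => unfold rk; norm_num
  | succ k ih =>
    have h1 : rk k ≤ rk (k + 1) ^ 2 := by
      unfold rk
      have : ((1:ℝ) / 2) ^ (k + 1 + 1) = (1 / 2) ^ (k + 1) / 2 := by rw [pow_succ _ (k + 1)]; ring
      rw [this]
      nlinarith [sq_nonneg ((1:ℝ) / 2 ^ (k + 1)), sq_nonneg (((1:ℝ) / 2) ^ (k + 1))]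
    have h0 : 0 ≤ rk k := by linarith [rk_ge k]
    calc 1 / 4 ≤ rk k ^ (2 ^ (k + 1)) := ih
      _ ≤ (rk (k + 1) ^ 2) ^ (2 ^ (k + 1)) := pow_le_pow_left₀ h0 h1 _
      _ = rk (k + 1) ^ (2 ^ (k + 1 + 1)) := by rw [← pow_mul, pow_succ 2 (k + 1), mul_comm 2]

theorem sum_telescope (f : ℕ → ℝ) {j K : ℕ} (h : j ≤ K) :
    ∑ k ∈ Finset.Ico j K, (f k - f (k + 1)) = f j - f K := by
  induction K, h using Nat.le_induction with
  | base => simp
  | succ K hK ih => rw [Finset.sum_Ico_succ_top hK, ih]; ring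

theorem weight_lower {γ : ℕ → ℝ} (hanti : ∀ m n, m ≤ n → γ n ≤ γ m) (hpos : ∀ n, 0 < γ n)
    (n K : ℕ) :
    γ n ≤ 16 * (∑ k ∈ Finset.range K, (γ (sk k) - γ (sk (k + 1))) * rk k ^ (2 * n)
      + γ (sk K)) := by
  have hmono : ∀ k, sk k ≤ sk (k + 1) := by
    intro k; unfold sk
    have : 2 ^ k ≤ 2 ^ (k + 1) := Nat.pow_le_pow_right (by norm_num) (by omega)
    omega
  have hμ : ∀ k, 0 ≤ γ (sk k) - γ (sk (k + 1)) := fun k => by
    have := hanti _ _ (hmono k); linarith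
  have hterm : ∀ k, 0 ≤ (γ (sk k) - γ (sk (k + 1))) * rk k ^ (2 * n) := fun k =>
    mul_nonneg (hμ k) (pow_nonneg (by linarith [rk_ge k]) _)
  have hsumnn : 0 ≤ ∑ k ∈ Finset.range K, (γ (sk k) - γ (sk (k + 1))) * rk k ^ (2 * n) :=
    Finset.sum_nonneg fun k _ => hterm k
  have hK := hpos (sk K)
  rcases le_or_gt (sk K) n with hn | hn
  · have := hanti _ _ hn
    linarith
  · set j := Nat.log 2 (n + 1) with hj
    have hj1 : 2 ^ j ≤ n + 1 := Nat.pow_log_le_self 2 (by omega)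
    have hj2 : n + 1 < 2 ^ (j + 1) := Nat.lt_pow_succ_log_self (by norm_num) _
    have hjK : j < K := by
      by_contra hcon
      push Not at hcon
      have : 2 ^ K ≤ 2 ^ j := Nat.pow_le_pow_right (by norm_num) hcon
      unfold sk at hn
      omega
    have hsj : sk j ≤ n := by unfold sk; omega
    have h1 : γ n ≤ γ (sk j) := hanti _ _ hsj
    have h2 := sum_telescope (fun k => γ (sk k)) hjK.le
    have h3 : ∀ k ∈ Finset.Ico j K, (γ (sk k) - γ (sk (k + 1))) ≤
        16 * ((γ (sk k) - γ (sk (k + 1))) * rk k ^ (2 * n)) := by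
      intro k hk
      rw [Finset.mem_Ico] at hk
      have h4 : 2 * n ≤ 2 ^ (k + 1) * 2 := by
        have : 2 ^ (j + 1) ≤ 2 ^ (k + 1) := Nat.pow_le_pow_right (by norm_num) (by omega)
        omega
      have h5 : (1:ℝ) / 16 ≤ rk k ^ (2 * n) := by
        calc (1:ℝ) / 16 = (1 / 4) ^ 2 := by norm_num
          _ ≤ (rk k ^ (2 ^ (k + 1))) ^ 2 := pow_le_pow_left₀ (by norm_num) (rk_pow_ge k) 2
          _ = rk k ^ (2 ^ (k + 1) * 2) := by rw [← pow_mul]
          _ ≤ rk k ^ (2 * n) :=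
            pow_le_pow_of_le_one (by linarith [rk_ge k]) (rk_lt k).le h4
      have := hμ k
      nlinarith
    have h6 := Finset.sum_le_sum h3
    rw [h2, ← Finset.mul_sum] at h6
    have h7 : ∑ k ∈ Finset.Ico j K, (γ (sk k) - γ (sk (k + 1))) * rk k ^ (2 * n) ≤
        ∑ k ∈ Finset.range K, (γ (sk k) - γ (sk (k + 1))) * rk k ^ (2 * n) := by
      apply Finset.sum_le_sum_of_subset_of_nonneg
      · intro k hk
        rw [Finset.mem_Ico] at hk
        rw [Finset.mem_range]; exact hk.2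
      · intro k _ _; exact hterm k
    linarith

theorem sum_half_pow_le (j : ℕ) : ∑ k ∈ Finset.range j, ((1:ℝ) / 2) ^ (j - k) ≤ 1 := by
  induction j with
  | zero => simp
  | succ j ih =>
    rw [Finset.sum_range_succ]
    have h1 : ∑ k ∈ Finset.range j, ((1:ℝ) / 2) ^ (j + 1 - k) =
        (1 / 2) * ∑ k ∈ Finset.range j, ((1:ℝ) / 2) ^ (j - k) := by
      rw [Finset.mul_sum]
      refine Finset.sum_congr rfl fun k hk => ?_
      rw [Finset.mem_range] at hk
      rw [show j + 1 - k = (j - k) + 1 by omega, pow_succ]; ring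
    rw [h1, show j + 1 - j = 1 by omega]
    linarith

theorem weight_upper {γ : ℕ → ℝ} (hanti : ∀ m n, m ≤ n → γ n ≤ γ m) (hpos : ∀ n, 0 < γ n)
    {C5 : ℝ} (hC5 : 1 ≤ C5) (hdbl : ∀ n, γ n ≤ C5 * γ (2 * n + 1)) {c : ℝ} (hc : 0 < c)
    (hc1 : c ≤ 1 / 4) :
    ∃ C7 : ℝ, 0 < C7 ∧ ∀ n K : ℕ, n ≤ sk K →
      ∑ k ∈ Finset.range K, (γ (sk k) - γ (sk (k + 1))) * (1 - c * (1 - rk k)) ^ (2 * n)
        + γ (sk K) ≤ C7 * γ n := by
  obtain ⟨q, hq⟩ : ∃ q : ℕ, 2 * C5 < 2 ^ q := pow_unbounded_of_one_lt _ (by norm_num)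
  set M : ℝ := (q.factorial : ℝ) * (2 / c) ^ q with hM
  have hM0 : 0 < M := by rw [hM]; positivity
  have hmono : ∀ k, sk k ≤ sk (k + 1) := by
    intro k; unfold sk
    have : 2 ^ k ≤ 2 ^ (k + 1) := Nat.pow_le_pow_right (by norm_num) (by omega)
    omega
  have hμ : ∀ k, 0 ≤ γ (sk k) - γ (sk (k + 1)) := fun k => by
    have := hanti _ _ (hmono k); linarith
  have hstep : ∀ k, γ (sk k) ≤ C5 * γ (sk (k + 1)) := by
    intro k
    have h1 := hdbl (sk k)
    have h2 : 2 * sk k + 1 = sk (k + 1) := by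
      unfold sk
      have : 1 ≤ 2 ^ k := Nat.one_le_two_pow
      rw [pow_succ]; omega
    rwa [h2] at h1
  have hiter : ∀ i k, γ (sk k) ≤ C5 ^ i * γ (sk (k + i)) := by
    intro i
    induction i with
    | zero => intro k; simp
    | succ i ih =>
      intro k
      calc γ (sk k) ≤ C5 ^ i * γ (sk (k + i)) := ih k
        _ ≤ C5 ^ i * (C5 * γ (sk (k + i + 1))) := by
          apply mul_le_mul_of_nonneg_left (hstep _) (by positivity)
        _ = _ := by rw [pow_succ, ← add_assoc]; ring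
  refine ⟨(M + 1) * C5 + 1, by positivity, fun n K hn => ?_⟩
  have hγK : γ (sk K) ≤ γ n := hanti _ _ hn
  set j := Nat.log 2 (n + 1) with hj
  have hj1 : 2 ^ j ≤ n + 1 := Nat.pow_log_le_self 2 (by omega)
  have hj2 : n + 1 < 2 ^ (j + 1) := Nat.lt_pow_succ_log_self (by norm_num) _
  have hjK : j ≤ K := by
    by_contra hcon
    push Not at hcon
    have : 2 ^ (K + 1) ≤ 2 ^ j := Nat.pow_le_pow_right (by norm_num) hcon
    have h1 : 1 ≤ 2 ^ K := Nat.one_le_two_pow
    unfold sk at hn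
    rw [pow_succ] at this
    omega
  have hγj : γ (sk j) ≤ C5 * γ n := by
    have h1 : n ≤ sk (j + 1) := by unfold sk; omega
    have h2 := hanti _ _ h1
    calc γ (sk j) ≤ C5 * γ (sk (j + 1)) := hstep j
      _ ≤ C5 * γ n := by gcongr
  have hR0 : ∀ k, 0 ≤ 1 - c * (1 - rk k) := fun k => by
    nlinarith [rk_ge k, rk_lt k]
  have hR1 : ∀ k, 1 - c * (1 - rk k) ≤ 1 := fun k => by
    nlinarith [rk_ge k, rk_lt k]
  have hsplit : ∑ k ∈ Finset.range K,
      (γ (sk k) - γ (sk (k + 1))) * (1 - c * (1 - rk k)) ^ (2 * n) =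
      ∑ k ∈ Finset.range j, (γ (sk k) - γ (sk (k + 1))) * (1 - c * (1 - rk k)) ^ (2 * n) +
      ∑ k ∈ Finset.Ico j K, (γ (sk k) - γ (sk (k + 1))) * (1 - c * (1 - rk k)) ^ (2 * n) := by
    rw [Finset.sum_range_add_sum_Ico _ hjK]
  rw [hsplit]
  have hpart2 : ∑ k ∈ Finset.Ico j K,
      (γ (sk k) - γ (sk (k + 1))) * (1 - c * (1 - rk k)) ^ (2 * n) ≤ γ (sk j) := by
    calc _ ≤ ∑ k ∈ Finset.Ico j K, (γ (sk k) - γ (sk (k + 1))) := by
          refine Finset.sum_le_sum fun k _ => ?_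
          have : (1 - c * (1 - rk k)) ^ (2 * n) ≤ 1 := pow_le_one₀ (hR0 k) (hR1 k)
          nlinarith [hμ k]
      _ = γ (sk j) - γ (sk K) := sum_telescope (fun k => γ (sk k)) hjK
      _ ≤ γ (sk j) := by linarith [hpos (sk K)]
  have hpart1 : ∑ k ∈ Finset.range j,
      (γ (sk k) - γ (sk (k + 1))) * (1 - c * (1 - rk k)) ^ (2 * n) ≤ M * γ (sk j) := by
    have hterm : ∀ k ∈ Finset.range j,
        (γ (sk k) - γ (sk (k + 1))) * (1 - c * (1 - rk k)) ^ (2 * n) ≤
          (M * γ (sk j)) * (1 / 2) ^ (j - k) := by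
      intro k hk
      rw [Finset.mem_range] at hk
      obtain ⟨i, hi⟩ : ∃ i, j = k + i := Nat.exists_eq_add_of_le hk.le
      have hi1 : 1 ≤ i := by omega
      have h1 : γ (sk k) - γ (sk (k + 1)) ≤ C5 ^ i * γ (sk j) := by
        have := hiter i k
        rw [← hi] at this
        linarith [hpos (sk (k + 1))]
      -- exponential bound
      have h2 : (1 - c * (1 - rk k)) ^ (2 * n) ≤ Real.exp (-(c / 2 * 2 ^ i)) := by
        have h3 : 1 - c * (1 - rk k) ≤ Real.exp (-(c * (1 / 2) ^ (k + 1))) := by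
          have := Real.add_one_le_exp (-(c * (1 / 2) ^ (k + 1)))
          unfold rk
          linarith
        calc (1 - c * (1 - rk k)) ^ (2 * n) ≤ (Real.exp (-(c * (1 / 2) ^ (k + 1)))) ^ (2 * n) :=
              pow_le_pow_left₀ (hR0 k) h3 _
          _ = Real.exp ((2 * n : ℕ) * (-(c * (1 / 2) ^ (k + 1)))) := by rw [Real.exp_nat_mul]
          _ ≤ Real.exp (-(c / 2 * 2 ^ i)) := by
            apply Real.exp_le_exp.2
            have h4 : (2:ℝ) ^ j ≤ 2 * n := by
              have : 2 ^ j ≤ 2 * n := by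
                have h5 : 2 ^ 1 ≤ 2 ^ j := Nat.pow_le_pow_right (by norm_num) (by omega)
                omega
              exact_mod_cast this
            have h6 : (2:ℝ) ^ i * (1 / 2) = 2 ^ j * (1 / 2) ^ (k + 1) := by
              rw [hi, pow_add, pow_succ (1 / 2 : ℝ) k]
              have : (2:ℝ) ^ k * (1 / 2) ^ k = 1 := by rw [← mul_pow]; norm_num
              linear_combination (-(1/2 : ℝ) * 2 ^ i) * this
            have h7 : c / 2 * 2 ^ i = c * (2 ^ j * (1 / 2) ^ (k + 1)) := by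
              rw [← h6]; ring
            rw [h7]
            push_cast
            have h8 : (2:ℝ) ^ j * (1 / 2) ^ (k + 1) ≤ (2 * n) * (1 / 2) ^ (k + 1) :=
              mul_le_mul_of_nonneg_right h4 (by positivity)
            nlinarith [mul_le_mul_of_nonneg_left h8 hc.le]
      have h3 : Real.exp (-(c / 2 * 2 ^ i)) ≤ M / ((2:ℝ) ^ q) ^ i := by
        have hx : 0 < c / 2 * 2 ^ i := by positivity
        have h4 := Real.pow_div_factorial_le_exp (c / 2 * 2 ^ i) hx.le q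
        rw [Real.exp_neg]
        have h5 : 0 < (c / 2 * 2 ^ i) ^ q / (q.factorial : ℝ) := by positivity
        calc (Real.exp (c / 2 * 2 ^ i))⁻¹ ≤ ((c / 2 * 2 ^ i) ^ q / (q.factorial : ℝ))⁻¹ :=
              inv_anti₀ h5 h4
          _ = M / ((2:ℝ) ^ q) ^ i := by
            rw [hM, mul_pow, ← pow_mul, ← pow_mul, mul_comm i q, div_pow, div_pow]
            field_simp
      have h4 : C5 ^ i * (M / ((2:ℝ) ^ q) ^ i) ≤ M * (1 / 2) ^ i := by
        have h5 : C5 ^ i ≤ ((2:ℝ) ^ q * (1 / 2)) ^ i := by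
          apply pow_le_pow_left₀ (by linarith)
          linarith
        rw [mul_pow] at h5
        have h6 : 0 < ((2:ℝ) ^ q) ^ i := by positivity
        calc C5 ^ i * (M / ((2:ℝ) ^ q) ^ i) ≤ (((2:ℝ) ^ q) ^ i * (1 / 2) ^ i) *
              (M / ((2:ℝ) ^ q) ^ i) := by
              apply mul_le_mul_of_nonneg_right h5 (by positivity)
          _ = M * (1 / 2) ^ i := by field_simp
      have hji : j - k = i := by omega
      rw [hji]
      calc (γ (sk k) - γ (sk (k + 1))) * (1 - c * (1 - rk k)) ^ (2 * n)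
          ≤ (C5 ^ i * γ (sk j)) * (M / ((2:ℝ) ^ q) ^ i) := by
            apply mul_le_mul h1 (h2.trans h3) (pow_nonneg (hR0 k) _)
            have := (hpos (sk j)).le
            positivity
        _ = (C5 ^ i * (M / ((2:ℝ) ^ q) ^ i)) * γ (sk j) := by ring
        _ ≤ (M * (1 / 2) ^ i) * γ (sk j) := mul_le_mul_of_nonneg_right h4 (hpos _).le
        _ = _ := by ring
    calc _ ≤ ∑ k ∈ Finset.range j, (M * γ (sk j)) * (1 / 2) ^ (j - k) := Finset.sum_le_sum hterm
      _ = (M * γ (sk j)) * ∑ k ∈ Finset.range j, ((1:ℝ) / 2) ^ (j - k) := by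
        rw [Finset.mul_sum]
      _ ≤ (M * γ (sk j)) * 1 := by
        apply mul_le_mul_of_nonneg_left (sum_half_pow_le j)
        have := (hpos (sk j)).le
        positivity
      _ = _ := by ring
  have hfin : (M + 1) * γ (sk j) ≤ (M + 1) * (C5 * γ n) :=
    mul_le_mul_of_nonneg_left hγj (by linarith)
  nlinarith

end Pool.Agent.MP51b9c2.PartII
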