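import Pool.Agent.Lib.MP_51b9c2_an.PartII2
import Pool.Agent.Lib.MP_51b9c2_an.PartII3

/-!
# Part II: on slowly oscillating, essentially decreasing weights all self-maps are bounded
-/

namespace Pool.Agent.MP51b9c2

open Filter Metric Topology PartII
open scoped ENNReal NNReal

theorem PartII.bound_decreasing {γ : ℕ → ℝ} (hanti : ∀ m n, m ≤ n → γ n ≤ γ m)
    (hpos : ∀ n, 0 < γ n) {C5 : ℝ} (hC5 : 1 ≤ C5) (hdbl : ∀ n, γ n ≤ C5 * γ (2 * n + 1))
    {φ : ℂ → ℂ} (hφ : DifferentiableOn ℂ φ (ball 0 1)) {c : ℝ} (hc : 0 < c)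
    (hc1 : c ≤ 1 / 4) (hg : ∀ z ∈ ball (0 : ℂ) 1, ‖φ z‖ ≤ 1 - c * (1 - ‖z‖)) :
    ∃ C : ℝ, 0 < C ∧ ∀ (a : ℕ → ℂ) (N : ℕ) (s : Finset ℕ),
      ∑ n ∈ s, ‖coeff (pc a N φ) n‖ ^ 2 * γ n ≤ C * ∑ k ∈ Finset.range N, ‖a k‖ ^ 2 * γ k := by
  obtain ⟨C7, hC7, hup⟩ := weight_upper hanti hpos hC5 hdbl hc hc1
  have hCa := Ca_pos hc hc1
  refine ⟨16 * Ca c * C7, by positivity, fun a N s => ?_⟩
  set b : ℕ → ℝ := fun n => ‖coeff (pc a N φ) n‖ ^ 2 with hb
  have hb0 : ∀ n, 0 ≤ b n := fun n => sq_nonneg _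
  set μ : ℕ → ℝ := fun k => γ (sk k) - γ (sk (k + 1)) with hμ
  have hμ0 : ∀ k, 0 ≤ μ k := fun k => by
    have h1 : sk k ≤ sk (k + 1) := by
      unfold sk
      have : 2 ^ k ≤ 2 ^ (k + 1) := Nat.pow_le_pow_right (by norm_num) (by omega)
      omega
    have := hanti _ _ h1
    simp only [hμ]; linarith
  have hNK : N ≤ sk N := by
    unfold sk
    have : N < 2 ^ N := Nat.lt_two_pow_self
    omega
  calc ∑ n ∈ s, b n * γ n
      ≤ ∑ n ∈ s, b n * (16 * (∑ k ∈ Finset.range N, μ k * rk k ^ (2 * n) + γ (sk N))) := by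
        refine Finset.sum_le_sum fun n _ => ?_
        exact mul_le_mul_of_nonneg_left (weight_lower hanti hpos n N) (hb0 n)
    _ = 16 * (∑ k ∈ Finset.range N, μ k * (∑ n ∈ s, b n * rk k ^ (2 * n))
          + γ (sk N) * ∑ n ∈ s, b n) := by
        have e1 : ∀ n ∈ s, b n * (16 * (∑ k ∈ Finset.range N, μ k * rk k ^ (2 * n) + γ (sk N))) =
            16 * (∑ k ∈ Finset.range N, μ k * (b n * rk k ^ (2 * n)) + γ (sk N) * b n) := by
          intro n _
          rw [mul_left_comm, mul_add, Finset.mul_sum]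
          congr 2
          · exact Finset.sum_congr rfl fun k _ => by ring
          · ring
        rw [Finset.sum_congr rfl e1, ← Finset.mul_sum, Finset.sum_add_distrib, Finset.sum_comm,
          ← Finset.mul_sum]
        congr 2
        exact Finset.sum_congr rfl fun k _ => by rw [Finset.mul_sum]
    _ ≤ 16 * (∑ k ∈ Finset.range N, μ k *
          (Ca c * ∑ i ∈ Finset.range N, ‖a i‖ ^ 2 * (1 - c * (1 - rk k)) ^ (2 * i))
          + γ (sk N) * (Ca c * ∑ i ∈ Finset.range N, ‖a i‖ ^ 2)) := by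
        apply mul_le_mul_of_nonneg_left _ (by norm_num)
        apply add_le_add
        · refine Finset.sum_le_sum fun k _ => ?_
          exact mul_le_mul_of_nonneg_left
            (littlewood_r hφ hc hc1 hg (rk_ge k) (rk_lt k) a N s) (hμ0 k)
        · exact mul_le_mul_of_nonneg_left (littlewood_one hφ hc hc1 hg a N s) (hpos _).le
    _ = 16 * Ca c * ∑ i ∈ Finset.range N, ‖a i‖ ^ 2 *
          (∑ k ∈ Finset.range N, μ k * (1 - c * (1 - rk k)) ^ (2 * i) + γ (sk N)) := by
        have e2 : ∀ i ∈ Finset.range N, ‖a i‖ ^ 2 *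
          (∑ k ∈ Finset.range N, μ k * (1 - c * (1 - rk k)) ^ (2 * i) + γ (sk N)) =
            ∑ k ∈ Finset.range N, μ k * (‖a i‖ ^ 2 * (1 - c * (1 - rk k)) ^ (2 * i))
              + γ (sk N) * ‖a i‖ ^ 2 := by
          intro i _
          rw [mul_add, Finset.mul_sum]
          congr 1
          · exact Finset.sum_congr rfl fun k _ => by ring
          · ring
        rw [Finset.sum_congr rfl e2, Finset.sum_add_distrib, Finset.sum_comm, ← Finset.mul_sum]
        have e3 : ∑ k ∈ Finset.range N, μ k *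
            (Ca c * ∑ i ∈ Finset.range N, ‖a i‖ ^ 2 * (1 - c * (1 - rk k)) ^ (2 * i)) =
            Ca c * ∑ k ∈ Finset.range N, ∑ i ∈ Finset.range N,
              μ k * (‖a i‖ ^ 2 * (1 - c * (1 - rk k)) ^ (2 * i)) := by
          rw [Finset.mul_sum]
          refine Finset.sum_congr rfl fun k _ => ?_
          rw [← Finset.mul_sum]; ring
        rw [e3]; ring
    _ ≤ 16 * Ca c * ∑ i ∈ Finset.range N, ‖a i‖ ^ 2 * (C7 * γ i) := by
        apply mul_le_mul_of_nonneg_left _ (by positivity)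
        refine Finset.sum_le_sum fun i hi => ?_
        rw [Finset.mem_range] at hi
        exact mul_le_mul_of_nonneg_left (hup i N (by omega)) (sq_nonneg _)
    _ = _ := by
        rw [Finset.mul_sum, Finset.mul_sum]
        exact Finset.sum_congr rfl fun k _ => by ring

/-- On a slowly oscillating, essentially decreasing weight every self-map of the disc induces a
bounded composition operator. -/
theorem bdd_of_essDecreasing {β : ℕ → ℝ} (hpos : ∀ n, 0 < β n) (hSO : SlowlyOscillating β)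
    (hED : EssDecreasing β) {φ : ℂ → ℂ} (hφ : DifferentiableOn ℂ φ (ball 0 1))
    (hm : Set.MapsTo φ (ball 0 1) (ball 0 1)) : ∃ K : ℝ≥0, Bdd β φ K := by
  obtain ⟨CE, hCE, hED⟩ := hED
  obtain ⟨c0, C0, hc0, hc01, -, hSO⟩ := hSO
  obtain ⟨c, hc, hc1, hg⟩ := growth_bound hφ hm
  -- the decreasing majorant
  set γ : ℕ → ℝ := fun n => ⨆ m : ℕ, β (n + m) with hγ
  have hbdd : ∀ n, BddAbove (Set.range fun m : ℕ => β (n + m)) := by
    intro n
    refine ⟨CE * β n, ?_⟩
    rintro _ ⟨m, rfl⟩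
    exact hED n (n + m) (by omega)
  have hβγ : ∀ n, β n ≤ γ n := fun n => le_ciSup (hbdd n) 0
  have hγβ : ∀ n, γ n ≤ CE * β n := fun n => ciSup_le fun m => hED n (n + m) (by omega)
  have hγpos : ∀ n, 0 < γ n := fun n => (hpos n).trans_le (hβγ n)
  have hanti : ∀ m n, m ≤ n → γ n ≤ γ m := by
    intro m n hmn
    apply ciSup_le
    intro k
    have := le_ciSup (hbdd m) (n - m + k)
    beta_reduce at this
    rwa [show m + (n - m + k) = n + k by omega] at this
  -- doubling
  set C4 : ℝ := β 0 / β 1 + 1 / c0 ^ 2 with hC4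
  have hC4a : 1 ≤ C4 := by
    rw [hC4]
    have h1 : 0 < β 0 / β 1 := div_pos (hpos 0) (hpos 1)
    have h2 : 1 ≤ 1 / c0 ^ 2 := by
      rw [le_div_iff₀ (by positivity)]; nlinarith
    linarith
  have hdblβ : ∀ n, β n ≤ C4 * β (2 * n + 1) := by
    intro n
    rcases Nat.eq_zero_or_pos n with rfl | hn
    · have h1 : β 0 = β 0 / β 1 * β 1 := by
        rw [div_mul_cancel₀ _ (hpos 1).ne']
      have h2 : 0 < 1 / c0 ^ 2 * β 1 := by have := hpos 1; positivity
      rw [hC4]
      simp only [mul_zero, zero_add]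
      linarith
    · have hn' : (1:ℝ) ≤ n := by exact_mod_cast hn
      have h1 := (hSO n (2 * n) (by push_cast; linarith) (by push_cast; linarith)).1
      have h2 := (hSO (2 * n) (2 * n + 1) (by push_cast; linarith) (by push_cast; linarith)).1
      have h3 : c0 ^ 2 * β n ≤ β (2 * n + 1) := by
        calc c0 ^ 2 * β n = c0 * (c0 * β n) := by ring
          _ ≤ c0 * β (2 * n) := by gcongr
          _ ≤ _ := h2
      have h4 : β n ≤ 1 / c0 ^ 2 * β (2 * n + 1) := by
        rw [one_div, ← div_eq_inv_mul, le_div_iff₀ (by positivity)]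
        linarith
      have h5 : 0 < β 0 / β 1 * β (2 * n + 1) := mul_pos (div_pos (hpos 0) (hpos 1)) (hpos _)
      rw [hC4]; linarith
  have hdbl : ∀ n, γ n ≤ (CE * C4) * γ (2 * n + 1) := by
    intro n
    calc γ n ≤ CE * β n := hγβ n
      _ ≤ CE * (C4 * β (2 * n + 1)) := by gcongr; exact hdblβ n
      _ ≤ CE * (C4 * γ (2 * n + 1)) := by gcongr; exact hβγ _
      _ = _ := by ring
  have hC5 : 1 ≤ CE * C4 := by nlinarith
  obtain ⟨C, hC, hmain⟩ := bound_decreasing hanti hγpos hC5 hdbl hφ hc hc1 hg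
  refine ⟨Real.toNNReal (C * CE), ?_⟩
  apply bdd_of_polynomial hφ hm
  intro p
  have e1 : (fun z => p.eval (φ z)) = pc p.coeff (p.natDegree + 1) φ := by
    funext z
    rw [Polynomial.eval_eq_sum_range]
    rfl
  rw [e1]
  have hright : ENNReal.ofReal (∑ k ∈ Finset.range (p.natDegree + 1), ‖p.coeff k‖ ^ 2 * β k) ≤
      enormSq β (fun z => p.eval z) := by
    unfold enormSq
    rw [coeff_polynomial,
      ENNReal.ofReal_sum_of_nonneg (fun k _ => by have := (hpos k).le; positivity)]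
    exact ENNReal.sum_le_tsum _
  have hleft : enormSq β (pc p.coeff (p.natDegree + 1) φ) ≤
      ENNReal.ofReal (C * CE * ∑ k ∈ Finset.range (p.natDegree + 1), ‖p.coeff k‖ ^ 2 * β k) := by
    unfold enormSq
    rw [ENNReal.tsum_eq_iSup_sum]
    apply iSup_le
    intro s
    rw [← ENNReal.ofReal_sum_of_nonneg (fun k _ => by have := (hpos k).le; positivity)]
    apply ENNReal.ofReal_le_ofReal
    calc ∑ n ∈ s, ‖coeff (pc p.coeff (p.natDegree + 1) φ) n‖ ^ 2 * β n
        ≤ ∑ n ∈ s, ‖coeff (pc p.coeff (p.natDegree + 1) φ) n‖ ^ 2 * γ n := by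
          refine Finset.sum_le_sum fun n _ => ?_
          exact mul_le_mul_of_nonneg_left (hβγ n) (sq_nonneg _)
      _ ≤ C * ∑ k ∈ Finset.range (p.natDegree + 1), ‖p.coeff k‖ ^ 2 * γ k := hmain _ _ _
      _ ≤ C * ∑ k ∈ Finset.range (p.natDegree + 1), ‖p.coeff k‖ ^ 2 * (CE * β k) := by
          apply mul_le_mul_of_nonneg_left _ hC.le
          refine Finset.sum_le_sum fun n _ => ?_
          exact mul_le_mul_of_nonneg_left (hγβ n) (sq_nonneg _)
      _ = _ := by
          rw [mul_assoc, Finset.mul_sum (a := CE)]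
          congr 1
          exact Finset.sum_congr rfl fun k _ => by ring
  refine hleft.trans ?_
  rw [ENNReal.ofReal_mul (by positivity)]
  change ENNReal.ofReal (C * CE) * _ ≤ ENNReal.ofReal (C * CE) * _
  gcongr

end Pool.Agent.MP51b9c2
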