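import Pool.Agent.Lib.MP_51b9c2_an.Basic

/-!
# Part II, step 1: growth of self-maps of the disc, and Littlewood's inequality
-/

namespace Pool.Agent.MP51b9c2.PartII

open Filter Metric Topology
open scoped ComplexConjugate

theorem mobius_identity (a w : ℂ) :
    ‖1 - conj a * w‖ ^ 2 - ‖w - a‖ ^ 2 = (1 - ‖a‖ ^ 2) * (1 - ‖w‖ ^ 2) := by
  simp only [← Complex.normSq_eq_norm_sq, Complex.normSq_apply, Complex.sub_re, Complex.sub_im,
    Complex.mul_re, Complex.mul_im, Complex.conj_re, Complex.conj_im, Complex.one_re,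
    Complex.one_im]
  ring

/-- A self-map of the disc satisfies `1 - |φ(z)| ≥ c (1 - |z|)`. -/
theorem growth_bound {φ : ℂ → ℂ} (hφ : DifferentiableOn ℂ φ (ball 0 1))
    (hm : Set.MapsTo φ (ball 0 1) (ball 0 1)) :
    ∃ c : ℝ, 0 < c ∧ c ≤ 1 / 4 ∧ ∀ z ∈ ball (0 : ℂ) 1, ‖φ z‖ ≤ 1 - c * (1 - ‖z‖) := by
  set a := φ 0 with ha
  have ha1 : ‖a‖ < 1 := by
    have := hm (mem_ball_self (x := (0:ℂ)) one_pos)
    rwa [mem_ball_zero_iff] at this
  refine ⟨(1 - ‖a‖) / 4, by linarith, by linarith [norm_nonneg a], fun z hz => ?_⟩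
  have hden : ∀ w : ℂ, ‖w‖ < 1 → 1 - ‖a‖ ≤ ‖1 - conj a * w‖ := by
    intro w hw
    have h1 : ‖(1:ℂ)‖ - ‖conj a * w‖ ≤ ‖1 - conj a * w‖ := norm_sub_norm_le _ _
    rw [norm_one, norm_mul, RCLike.norm_conj] at h1
    nlinarith [norm_nonneg a, norm_nonneg w]
  have hden0 : ∀ w : ℂ, ‖w‖ < 1 → 1 - conj a * w ≠ 0 := by
    intro w hw h
    have := hden w hw
    rw [h, norm_zero] at this
    linarith
  have hφ1 : ∀ z ∈ ball (0:ℂ) 1, ‖φ z‖ < 1 := fun z hz => by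
    have := hm hz
    rwa [mem_ball_zero_iff] at this
  set ψ : ℂ → ℂ := fun z => (φ z - a) / (1 - conj a * φ z) with hψ
  have hψd : DifferentiableOn ℂ ψ (ball 0 1) := by
    apply DifferentiableOn.div (hφ.sub_const a)
    · exact (hφ.const_mul (conj a)).const_sub 1
    · intro z hz
      exact hden0 _ (hφ1 z hz)
  have hψm : Set.MapsTo ψ (ball 0 1) (ball 0 1) := by
    intro z hz
    rw [mem_ball_zero_iff]
    have h0 := norm_pos_iff.2 (hden0 _ (hφ1 z hz))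
    rw [hψ]
    beta_reduce
    rw [norm_div, div_lt_one h0, ← sq_lt_sq₀ (norm_nonneg _) (norm_nonneg _)]
    have h1 := mobius_identity a (φ z)
    have h2 : 0 < (1 - ‖a‖ ^ 2) * (1 - ‖φ z‖ ^ 2) := by
      have := hφ1 z hz
      apply mul_pos
      · nlinarith [norm_nonneg a]
      · nlinarith [norm_nonneg (φ z)]
    linarith
  have hψ0 : ψ 0 = 0 := by simp [hψ, ha]
  have hz1 : ‖z‖ < 1 := by rwa [mem_ball_zero_iff] at hz
  have hS := Complex.norm_le_norm_of_mapsTo_ball hψd (hψm.mono_right ball_subset_closedBall) hψ0 hz1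
  -- now the estimate
  have hw1 := hφ1 z hz
  have h0 := norm_pos_iff.2 (hden0 _ hw1)
  have h1 := mobius_identity a (φ z)
  have h2 : ‖ψ z‖ * ‖1 - conj a * φ z‖ = ‖φ z - a‖ := by
    rw [hψ]
    beta_reduce
    rw [norm_div, div_mul_cancel₀ _ h0.ne']
  have h3 := hden _ hw1
  set w := φ z with hw
  set d := ‖1 - conj a * w‖ with hd
  have h4 : ‖w - a‖ ^ 2 ≤ ‖z‖ ^ 2 * d ^ 2 := by
    rw [← h2, mul_pow]
    apply mul_le_mul_of_nonneg_right _ (sq_nonneg d)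
    exact pow_le_pow_left₀ (norm_nonneg _) hS 2
  have h5 : (1 - ‖z‖ ^ 2) * d ^ 2 ≤ (1 - ‖a‖ ^ 2) * (1 - ‖w‖ ^ 2) := by
    rw [← h1]; nlinarith
  have h6 : (1 - ‖z‖) * (1 - ‖a‖) ^ 2 ≤ (1 - ‖z‖ ^ 2) * d ^ 2 := by
    have e1 : 1 - ‖z‖ ≤ 1 - ‖z‖ ^ 2 := by nlinarith [norm_nonneg z]
    have e2 : (1 - ‖a‖) ^ 2 ≤ d ^ 2 := pow_le_pow_left₀ (by linarith) h3 2
    exact mul_le_mul e1 e2 (sq_nonneg _) (by nlinarith [norm_nonneg z])
  have h7 : (1 - ‖z‖) * (1 - ‖a‖) ^ 2 ≤ (1 - ‖a‖) * (4 * (1 - ‖w‖)) := by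
    have e1 : (1 - ‖a‖ ^ 2) * (1 - ‖w‖ ^ 2) ≤ (1 - ‖a‖) * (4 * (1 - ‖w‖)) := by
      have : (1 - ‖a‖ ^ 2) * (1 - ‖w‖ ^ 2) =
          (1 - ‖a‖) * ((1 + ‖a‖) * (1 + ‖w‖) * (1 - ‖w‖)) := by ring
      rw [this]
      apply mul_le_mul_of_nonneg_left _ (by linarith)
      apply mul_le_mul_of_nonneg_right _ (by linarith)
      nlinarith [norm_nonneg a, norm_nonneg w]
    linarith
  have h8 : (1 - ‖z‖) * (1 - ‖a‖) ≤ 4 * (1 - ‖w‖) := by
    have : (1 - ‖a‖) * ((1 - ‖z‖) * (1 - ‖a‖)) ≤ (1 - ‖a‖) * (4 * (1 - ‖w‖)) := by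
      calc _ = (1 - ‖z‖) * (1 - ‖a‖) ^ 2 := by ring
        _ ≤ _ := h7
    exact le_of_mul_le_mul_left this (by linarith)
  linarith

/-- Multiplication by a function bounded by one is a contraction for the `H²` norm. -/
theorem mul_contraction {ψ h : ℂ → ℂ} (hψ : DifferentiableOn ℂ ψ (ball 0 1))
    (hψ1 : ∀ z ∈ ball (0 : ℂ) 1, ‖ψ z‖ ≤ 1) (hh : DifferentiableOn ℂ h (ball 0 1))
    (hs : Summable fun n => ‖coeff h n‖ ^ 2) :
    (Summable fun n => ‖coeff (fun z => ψ z * h z) n‖ ^ 2) ∧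
      ∑' n, ‖coeff (fun z => ψ z * h z) n‖ ^ 2 ≤ ∑' n, ‖coeff h n‖ ^ 2 := by
  have key : ∀ s : Finset ℕ, ∑ n ∈ s, ‖coeff (fun z => ψ z * h z) n‖ ^ 2 ≤
      ∑' n, ‖coeff h n‖ ^ 2 := by
    intro s
    have h1 : ∀ r ∈ Set.Ico (0:ℝ) 1,
        ∑ n ∈ s, ‖coeff (fun z => ψ z * h z) n‖ ^ 2 * r ^ (2 * n) ≤ ∑' n, ‖coeff h n‖ ^ 2 := by
      intro r hr
      have hp := hasSum_parseval (hasCoeffs_coeff (hψ.mul hh)) hr.1 hr.2
      have hq := hasSum_parseval (hasCoeffs_coeff hh) hr.1 hr.2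
      have hmem : ∀ z ∈ sphere (0:ℂ) |r|, z ∈ ball (0 : ℂ) 1 := by
        intro z hz
        rw [mem_sphere_zero_iff_norm, abs_of_nonneg hr.1] at hz
        rw [mem_ball_zero_iff, hz]
        exact hr.2
      have hle : Real.circleAverage (fun z => ‖ψ z * h z‖ ^ 2) 0 r ≤
          Real.circleAverage (fun z => ‖h z‖ ^ 2) 0 r := by
        apply Real.circleAverage_mono
        · apply ContinuousOn.circleIntegrable'
          exact ((hψ.mul hh).continuousOn.mono hmem).norm.pow 2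
        · apply ContinuousOn.circleIntegrable'
          exact (hh.continuousOn.mono hmem).norm.pow 2
        · intro z hz
          rw [norm_mul]
          apply pow_le_pow_left₀ (by positivity)
          have := hψ1 z (hmem z hz)
          nlinarith [norm_nonneg (h z)]
      have e1 : ∑ n ∈ s, ‖coeff (fun z => ψ z * h z) n‖ ^ 2 * r ^ (2 * n) ≤
          Real.circleAverage (fun z => ‖ψ z * h z‖ ^ 2) 0 r :=
        sum_le_hasSum s (fun n _ => by have := hr.1; positivity) hp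
      have e2 : Real.circleAverage (fun z => ‖h z‖ ^ 2) 0 r ≤ ∑' n, ‖coeff h n‖ ^ 2 := by
        rw [← hq.tsum_eq]
        apply hq.summable.tsum_le_tsum _ hs
        intro n
        have : r ^ (2 * n) ≤ 1 := pow_le_one₀ hr.1 hr.2.le
        nlinarith [sq_nonneg ‖coeff h n‖]
      exact (e1.trans hle).trans e2
    have h2 : Tendsto (fun r : ℝ => ∑ n ∈ s, ‖coeff (fun z => ψ z * h z) n‖ ^ 2 * r ^ (2 * n))
        (𝓝[<] 1) (𝓝 (∑ n ∈ s, ‖coeff (fun z => ψ z * h z) n‖ ^ 2)) := by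
      have : Continuous fun r : ℝ =>
        ∑ n ∈ s, ‖coeff (fun z => ψ z * h z) n‖ ^ 2 * r ^ (2 * n) := by fun_prop
      have := (this.tendsto 1).mono_left (nhdsWithin_le_nhds (s := Set.Iio 1))
      simpa using this
    refine le_of_tendsto h2 ?_
    have : Set.Ico (0:ℝ) 1 ∈ 𝓝[<] (1:ℝ) := Ico_mem_nhdsLT (by norm_num)
    filter_upwards [this] with r hr using h1 r hr
  refine ⟨summable_of_sum_le (fun n => by positivity) key, ?_⟩
  exact Real.tsum_le_of_sum_le (fun n => by positivity) key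

/-- The polynomial `∑_{k<N} a_k z^k` composed with `ψ`. -/
noncomputable def pc (a : ℕ → ℂ) (N : ℕ) (ψ : ℂ → ℂ) : ℂ → ℂ :=
  fun z => ∑ k ∈ Finset.range N, a k * ψ z ^ k

theorem pc_differentiableOn {a : ℕ → ℂ} {N : ℕ} {ψ : ℂ → ℂ}
    (hψ : DifferentiableOn ℂ ψ (ball 0 1)) : DifferentiableOn ℂ (pc a N ψ) (ball 0 1) := by
  unfold pc
  apply DifferentiableOn.fun_sum
  intro k _
  exact (hψ.pow k).const_mul (a k)

theorem pc_succ (a : ℕ → ℂ) (N : ℕ) (ψ : ℂ → ℂ) :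
    pc a (N + 1) ψ = fun z => a 0 + ψ z * pc (fun k => a (k + 1)) N ψ z := by
  funext z
  simp only [pc]
  rw [Finset.sum_range_succ', Finset.mul_sum, pow_zero, mul_one, add_comm]
  congr 1
  refine Finset.sum_congr rfl fun k _ => by ring

theorem norm_pc_zero_le (a : ℕ → ℂ) (N : ℕ) (ψ : ℂ → ℂ) (z : ℂ) :
    ‖pc a N ψ z‖ ≤ ∑ k ∈ Finset.range N, ‖a k‖ * ‖ψ z‖ ^ k := by
  unfold pc
  refine (norm_sum_le _ _).trans (Finset.sum_le_sum fun k _ => ?_)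
  rw [norm_mul, norm_pow]

theorem coeff_const_add {g : ℂ → ℂ} (hg : DifferentiableOn ℂ g (ball 0 1)) (c : ℂ) (n : ℕ) :
    coeff (fun z => c + g z) n = if n = 0 then c + g 0 else coeff g n := by
  have h1 : HasCoeffs (fun _ => c) (Polynomial.C c).coeff := by
    have := hasCoeffs_polynomial (Polynomial.C c)
    simpa using this
  rw [(h1.add (hasCoeffs_coeff hg)).coeff_eq]
  beta_reduce
  rw [Polynomial.coeff_C]
  split_ifs with h
  · subst h; rw [coeff_zero]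
  · rw [zero_add]

/-- **Littlewood's inequality** for polynomials, with the value at the origin taken into account. -/
theorem littlewood {ψ : ℂ → ℂ} (hψ : DifferentiableOn ℂ ψ (ball 0 1))
    (hψ1 : ∀ z ∈ ball (0 : ℂ) 1, ‖ψ z‖ ≤ 1) {α : ℝ} (hα0 : ‖ψ 0‖ ≤ α) (hα1 : α < 1) (N : ℕ) :
    ∀ a : ℕ → ℂ, (Summable fun n => ‖coeff (pc a N ψ) n‖ ^ 2) ∧
      ∑' n, ‖coeff (pc a N ψ) n‖ ^ 2 + (∑ k ∈ Finset.range N, ‖a k‖ * α ^ k) ^ 2 ≤
        4 / (1 - α ^ 2) * ∑ k ∈ Finset.range N, ‖a k‖ ^ 2 := by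
  have hα : 0 ≤ α := (norm_nonneg _).trans hα0
  have hα2 : 0 < 1 - α ^ 2 := by nlinarith
  induction N with
  | zero =>
    intro a
    have h0 : ∀ n, coeff (pc a 0 ψ) n = 0 := by
      intro n
      have : pc a 0 ψ = fun _ => 0 := by funext z; simp [pc]
      rw [this]
      simp [coeff]
    simp [h0]
  | succ N ih =>
    intro a
    set a' : ℕ → ℂ := fun k => a (k + 1) with ha'
    obtain ⟨hs, hle⟩ := ih a'
    set g := pc a' N ψ with hg
    have hgd : DifferentiableOn ℂ g (ball 0 1) := pc_differentiableOn hψ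
    obtain ⟨ms, mle⟩ := mul_contraction hψ hψ1 hgd hs
    set G : ℂ → ℂ := fun z => ψ z * g z with hG
    have hGd : DifferentiableOn ℂ G (ball 0 1) := hψ.mul hgd
    have hcoef : ∀ n, coeff (pc a (N + 1) ψ) n = if n = 0 then a 0 + G 0 else coeff G n := by
      intro n
      rw [pc_succ]
      exact coeff_const_add hGd (a 0) n
    have hG0 : coeff G 0 = G 0 := coeff_zero G
    have hsum1 : Summable fun n => ‖coeff (pc a (N + 1) ψ) n‖ ^ 2 := by
      rw [← summable_nat_add_iff 1]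
      have := (summable_nat_add_iff 1).2 ms
      refine this.congr fun n => ?_
      rw [hcoef]; simp
    refine ⟨hsum1, ?_⟩
    have e1 : ∑' n, ‖coeff (pc a (N + 1) ψ) n‖ ^ 2 =
        ‖a 0 + G 0‖ ^ 2 + ∑' n, ‖coeff G (n + 1)‖ ^ 2 := by
      rw [hsum1.tsum_eq_zero_add, hcoef]
      simp only [if_true]
      congr 1
      refine tsum_congr fun n => ?_
      rw [hcoef]; simp
    have e2 : ∑' n, ‖coeff G n‖ ^ 2 = ‖G 0‖ ^ 2 + ∑' n, ‖coeff G (n + 1)‖ ^ 2 := by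
      rw [ms.tsum_eq_zero_add, hG0]
    set x : ℝ := ∑ k ∈ Finset.range N, ‖a' k‖ * α ^ k with hx
    have hx0 : 0 ≤ x := Finset.sum_nonneg fun k _ => by positivity
    have hGx : ‖G 0‖ ≤ α * x := by
      rw [hG]
      beta_reduce
      rw [norm_mul]
      apply mul_le_mul hα0 _ (norm_nonneg _) hα
      refine (norm_pc_zero_le a' N ψ 0).trans (Finset.sum_le_sum fun k _ => ?_)
      gcongr
    have e3 : ∑ k ∈ Finset.range (N + 1), ‖a k‖ * α ^ k = ‖a 0‖ + α * x := by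
      rw [Finset.sum_range_succ', pow_zero, mul_one, add_comm, hx, Finset.mul_sum]
      congr 1
      refine Finset.sum_congr rfl fun k _ => by rw [pow_succ]; ring
    have e4 : ∑ k ∈ Finset.range (N + 1), ‖a k‖ ^ 2 =
        ‖a 0‖ ^ 2 + ∑ k ∈ Finset.range N, ‖a' k‖ ^ 2 := by
      rw [Finset.sum_range_succ', add_comm]
    rw [e1, e3, e4]
    have e5 : ‖a 0 + G 0‖ ^ 2 ≤ ‖a 0‖ ^ 2 + 2 * ‖a 0‖ * ‖G 0‖ + ‖G 0‖ ^ 2 := by
      have := norm_add_le (a 0) (G 0)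
      nlinarith [norm_nonneg (a 0 + G 0), norm_nonneg (a 0), norm_nonneg (G 0)]
    have e6 : 2 * ‖a 0‖ * ‖G 0‖ ≤ 2 * ‖a 0‖ * (α * x) := by
      apply mul_le_mul_of_nonneg_left hGx (by positivity)
    -- final algebra
    set C := 4 / (1 - α ^ 2) with hC
    have hquad : 2 * ‖a 0‖ ^ 2 + 4 * ‖a 0‖ * (α * x) + α ^ 2 * x ^ 2 - x ^ 2 ≤ C * ‖a 0‖ ^ 2 := by
      rw [hC, div_mul_eq_mul_div, le_div_iff₀ hα2]
      nlinarith [sq_nonneg ((1 - α ^ 2) * x - 2 * α * ‖a 0‖), sq_nonneg (‖a 0‖),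
        mul_nonneg hα2.le (sq_nonneg ‖a 0‖), sq_nonneg α]
    nlinarith

end Pool.Agent.MP51b9c2.PartII
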