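import Pool.Agent.Lib.MP_51b9c2_an.PartII1

/-!
# Part II, step 2: Littlewood's inequality on circles of radius `r < 1`
-/

namespace Pool.Agent.MP51b9c2.PartII

open Filter Metric Topology

/-- The constant in Littlewood's inequality for a self-map with growth constant `c`. -/
noncomputable def Ca (c : ℝ) : ℝ := 4 / (1 - ((1 - c) / (1 - c / 2)) ^ 2)

theorem alpha_lt_one {c : ℝ} (hc : 0 < c) (hc1 : c ≤ 1 / 4) :
    0 ≤ (1 - c) / (1 - c / 2) ∧ (1 - c) / (1 - c / 2) < 1 := by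
  constructor
  · apply div_nonneg <;> linarith
  · rw [div_lt_one (by linarith)]; linarith

theorem Ca_pos {c : ℝ} (hc : 0 < c) (hc1 : c ≤ 1 / 4) : 0 < Ca c := by
  obtain ⟨h0, h1⟩ := alpha_lt_one hc hc1
  unfold Ca
  apply div_pos (by norm_num)
  nlinarith

theorem littlewood_one {φ : ℂ → ℂ} (hφ : DifferentiableOn ℂ φ (ball 0 1)) {c : ℝ} (hc : 0 < c)
    (hc1 : c ≤ 1 / 4) (hg : ∀ z ∈ ball (0 : ℂ) 1, ‖φ z‖ ≤ 1 - c * (1 - ‖z‖))
    (a : ℕ → ℂ) (N : ℕ) (s : Finset ℕ) :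
    ∑ n ∈ s, ‖coeff (pc a N φ) n‖ ^ 2 ≤ Ca c * ∑ k ∈ Finset.range N, ‖a k‖ ^ 2 := by
  obtain ⟨h0, h1⟩ := alpha_lt_one hc hc1
  have hα : ‖φ 0‖ ≤ (1 - c) / (1 - c / 2) := by
    have h2 := hg 0 (mem_ball_self one_pos)
    rw [norm_zero] at h2
    have h3 : 1 - c ≤ (1 - c) / (1 - c / 2) := by
      rw [le_div_iff₀ (by linarith)]; nlinarith
    linarith
  have hφ1 : ∀ z ∈ ball (0 : ℂ) 1, ‖φ z‖ ≤ 1 := by
    intro z hz
    have h2 := hg z hz
    rw [mem_ball_zero_iff] at hz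
    nlinarith
  obtain ⟨hs, hle⟩ := littlewood hφ hφ1 hα h1 N a
  have := hs.sum_le_tsum s (fun n _ => by positivity)
  unfold Ca
  nlinarith [sq_nonneg (∑ k ∈ Finset.range N, ‖a k‖ * ((1 - c) / (1 - c / 2)) ^ k)]

theorem littlewood_r {φ : ℂ → ℂ} (hφ : DifferentiableOn ℂ φ (ball 0 1)) {c : ℝ} (hc : 0 < c)
    (hc1 : c ≤ 1 / 4) (hg : ∀ z ∈ ball (0 : ℂ) 1, ‖φ z‖ ≤ 1 - c * (1 - ‖z‖))
    {r : ℝ} (hr : 1 / 2 ≤ r) (hr1 : r < 1)
    (a : ℕ → ℂ) (N : ℕ) (s : Finset ℕ) :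
    ∑ n ∈ s, ‖coeff (pc a N φ) n‖ ^ 2 * r ^ (2 * n) ≤
      Ca c * ∑ k ∈ Finset.range N, ‖a k‖ ^ 2 * (1 - c * (1 - r)) ^ (2 * k) := by
  obtain ⟨h0, h1⟩ := alpha_lt_one hc hc1
  set R : ℝ := 1 - c * (1 - r) with hR
  have hR0 : 0 < R := by rw [hR]; nlinarith
  have hR1 : 1 - c / 2 ≤ R := by rw [hR]; nlinarith
  have hRc : (R : ℂ) ≠ 0 := by exact_mod_cast hR0.ne'
  have hr0 : 0 ≤ r := by linarith
  set ψ : ℂ → ℂ := fun z => φ (r * z) / R with hψ
  have hmaps : Set.MapsTo (fun z : ℂ => (r : ℂ) * z) (ball 0 1) (ball 0 1) := by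
    intro z hz
    rw [mem_ball_zero_iff] at hz ⊢
    rw [norm_mul, Complex.norm_real, Real.norm_of_nonneg hr0]
    nlinarith [norm_nonneg z]
  have hψd : DifferentiableOn ℂ ψ (ball 0 1) := by
    apply DifferentiableOn.div_const
    apply hφ.comp _ hmaps
    exact (differentiable_id.const_mul (r : ℂ)).differentiableOn
  have hψ1 : ∀ z ∈ ball (0 : ℂ) 1, ‖ψ z‖ ≤ 1 := by
    intro z hz
    have h2 := hg _ (hmaps hz)
    rw [norm_mul, Complex.norm_real, Real.norm_of_nonneg hr0] at h2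
    rw [hψ]
    beta_reduce
    rw [norm_div, Complex.norm_real, Real.norm_of_nonneg hR0.le, div_le_one hR0]
    rw [mem_ball_zero_iff] at hz
    have h3 : r * ‖z‖ ≤ r := by nlinarith
    have h4 : c * (1 - r) ≤ c * (1 - r * ‖z‖) := mul_le_mul_of_nonneg_left (by linarith) hc.le
    linarith
  have hα : ‖ψ 0‖ ≤ (1 - c) / (1 - c / 2) := by
    have h2 := hg 0 (mem_ball_self one_pos)
    rw [norm_zero] at h2
    rw [hψ]
    beta_reduce
    rw [mul_zero, norm_div, Complex.norm_real, Real.norm_of_nonneg hR0.le]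
    apply div_le_div₀ (by linarith) (by linarith) (by linarith) hR1
  obtain ⟨hs, hle⟩ := littlewood hψd hψ1 hα h1 N (fun k => a k * (R : ℂ) ^ k)
  -- identify the coefficients
  have hcoef : ∀ n, coeff (pc (fun k => a k * (R : ℂ) ^ k) N ψ) n =
      coeff (pc a N φ) n * (r : ℂ) ^ n := by
    intro n
    have e1 : pc (fun k => a k * (R : ℂ) ^ k) N ψ = fun z => pc a N φ (r * z) := by
      funext z
      simp only [pc, hψ]
      refine Finset.sum_congr rfl fun k _ => ?_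
      rw [div_pow, mul_assoc, mul_div_cancel₀ _ (pow_ne_zero k hRc)]
    have e2 : HasCoeffs (fun z => pc a N φ (r * z)) (fun n => coeff (pc a N φ) n * (r : ℂ) ^ n) := by
      intro z hz
      have := hasSum_coeff (pc_differentiableOn (a := a) (N := N) hφ) (hmaps hz)
      refine this.congr_fun ?_
      intro n
      simp only [mul_pow]
      ring
    rw [e1, e2.coeff_eq]
  have hnorm : ∀ n, ‖coeff (pc (fun k => a k * (R : ℂ) ^ k) N ψ) n‖ ^ 2 =
      ‖coeff (pc a N φ) n‖ ^ 2 * r ^ (2 * n) := by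
    intro n
    rw [hcoef, norm_mul, norm_pow, Complex.norm_real, Real.norm_of_nonneg hr0, mul_pow,
      ← pow_mul, mul_comm n 2]
  have hnorm2 : ∀ k, ‖a k * (R : ℂ) ^ k‖ ^ 2 = ‖a k‖ ^ 2 * R ^ (2 * k) := by
    intro k
    rw [norm_mul, norm_pow, Complex.norm_real, Real.norm_of_nonneg hR0.le, mul_pow, ← pow_mul,
      mul_comm k 2]
  have h5 := hs.sum_le_tsum s (fun n _ => by positivity)
  simp only [hnorm] at h5 hle
  simp only [hnorm2] at hle
  unfold Ca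
  nlinarith [sq_nonneg (∑ k ∈ Finset.range N, ‖a k * (R : ℂ) ^ k‖ * ((1 - c) / (1 - c / 2)) ^ k)]

end Pool.Agent.MP51b9c2.PartII
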