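import Pool.Agent.Lib.MP_51b9c2_an.Basic

/-!
# Sufficiency of `∑ n² / β_n < ∞`
-/

namespace Pool.Agent.MP51b9c2

open Filter Metric Topology
open scoped ENNReal NNReal Real

theorem SlowlyOscillating.const' {β : ℕ → ℝ} (h : SlowlyOscillating β) :
    ∃ C : ℝ, 1 < C ∧ ∀ n m : ℕ, n ≤ 2 * m → m ≤ 2 * n → β m ≤ C * β n := by
  obtain ⟨c, C, _, _, hC, hmain⟩ := h
  refine ⟨C, hC, fun n m h1 h2 => (hmain n m ?_ ?_).2⟩
  · have : (n : ℝ) ≤ 2 * m := by exact_mod_cast h1
    linarith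
  · exact_mod_cast h2

theorem slowlyOscillating_of_const {β : ℕ → ℝ} {C : ℝ} (hC : 1 < C)
    (h : ∀ n m : ℕ, n ≤ 2 * m → m ≤ 2 * n → β m ≤ C * β n) : SlowlyOscillating β := by
  refine ⟨C⁻¹, C, by positivity, inv_lt_one_of_one_lt₀ hC, hC, fun n m h1 h2 => ?_⟩
  have h1' : n ≤ 2 * m := by
    have : (n : ℝ) ≤ 2 * m := by linarith
    exact_mod_cast this
  have h2' : m ≤ 2 * n := by exact_mod_cast h2
  refine ⟨?_, h n m h1' h2'⟩
  rw [inv_mul_le_iff₀ (by linarith)]
  exact h m n h2' h1'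

/-- The auxiliary weights `β_n / (n+1)^{2j}`. -/
noncomputable def gam (β : ℕ → ℝ) (j : ℕ) : ℕ → ℝ := fun n => β n / ((n : ℝ) + 1) ^ (2 * j)

theorem gam_zero (β : ℕ → ℝ) : gam β 0 = β := by
  funext n
  simp [gam]

theorem gam_pos {β : ℕ → ℝ} (hβ : ∀ n, 0 < β n) (j n : ℕ) : 0 < gam β j n := by
  have := hβ n
  rw [gam]
  positivity

theorem gam_so {β : ℕ → ℝ} (hβ : ∀ n, 0 < β n) {Cs : ℝ} (hCs : 1 < Cs)
    (hso : ∀ n m : ℕ, n ≤ 2 * m → m ≤ 2 * n → β m ≤ Cs * β n) (j : ℕ) :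
    ∀ n m : ℕ, n ≤ 2 * m → m ≤ 2 * n → gam β j m ≤ (Cs * 4 ^ j) * gam β j n := by
  intro n m h1 h2
  rw [gam, gam]
  have h3 := hso n m h1 h2
  have hn : (n : ℝ) + 1 ≤ 2 * (m + 1) := by
    have : (n : ℝ) ≤ 2 * m := by exact_mod_cast h1
    linarith
  have h4 : ((n : ℝ) + 1) ^ (2 * j) ≤ 4 ^ j * ((m : ℝ) + 1) ^ (2 * j) := by
    calc ((n : ℝ) + 1) ^ (2 * j) ≤ (2 * ((m : ℝ) + 1)) ^ (2 * j) := by gcongr
      _ = 4 ^ j * ((m : ℝ) + 1) ^ (2 * j) := by
        rw [mul_pow, pow_mul (2:ℝ)]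
        norm_num
  rw [div_le_iff₀ (by positivity)]
  have hn0 := hβ n
  calc β m ≤ Cs * β n := h3
    _ = Cs * (β n / ((n : ℝ) + 1) ^ (2 * j)) * ((n : ℝ) + 1) ^ (2 * j) := by field_simp
    _ ≤ Cs * (β n / ((n : ℝ) + 1) ^ (2 * j)) * (4 ^ j * ((m : ℝ) + 1) ^ (2 * j)) := by gcongr
    _ = _ := by ring

theorem gam_slowlyOscillating {β : ℕ → ℝ} (hβ : ∀ n, 0 < β n) (hSO : SlowlyOscillating β)
    (j : ℕ) : SlowlyOscillating (gam β j) := by
  obtain ⟨Cs, hCs, hso⟩ := hSO.const'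
  apply slowlyOscillating_of_const _ (gam_so hβ hCs hso j)
  have : (1 : ℝ) ≤ 4 ^ j := one_le_pow₀ (by norm_num)
  nlinarith

/-- For large `j` the weight `β_n / (n+1)^{2j}` is essentially decreasing. -/
theorem gam_essDecreasing {β : ℕ → ℝ} (hβ : ∀ n, 0 < β n) (hSO : SlowlyOscillating β) :
    ∃ J, ∀ j ≥ J, EssDecreasing (gam β j) := by
  obtain ⟨Cs, hCs, hso⟩ := hSO.const'
  obtain ⟨J, hJ⟩ : ∃ J : ℕ, Cs * (9 / 16 : ℝ) ^ J ≤ 1 := by
    have h1 : Tendsto (fun J : ℕ => Cs * (9 / 16 : ℝ) ^ J) atTop (𝓝 (Cs * 0)) :=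
      (tendsto_pow_atTop_nhds_zero_of_lt_one (by norm_num) (by norm_num)).const_mul Cs
    rw [mul_zero] at h1
    exact (h1.eventually_le_const one_pos).exists
  refine ⟨J, fun j hj => ?_⟩
  have hj' : Cs * (9 / 16 : ℝ) ^ j ≤ 1 := by
    refine le_trans ?_ hJ
    exact mul_le_mul_of_nonneg_left (pow_le_pow_of_le_one (by norm_num) (by norm_num) hj)
      (by linarith)
  set A : ℝ := Cs * 4 ^ j with hA
  have hA1 : 1 < A := by
    have : (1 : ℝ) ≤ 4 ^ j := one_le_pow₀ (by norm_num)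
    nlinarith
  have hAso := gam_so hβ hCs hso j
  -- the case `n ≥ 1`
  have key : ∀ m n : ℕ, 1 ≤ n → n ≤ m → gam β j m ≤ A * gam β j n := by
    intro m
    induction m using Nat.strong_induction_on with
    | _ m ih =>
      intro n hn hnm
      by_cases h2 : m ≤ 2 * n
      · exact hAso n m (by omega) h2
      · have hm3 : 3 ≤ m := by omega
        set m' := (m + 1) / 2 with hm'
        have h3 := ih m' (by omega) n hn (by omega)
        refine le_trans ?_ h3
        rw [gam, gam]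
        have h4 : β m ≤ Cs * β m' := hso m' m (by omega) (by omega)
        have h5 : 4 * ((m' : ℝ) + 1) ≤ 3 * ((m : ℝ) + 1) := by
          have : 4 * (m' + 1) ≤ 3 * (m + 1) := by omega
          exact_mod_cast this
        have h6 : ((m' : ℝ) + 1) ^ (2 * j) ≤ (9 / 16) ^ j * ((m : ℝ) + 1) ^ (2 * j) := by
          calc ((m' : ℝ) + 1) ^ (2 * j) ≤ (3 / 4 * ((m : ℝ) + 1)) ^ (2 * j) := by
                gcongr
                linarith
            _ = (9 / 16) ^ j * ((m : ℝ) + 1) ^ (2 * j) := by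
                rw [mul_pow, pow_mul (3 / 4 : ℝ)]
                norm_num
        rw [div_le_iff₀ (by positivity)]
        have hm0 := hβ m'
        calc β m ≤ Cs * β m' := h4
          _ = Cs * (β m' / ((m' : ℝ) + 1) ^ (2 * j)) * ((m' : ℝ) + 1) ^ (2 * j) := by field_simp
          _ ≤ Cs * (β m' / ((m' : ℝ) + 1) ^ (2 * j)) *
              ((9 / 16) ^ j * ((m : ℝ) + 1) ^ (2 * j)) := by gcongr
          _ = (Cs * (9 / 16) ^ j) * (β m' / ((m' : ℝ) + 1) ^ (2 * j)) *
              ((m : ℝ) + 1) ^ (2 * j) := by ring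
          _ ≤ 1 * (β m' / ((m' : ℝ) + 1) ^ (2 * j)) * ((m : ℝ) + 1) ^ (2 * j) := by gcongr
          _ = _ := by ring
  have hg0 := gam_pos hβ j 0
  have hg1 := gam_pos hβ j 1
  refine ⟨1 + A + A * gam β j 1 / gam β j 0, ?_, fun n m hnm => ?_⟩
  · have : 0 < A * gam β j 1 / gam β j 0 := by positivity
    linarith
  · have hpos : 0 < A * gam β j 1 / gam β j 0 := by positivity
    rcases Nat.eq_zero_or_pos n with rfl | hn
    · rcases Nat.eq_zero_or_pos m with rfl | hm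
      · nlinarith
      · have h1 := key m 1 le_rfl hm
        have h2 : A * gam β j 1 / gam β j 0 * gam β j 0 = A * gam β j 1 := by field_simp
        nlinarith
    · have h1 := key m n hn hnm
      have := gam_pos hβ j n
      nlinarith


open Finset.HasAntidiagonal in
/-- The convolution estimate behind the multiplier theorem. -/
theorem conv_bound {β : ℕ → ℝ} (hβ : ∀ n, 0 < β n) {Cs : ℝ} (hCs : 1 < Cs)
    (hso : ∀ n m : ℕ, n ≤ 2 * m → m ≤ 2 * n → β m ≤ Cs * β n) {S : ℝ}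
    (hS : HasSum (fun n : ℕ => ((n : ℝ) + 1) ^ 2 / β n) S) {j : ℕ} (hj : 1 ≤ j) (N : ℕ) :
    ∑ p ∈ antidiagonal N, gam β j N / (gam β 1 p.1 * gam β j p.2) ≤
      (Cs * 4 ^ j + Cs) * S := by
  have hg := gam_so hβ hCs hso j
  have hterm : ∀ p ∈ antidiagonal N, gam β j N / (gam β 1 p.1 * gam β j p.2) ≤
      Cs * 4 ^ j * (((p.1 : ℝ) + 1) ^ 2 / β p.1) + Cs * (((p.2 : ℝ) + 1) ^ 2 / β p.2) := by
    rintro ⟨a, b⟩ hp
    rw [mem_antidiagonal] at hp
    dsimp only at hp ⊢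
    have hβa := hβ a
    have hβb := hβ b
    have hβN := hβ N
    have hga := gam_pos hβ 1 a
    have hgb := gam_pos hβ j b
    by_cases hab : 2 * a ≤ N
    · have h1 : gam β j N ≤ Cs * 4 ^ j * gam β j b := hg b N (by omega) (by omega)
      have h2 : gam β j N / (gam β 1 a * gam β j b) ≤
          Cs * 4 ^ j * (((a : ℝ) + 1) ^ 2 / β a) := by
        rw [div_le_iff₀ (by positivity)]
        calc gam β j N ≤ Cs * 4 ^ j * gam β j b := h1
          _ = Cs * 4 ^ j * (((a : ℝ) + 1) ^ 2 / β a) * (gam β 1 a * gam β j b) := by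
            rw [gam]
            rw [gam]
            field_simp
      have h3 : 0 ≤ Cs * (((b : ℝ) + 1) ^ 2 / β b) := by positivity
      linarith
    · have h1 : β N ≤ Cs * β a := hso a N (by omega) (by omega)
      have h2 : gam β j N / (gam β 1 a * gam β j b) ≤ Cs * (((b : ℝ) + 1) ^ 2 / β b) := by
        rw [div_le_iff₀ (by positivity)]
        rw [gam, gam, gam]
        obtain ⟨i, rfl⟩ := Nat.exists_eq_add_of_le' hj
        have ha : (a : ℝ) + 1 ≤ N + 1 := by
          have : (a : ℝ) ≤ N := by exact_mod_cast (by omega : a ≤ N)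
          linarith
        have hb : (b : ℝ) + 1 ≤ N + 1 := by
          have : (b : ℝ) ≤ N := by exact_mod_cast (by omega : b ≤ N)
          linarith
        rw [div_le_iff₀ (by positivity)]
        have e : Cs * (((b : ℝ) + 1) ^ 2 / β b) * (β a / ((a : ℝ) + 1) ^ (2 * 1) *
            (β b / ((b : ℝ) + 1) ^ (2 * (i + 1)))) * ((N : ℝ) + 1) ^ (2 * (i + 1)) =
            Cs * β a * (((N : ℝ) + 1) ^ (2 * (i + 1)) /
              (((a : ℝ) + 1) ^ 2 * ((b : ℝ) + 1) ^ (2 * i))) := by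
          field_simp
          ring
        rw [e]
        have h5 : (1 : ℝ) ≤ ((N : ℝ) + 1) ^ (2 * (i + 1)) /
              (((a : ℝ) + 1) ^ 2 * ((b : ℝ) + 1) ^ (2 * i)) := by
          rw [one_le_div (by positivity)]
          calc ((a : ℝ) + 1) ^ 2 * ((b : ℝ) + 1) ^ (2 * i) ≤
              ((N : ℝ) + 1) ^ 2 * ((N : ℝ) + 1) ^ (2 * i) := by gcongr
            _ = ((N : ℝ) + 1) ^ (2 * (i + 1)) := by ring
        have h6 : 0 ≤ Cs * β a := by positivity
        nlinarith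
      have h3 : 0 ≤ Cs * 4 ^ j * (((a : ℝ) + 1) ^ 2 / β a) := by positivity
      linarith
  refine (Finset.sum_le_sum hterm).trans ?_
  rw [Finset.sum_add_distrib, ← Finset.mul_sum, ← Finset.mul_sum]
  have hnn : ∀ n : ℕ, 0 ≤ ((n : ℝ) + 1) ^ 2 / β n := fun n => div_nonneg (by positivity) (hβ n).le
  have s1 : ∑ p ∈ antidiagonal N, ((p.1 : ℝ) + 1) ^ 2 / β p.1 ≤ S := by
    rw [Finset.Nat.sum_antidiagonal_eq_sum_range_succ_mk]
    exact sum_le_hasSum _ (fun n _ => hnn n) hS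
  have s2 : ∑ p ∈ antidiagonal N, ((p.2 : ℝ) + 1) ^ 2 / β p.2 ≤ S := by
    rw [← Finset.Nat.sum_antidiagonal_swap]
    simpa using s1
  have hS0 : 0 ≤ S := hS.nonneg hnn
  have : 0 ≤ Cs * 4 ^ j := by positivity
  nlinarith [mul_le_mul_of_nonneg_left s1 this, mul_le_mul_of_nonneg_left s2 (by linarith : 0 ≤ Cs)]

theorem ENNReal.tsum_antidiagonal (F : ℕ × ℕ → ℝ≥0∞) :
    ∑' N, ∑ p ∈ Finset.HasAntidiagonal.antidiagonal N, F p = ∑' p, F p := by
  rw [← Finset.HasAntidiagonal.sigmaAntidiagonalEquivProd.tsum_eq F, ENNReal.tsum_sigma']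
  apply tsum_congr
  intro N
  rw [tsum_fintype]
  simp only [Finset.HasAntidiagonal.sigmaAntidiagonalEquivProd_apply]
  exact (Finset.sum_coe_sort _ _).symm

open Finset.HasAntidiagonal in
theorem enormSq_mul_le {β : ℕ → ℝ} (hβ : ∀ n, 0 < β n) {Cs : ℝ} (hCs : 1 < Cs)
    (hso : ∀ n m : ℕ, n ≤ 2 * m → m ≤ 2 * n → β m ≤ Cs * β n) {S : ℝ}
    (hS : HasSum (fun n : ℕ => ((n : ℝ) + 1) ^ 2 / β n) S) {j : ℕ} (hj : 1 ≤ j)
    {u v : ℂ → ℂ} (hu : DifferentiableOn ℂ u (ball 0 1)) (hv : DifferentiableOn ℂ v (ball 0 1)) :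
    enormSq (gam β j) (fun z => u z * v z) ≤
      ENNReal.ofReal ((Cs * 4 ^ j + Cs) * S) * (enormSq (gam β 1) u * enormSq (gam β j) v) := by
  have hterm : ∀ N, ENNReal.ofReal (‖coeff (fun z => u z * v z) N‖ ^ 2 * gam β j N) ≤
      ENNReal.ofReal ((Cs * 4 ^ j + Cs) * S) * ∑ p ∈ antidiagonal N,
        (ENNReal.ofReal (‖coeff u p.1‖ ^ 2 * gam β 1 p.1) *
          ENNReal.ofReal (‖coeff v p.2‖ ^ 2 * gam β j p.2)) := by
    intro N
    have hfg : ∀ p : ℕ × ℕ, ENNReal.ofReal (‖coeff u p.1‖ ^ 2 * gam β 1 p.1) *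
          ENNReal.ofReal (‖coeff v p.2‖ ^ 2 * gam β j p.2) =
          ENNReal.ofReal ((‖coeff u p.1‖ ^ 2 * gam β 1 p.1) *
            (‖coeff v p.2‖ ^ 2 * gam β j p.2)) := by
      intro p
      rw [ENNReal.ofReal_mul (mul_nonneg (sq_nonneg _) (gam_pos hβ 1 _).le)]
    simp_rw [hfg]
    rw [← ENNReal.ofReal_sum_of_nonneg, ← ENNReal.ofReal_mul']
    · apply ENNReal.ofReal_le_ofReal
      rw [coeff_mul hu hv]
      have h1 : ‖∑ p ∈ antidiagonal N, coeff u p.1 * coeff v p.2‖ ≤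
          ∑ p ∈ antidiagonal N, ‖coeff u p.1‖ * ‖coeff v p.2‖ := by
        refine (norm_sum_le _ _).trans (Finset.sum_le_sum fun p _ => ?_)
        rw [norm_mul]
      have h2 : (∑ p ∈ antidiagonal N, ‖coeff u p.1‖ * ‖coeff v p.2‖) ^ 2 ≤
          (∑ p ∈ antidiagonal N, (‖coeff u p.1‖ ^ 2 * gam β 1 p.1) *
            (‖coeff v p.2‖ ^ 2 * gam β j p.2)) *
          ∑ p ∈ antidiagonal N, 1 / (gam β 1 p.1 * gam β j p.2) := by
        apply Finset.sum_sq_le_sum_mul_sum_of_sq_le_mul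
        · intro p _
          have := gam_pos hβ 1 p.1
          have := gam_pos hβ j p.2
          positivity
        · intro p _
          have := gam_pos hβ 1 p.1
          have := gam_pos hβ j p.2
          positivity
        · intro p _
          have := gam_pos hβ 1 p.1
          have := gam_pos hβ j p.2
          apply le_of_eq
          field_simp
      have h3 := conv_bound hβ hCs hso hS hj N
      have hgN := gam_pos hβ j N
      have h4 : 0 ≤ ∑ p ∈ antidiagonal N, (‖coeff u p.1‖ ^ 2 * gam β 1 p.1) *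
            (‖coeff v p.2‖ ^ 2 * gam β j p.2) := by
        apply Finset.sum_nonneg
        intro p _
        have := gam_pos hβ 1 p.1
        have := gam_pos hβ j p.2
        positivity
      calc ‖∑ p ∈ antidiagonal N, coeff u p.1 * coeff v p.2‖ ^ 2 * gam β j N
          ≤ (∑ p ∈ antidiagonal N, ‖coeff u p.1‖ * ‖coeff v p.2‖) ^ 2 * gam β j N := by gcongr
        _ ≤ ((∑ p ∈ antidiagonal N, (‖coeff u p.1‖ ^ 2 * gam β 1 p.1) *
            (‖coeff v p.2‖ ^ 2 * gam β j p.2)) *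
          ∑ p ∈ antidiagonal N, 1 / (gam β 1 p.1 * gam β j p.2)) * gam β j N := by gcongr
        _ = (∑ p ∈ antidiagonal N, gam β j N / (gam β 1 p.1 * gam β j p.2)) *
            (∑ p ∈ antidiagonal N, (‖coeff u p.1‖ ^ 2 * gam β 1 p.1) *
            (‖coeff v p.2‖ ^ 2 * gam β j p.2)) := by
            have e : ∑ p ∈ antidiagonal N, gam β j N / (gam β 1 p.1 * gam β j p.2) =
                gam β j N * ∑ p ∈ antidiagonal N, 1 / (gam β 1 p.1 * gam β j p.2) := by
              rw [Finset.mul_sum]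
              apply Finset.sum_congr rfl
              intro p _
              ring
            rw [e]
            ring
        _ ≤ _ := by gcongr
    · apply Finset.sum_nonneg
      intro p _
      have := gam_pos hβ 1 p.1
      have := gam_pos hβ j p.2
      positivity
    · intro p _
      have := gam_pos hβ 1 p.1
      have := gam_pos hβ j p.2
      positivity
  calc enormSq (gam β j) (fun z => u z * v z)
      ≤ ∑' N, ENNReal.ofReal ((Cs * 4 ^ j + Cs) * S) * ∑ p ∈ antidiagonal N,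
        (ENNReal.ofReal (‖coeff u p.1‖ ^ 2 * gam β 1 p.1) *
          ENNReal.ofReal (‖coeff v p.2‖ ^ 2 * gam β j p.2)) := ENNReal.tsum_le_tsum hterm
    _ = ENNReal.ofReal ((Cs * 4 ^ j + Cs) * S) * ∑' p : ℕ × ℕ,
        (ENNReal.ofReal (‖coeff u p.1‖ ^ 2 * gam β 1 p.1) *
          ENNReal.ofReal (‖coeff v p.2‖ ^ 2 * gam β j p.2)) := by
        rw [ENNReal.tsum_mul_left, ENNReal.tsum_antidiagonal (fun p : ℕ × ℕ =>
          (ENNReal.ofReal (‖coeff u p.1‖ ^ 2 * gam β 1 p.1) *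
          ENNReal.ofReal (‖coeff v p.2‖ ^ 2 * gam β j p.2)))]
    _ = _ := by
        rw [ENNReal.tsum_prod (f := fun a b => ENNReal.ofReal (‖coeff u a‖ ^ 2 * gam β 1 a) *
          ENNReal.ofReal (‖coeff v b‖ ^ 2 * gam β j b))]
        simp_rw [ENNReal.tsum_mul_left, ENNReal.tsum_mul_right]
        rfl


/-- comparison of shifted weights -/
theorem exists_shift_const {β : ℕ → ℝ} (hβ : ∀ n, 0 < β n) {Cs : ℝ}
    (hso : ∀ n m : ℕ, n ≤ 2 * m → m ≤ 2 * n → β m ≤ Cs * β n) (i : ℕ) :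
    ∃ C : ℝ, 0 < C ∧ (∀ n : ℕ, ((n : ℝ) + 1) ^ 2 * gam β (i + 1) n ≤ C * gam β i (n + 1)) ∧
      ∀ n : ℕ, gam β i (n + 1) ≤ C * (((n : ℝ) + 1) ^ 2 * gam β (i + 1) n) := by
  have hβ0 := hβ 0
  have hβ1 := hβ 1
  set A : ℝ := |Cs| + β 0 / β 1 + β 1 / β 0 with hA
  have hApos : 0 < A := by positivity
  have h1 : ∀ n : ℕ, β n ≤ A * β (n + 1) := by
    intro n
    have hn := hβ (n + 1)
    rcases Nat.eq_zero_or_pos n with rfl | hpos
    · have : β 0 = β 0 / β 1 * β 1 := by field_simp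
      have h3 : β 0 / β 1 ≤ A := by
        rw [hA]
        have : 0 ≤ β 1 / β 0 := by positivity
        have := abs_nonneg Cs
        linarith
      calc β 0 = β 0 / β 1 * β 1 := this
        _ ≤ A * β (0 + 1) := by rw [zero_add]; gcongr
    · have h2 := hso (n + 1) n (by omega) (by omega)
      have h3 : Cs ≤ A := by
        rw [hA]
        have : 0 ≤ β 1 / β 0 := by positivity
        have : 0 ≤ β 0 / β 1 := by positivity
        have := le_abs_self Cs
        linarith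
      exact h2.trans (by gcongr)
  have h2 : ∀ n : ℕ, β (n + 1) ≤ A * β n := by
    intro n
    have hn := hβ n
    rcases Nat.eq_zero_or_pos n with rfl | hpos
    · have : β 1 = β 1 / β 0 * β 0 := by field_simp
      have h3 : β 1 / β 0 ≤ A := by
        rw [hA]
        have : 0 ≤ β 0 / β 1 := by positivity
        have := abs_nonneg Cs
        linarith
      calc β (0 + 1) = β 1 / β 0 * β 0 := this
        _ ≤ A * β 0 := by gcongr
    · have h2 := hso n (n + 1) (by omega) (by omega)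
      have h3 : Cs ≤ A := by
        rw [hA]
        have : 0 ≤ β 1 / β 0 := by positivity
        have : 0 ≤ β 0 / β 1 := by positivity
        have := le_abs_self Cs
        linarith
      exact h2.trans (by gcongr)
  refine ⟨A * 4 ^ i, by positivity, fun n => ?_, fun n => ?_⟩
  · have hn := hβ n
    have e : ((n : ℝ) + 1) ^ 2 * gam β (i + 1) n = β n / ((n : ℝ) + 1) ^ (2 * i) := by
      rw [gam]
      field_simp
      ring
    rw [e, gam]
    push_cast
    have h3 : ((n : ℝ) + 1 + 1) ^ (2 * i) ≤ 4 ^ i * ((n : ℝ) + 1) ^ (2 * i) := by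
      calc ((n : ℝ) + 1 + 1) ^ (2 * i) ≤ (2 * ((n : ℝ) + 1)) ^ (2 * i) := by
            gcongr
            have : (0:ℝ) ≤ n := Nat.cast_nonneg n
            linarith
        _ = 4 ^ i * ((n : ℝ) + 1) ^ (2 * i) := by
          rw [mul_pow, pow_mul (2:ℝ)]
          norm_num
    rw [div_le_iff₀ (by positivity)]
    have hn1 := hβ (n + 1)
    calc β n ≤ A * β (n + 1) := h1 n
      _ = A * (β (n + 1) / ((n : ℝ) + 1 + 1) ^ (2 * i)) * ((n : ℝ) + 1 + 1) ^ (2 * i) := by
          field_simp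
      _ ≤ A * (β (n + 1) / ((n : ℝ) + 1 + 1) ^ (2 * i)) *
          (4 ^ i * ((n : ℝ) + 1) ^ (2 * i)) := by gcongr
      _ = _ := by ring
  · have hn := hβ n
    have e : ((n : ℝ) + 1) ^ 2 * gam β (i + 1) n = β n / ((n : ℝ) + 1) ^ (2 * i) := by
      rw [gam]
      field_simp
      ring
    rw [e, gam]
    push_cast
    have h3 : ((n : ℝ) + 1) ^ (2 * i) ≤ ((n : ℝ) + 1 + 1) ^ (2 * i) := by
      gcongr
      linarith
    rw [div_le_iff₀ (by positivity)]
    have h4 : (1 : ℝ) ≤ 4 ^ i := one_le_pow₀ (by norm_num)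
    calc β (n + 1) ≤ A * β n := h2 n
      _ = A * 1 * (β n / ((n : ℝ) + 1) ^ (2 * i)) * ((n : ℝ) + 1) ^ (2 * i) := by
          field_simp
      _ ≤ A * 4 ^ i * (β n / ((n : ℝ) + 1) ^ (2 * i)) * ((n : ℝ) + 1 + 1) ^ (2 * i) := by gcongr
      _ = _ := by ring

theorem enormSq_deriv_le {β : ℕ → ℝ} {i : ℕ} {C : ℝ} (hC : 0 < C)
    (h : ∀ n : ℕ, ((n : ℝ) + 1) ^ 2 * gam β (i + 1) n ≤ C * gam β i (n + 1)) (f : ℂ → ℂ) :
    enormSq (gam β (i + 1)) (deriv f) ≤ ENNReal.ofReal C * enormSq (gam β i) f := by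
  have h1 : ∑' n, ENNReal.ofReal (‖coeff f (n + 1)‖ ^ 2 * gam β i (n + 1)) ≤
      enormSq (gam β i) f := by
    rw [enormSq, tsum_eq_zero_add' (f := fun n => ENNReal.ofReal (‖coeff f n‖ ^ 2 * gam β i n))
      ENNReal.summable]
    exact self_le_add_left _ _
  refine le_trans ?_ (mul_le_mul_of_nonneg_left h1 zero_le)
  rw [enormSq, ← ENNReal.tsum_mul_left]
  apply ENNReal.tsum_le_tsum
  intro n
  rw [← ENNReal.ofReal_mul hC.le]
  apply ENNReal.ofReal_le_ofReal
  rw [coeff_deriv, norm_mul, mul_pow]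
  have e : ‖(n : ℂ) + 1‖ = (n : ℝ) + 1 := by
    have : (n : ℂ) + 1 = ((n + 1 : ℕ) : ℂ) := by push_cast; ring
    rw [this, Complex.norm_natCast]
    push_cast
    ring
  rw [e]
  calc ((n : ℝ) + 1) ^ 2 * ‖coeff f (n + 1)‖ ^ 2 * gam β (i + 1) n
      = ‖coeff f (n + 1)‖ ^ 2 * (((n : ℝ) + 1) ^ 2 * gam β (i + 1) n) := by ring
    _ ≤ ‖coeff f (n + 1)‖ ^ 2 * (C * gam β i (n + 1)) :=
        mul_le_mul_of_nonneg_left (h n) (sq_nonneg _)
    _ = _ := by ring

theorem enormSq_le_deriv {β : ℕ → ℝ} {i : ℕ} {C : ℝ} (hC : 0 < C)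
    (h : ∀ n : ℕ, gam β i (n + 1) ≤ C * (((n : ℝ) + 1) ^ 2 * gam β (i + 1) n)) (f : ℂ → ℂ) :
    enormSq (gam β i) f ≤ enormSq (gam β (i + 1)) f +
      ENNReal.ofReal C * enormSq (gam β (i + 1)) (deriv f) := by
  rw [enormSq, tsum_eq_zero_add' (f := fun n => ENNReal.ofReal (‖coeff f n‖ ^ 2 * gam β i n))
    ENNReal.summable]
  apply add_le_add
  · have : gam β i 0 = gam β (i + 1) 0 := by simp [gam]
    rw [this]
    exact coeff_le_enormSq _ f 0
  · rw [enormSq, ← ENNReal.tsum_mul_left]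
    apply ENNReal.tsum_le_tsum
    intro n
    rw [← ENNReal.ofReal_mul hC.le]
    apply ENNReal.ofReal_le_ofReal
    rw [coeff_deriv, norm_mul, mul_pow]
    have e : ‖(n : ℂ) + 1‖ = (n : ℝ) + 1 := by
      have : (n : ℂ) + 1 = ((n + 1 : ℕ) : ℂ) := by push_cast; ring
      rw [this, Complex.norm_natCast]
      push_cast
      ring
    rw [e]
    calc ‖coeff f (n + 1)‖ ^ 2 * gam β i (n + 1)
        ≤ ‖coeff f (n + 1)‖ ^ 2 * (C * (((n : ℝ) + 1) ^ 2 * gam β (i + 1) n)) := by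
          gcongr; exact h n
      _ = _ := by ring

/-- Part III, relative to Part II. -/
theorem partIII
    (hII : ∀ β' : ℕ → ℝ, (∀ n, 0 < β' n) → SlowlyOscillating β' → EssDecreasing β' →
      ∀ φ : ℂ → ℂ, DifferentiableOn ℂ φ (ball 0 1) → Set.MapsTo φ (ball 0 1) (ball 0 1) →
        ∃ K : ℝ≥0, Bdd β' φ K)
    {β : ℕ → ℝ} (hβ : ∀ n, 0 < β n) (hSO : SlowlyOscillating β)
    (hsum : Summable fun n : ℕ => (n : ℝ) ^ 2 / β n) : PropertyZ β := by
  obtain ⟨Cs, hCs, hso⟩ := hSO.const'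
  intro φ hφ hφm
  rw [boundedComp_iff hβ hφ.1 hφ.2.1]
  -- summability of `(n+1)^2/β_n`
  have hsum' : Summable fun n : ℕ => ((n : ℝ) + 1) ^ 2 / β n := by
    rw [← summable_nat_add_iff 1]
    have h1 := ((summable_nat_add_iff 1).2 hsum).mul_left 4
    refine Summable.of_nonneg_of_le (fun n => div_nonneg (by positivity) (hβ _).le)
      (fun n => ?_) h1
    have hn := hβ (n + 1)
    push_cast
    rw [← mul_div_assoc]
    apply div_le_div_of_nonneg_right _ hn.le
    have : (0:ℝ) ≤ n := Nat.cast_nonneg n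
    nlinarith
  obtain ⟨S, hS⟩ := hsum'
  obtain ⟨J, hJ⟩ := gam_essDecreasing hβ hSO
  have hφfin : enormSq β φ ≠ ∞ := ((memH2_iff hβ).1 hφm).2
  -- downward induction
  have key : ∀ k i : ℕ, i + k = J → ∃ K : ℝ≥0, Bdd (gam β i) φ K := by
    intro k
    induction k with
    | zero =>
      intro i hi
      exact hII _ (gam_pos hβ i) (gam_slowlyOscillating hβ hSO i) (hJ i (by omega)) φ hφ.1 hφ.2.1
    | succ k ih =>
      intro i hi
      obtain ⟨K, hK⟩ := ih (i + 1) (by omega)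
      obtain ⟨C, hC, hC1, hC2⟩ := exists_shift_const hβ hso i
      obtain ⟨C', hC', hC1', hC2'⟩ := exists_shift_const hβ hso 0
      set A : ℝ≥0∞ := ENNReal.ofReal ((Cs * 4 ^ (i + 1) + Cs) * S) with hA
      set B : ℝ≥0∞ := ENNReal.ofReal C' * enormSq β φ with hB
      have hBfin : B ≠ ∞ := ENNReal.mul_ne_top ENNReal.ofReal_ne_top hφfin
      have hφ' : enormSq (gam β 1) (deriv φ) ≤ B := by
        have := enormSq_deriv_le hC' hC1' φ
        rwa [gam_zero] at this
      set T : ℝ≥0∞ := K + ENNReal.ofReal C * (A * (B * (K * ENNReal.ofReal C))) with hT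
      have hTfin : T ≠ ∞ := by
        rw [hT]
        refine ENNReal.add_ne_top.2 ⟨ENNReal.coe_ne_top, ?_⟩
        refine ENNReal.mul_ne_top ENNReal.ofReal_ne_top ?_
        refine ENNReal.mul_ne_top ENNReal.ofReal_ne_top ?_
        refine ENNReal.mul_ne_top hBfin ?_
        exact ENNReal.mul_ne_top ENNReal.coe_ne_top ENNReal.ofReal_ne_top
      refine ⟨T.toNNReal, fun f hf => ?_⟩
      rw [ENNReal.coe_toNNReal hTfin]
      have hfd : DifferentiableOn ℂ (deriv f) (ball 0 1) := hf.deriv isOpen_ball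
      have hφd : DifferentiableOn ℂ (deriv φ) (ball 0 1) := hφ.1.deriv isOpen_ball
      have hle : enormSq (gam β (i + 1)) f ≤ enormSq (gam β i) f := by
        apply ENNReal.tsum_le_tsum
        intro n
        apply ENNReal.ofReal_le_ofReal
        apply mul_le_mul_of_nonneg_left _ (sq_nonneg _)
        rw [gam, gam]
        apply div_le_div_of_nonneg_left (hβ n).le (by positivity)
        apply pow_le_pow_right₀ _ (by omega)
        have : (0:ℝ) ≤ n := Nat.cast_nonneg n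
        linarith
      have h1 := enormSq_le_deriv hC hC2 (f ∘ φ)
      have hchain : Set.EqOn (deriv (f ∘ φ)) (fun z => deriv φ z * (deriv f ∘ φ) z)
          (ball 0 1) := by
        intro z hz
        have hz1 := hφ.1.differentiableAt (isOpen_ball.mem_nhds hz)
        have hz2 := hf.differentiableAt (isOpen_ball.mem_nhds (hφ.2.1 hz))
        rw [deriv_comp z hz2 hz1]
        simp [mul_comm]
      have h2 : enormSq (gam β (i + 1)) (deriv (f ∘ φ)) =
          enormSq (gam β (i + 1)) (fun z => deriv φ z * (deriv f ∘ φ) z) := by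
        rw [enormSq, enormSq, coeff_congr hchain]
      have h3 := enormSq_mul_le hβ hCs hso hS (j := i + 1) (by omega) hφd
        (hfd.comp hφ.1 hφ.2.1)
      have h4 : enormSq (gam β (i + 1)) (deriv f ∘ φ) ≤
          K * (ENNReal.ofReal C * enormSq (gam β i) f) :=
        (hK _ hfd).trans (mul_le_mul_of_nonneg_left (enormSq_deriv_le hC hC1 f) zero_le)
      calc enormSq (gam β i) (f ∘ φ)
          ≤ enormSq (gam β (i + 1)) (f ∘ φ) +
            ENNReal.ofReal C * enormSq (gam β (i + 1)) (deriv (f ∘ φ)) := h1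
        _ ≤ K * enormSq (gam β i) f + ENNReal.ofReal C *
            (A * (B * (K * (ENNReal.ofReal C * enormSq (gam β i) f)))) := by
            rw [h2]
            gcongr
            · exact (hK f hf).trans (by gcongr)
            · refine h3.trans ?_
              rw [← hA]
              gcongr
        _ = T * enormSq (gam β i) f := by
            rw [hT]
            ring
  obtain ⟨K, hK⟩ := key J 0 (by omega)
  rw [gam_zero] at hK
  exact ⟨K, hK⟩

end Pool.Agent.MP51b9c2
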