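import Pool.Agent.Lib.MP_51b9c2_an.Baire

/-!
# Necessity for slowly oscillating weights
-/

namespace Pool.Agent.MP51b9c2

open Filter Metric Topology Polynomial
open scoped ENNReal NNReal Real

/-- nonnegative coefficients -/
def NN (Q : ℝ[X]) : Prop := ∀ n, 0 ≤ Q.coeff n

theorem NN.add {A B : ℝ[X]} (hA : NN A) (hB : NN B) : NN (A + B) := fun n => by
  rw [Polynomial.coeff_add]
  exact add_nonneg (hA n) (hB n)

theorem NN.mul {A B : ℝ[X]} (hA : NN A) (hB : NN B) : NN (A * B) := fun n => by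
  rw [Polynomial.coeff_mul]
  exact Finset.sum_nonneg fun p _ => mul_nonneg (hA _) (hB _)

theorem NN.C_mul {A : ℝ[X]} {c : ℝ} (hc : 0 ≤ c) (hA : NN A) : NN (C c * A) := fun n => by
  rw [coeff_C_mul]
  exact mul_nonneg hc (hA n)

theorem NN.C {c : ℝ} (hc : 0 ≤ c) : NN (Polynomial.C c) := fun n => by
  rw [coeff_C]
  split_ifs
  exacts [hc, le_rfl]

theorem NN.one : NN 1 := fun n => by
  rw [coeff_one]
  split_ifs <;> norm_num

theorem NN.X_pow (k : ℕ) : NN (X ^ k) := fun n => by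
  rw [coeff_X_pow]
  split_ifs <;> norm_num

theorem NN.pow {A : ℝ[X]} (hA : NN A) (k : ℕ) : NN (A ^ k) := by
  induction k with
  | zero => simpa using NN.one
  | succ k ih => rw [pow_succ]; exact ih.mul hA

theorem NN.sum {ι : Type*} {s : Finset ι} {A : ι → ℝ[X]} (h : ∀ i ∈ s, NN (A i)) :
    NN (∑ i ∈ s, A i) := fun n => by
  rw [finsetSum_coeff]
  exact Finset.sum_nonneg fun i hi => h i hi n

theorem NN.zero : NN 0 := fun n => by simp

theorem nn_add_pow {A B : ℝ[X]} (hA : NN A) (hB : NN B) (n : ℕ) :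
    NN ((A + B) ^ n - A ^ n - (n : ℝ[X]) * (A ^ (n - 1) * B)) := by
  induction n with
  | zero => simpa using NN.zero
  | succ n ih =>
    have e : (A + B) ^ (n + 1) - A ^ (n + 1) - ((n + 1 : ℕ) : ℝ[X]) * (A ^ (n + 1 - 1) * B) =
        (A + B) * ((A + B) ^ n - A ^ n - (n : ℝ[X]) * (A ^ (n - 1) * B)) +
          C (n : ℝ) * (A ^ (n - 1) * B ^ 2) := by
      rcases Nat.eq_zero_or_pos n with rfl | hn
      · simp
      · obtain ⟨k, rfl⟩ := Nat.exists_eq_add_of_le' hn
        simp only [Nat.add_sub_cancel, map_natCast]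
        push_cast
        ring
    rw [e]
    exact ((hA.add hB).mul ih).add (((hA.pow _).mul (hB.pow 2)).C_mul (by positivity))

/-- coefficientwise lower bound for a power of a sum -/
theorem coeff_add_pow_ge {A B : ℝ[X]} (hA : NN A) (hB : NN B) (n k : ℕ) :
    n * (A ^ (n - 1) * B).coeff k ≤ ((A + B) ^ n).coeff k := by
  have h1 := nn_add_pow hA hB n k
  have h2 := hA.pow n k
  rw [coeff_sub, coeff_sub, ← C_eq_natCast, coeff_C_mul] at h1
  linarith

theorem hasSum_coeff_eval (Q : ℝ[X]) : HasSum Q.coeff (Q.eval 1) := by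
  rw [eval_eq_sum_range]
  simp only [one_pow, mul_one]
  apply hasSum_sum_of_ne_finset_zero
  intro n hn
  rw [Finset.mem_range, not_lt] at hn
  exact coeff_eq_zero_of_natDegree_lt (by omega)

/-- Square of the `H²(β)` norm of a polynomial. -/
noncomputable def PN (β : ℕ → ℝ) (F : ℝ[X]) : ℝ := ∑' n, F.coeff n ^ 2 * β n

theorem PN_summable (β : ℕ → ℝ) (F : ℝ[X]) : Summable fun n => F.coeff n ^ 2 * β n := by
  apply summable_of_hasFiniteSupport
  refine (Set.finite_Iic F.natDegree).subset fun n hn => ?_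
  by_contra h
  apply hn
  dsimp only
  rw [coeff_eq_zero_of_natDegree_lt (by simpa using h)]
  simp

theorem PN_nonneg {β : ℕ → ℝ} (hβ : ∀ n, 0 < β n) (F : ℝ[X]) : 0 ≤ PN β F :=
  tsum_nonneg fun n => mul_nonneg (sq_nonneg _) (hβ n).le

theorem phi_coeff_eq (Q : ℝ[X]) (z : ℂ) : phi Q.coeff z = (Q.map (algebraMap ℝ ℂ)).eval z := by
  have h := hasCoeffs_polynomial (Q.map (algebraMap ℝ ℂ))
  rw [phi]
  rw [eval_eq_sum_range' (n := Q.natDegree + 1)
    (Nat.lt_succ_of_le (natDegree_map_le))]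
  rw [tsum_eq_sum (s := Finset.range (Q.natDegree + 1))]
  · simp
  · intro n hn
    rw [Finset.mem_range, not_lt] at hn
    rw [coeff_eq_zero_of_natDegree_lt (by omega)]
    simp

theorem enormSq_poly {β : ℕ → ℝ} (hβ : ∀ n, 0 < β n) (F : ℝ[X]) :
    enormSq β (fun z => (F.map (algebraMap ℝ ℂ)).eval z) = ENNReal.ofReal (PN β F) := by
  unfold enormSq PN
  rw [coeff_polynomial, ENNReal.ofReal_tsum_of_nonneg
    (fun n => mul_nonneg (sq_nonneg _) (hβ n).le) (PN_summable β F)]
  congr 1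
  funext n
  rw [coeff_map]
  simp

theorem baire_poly {β : ℕ → ℝ} (hβ : ∀ n, 0 < β n) (hZ : PropertyZ β) :
    ∃ (P : ℝ[X]) (ε : ℝ) (K : ℝ≥0), NN P ∧ P.coeff 0 = 0 ∧ P.eval 1 = 1 ∧ 0 < ε ∧
      ∀ Q : ℝ[X], NN Q → Q.coeff 0 = 0 → Q.eval 1 = 1 →
        ∑' n, |(Q - P).coeff n| < ε → PN β (Q - P) < ε →
          ∀ F : ℝ[X], PN β (F.comp Q) ≤ K * PN β F := by
  obtain ⟨a, D, ε, K, ha0, h0, h1, hD, hε, hmain⟩ := baire_step hβ hZ
  set P : ℝ[X] := ∑ n ∈ Finset.range (D + 1), C (a n) * X ^ n with hP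
  have hPc : P.coeff = a := by
    funext k
    simp only [hP, finsetSum_coeff, coeff_C_mul_X_pow]
    rw [Finset.sum_ite_eq]
    split_ifs with hk
    · rfl
    · rw [Finset.mem_range, not_lt] at hk
      exact (hD k (by omega)).symm
  refine ⟨P, ε, K, fun n => by rw [hPc]; exact ha0 n, by rw [hPc]; exact h0, ?_, hε, ?_⟩
  · have := hasSum_coeff_eval P
    rw [hPc] at this
    exact this.unique h1
  · intro Q hQ hQ0 hQ1 hd1 hd2 F
    have hQs := hasSum_coeff_eval Q
    rw [hQ1] at hQs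
    have hb := hmain Q.coeff hQ hQ0 hQs (PN_summable β Q) (by simpa [← hPc] using hd1)
      (by simpa [← hPc, PN] using hd2)
    have h2 := hb (fun z => (F.map (algebraMap ℝ ℂ)).eval z)
      (Polynomial.differentiable _).differentiableOn
    have e : (fun z => (F.map (algebraMap ℝ ℂ)).eval z) ∘ phi Q.coeff =
        fun z => ((F.comp Q).map (algebraMap ℝ ℂ)).eval z := by
      funext z
      rw [Function.comp, phi_coeff_eq, map_comp, eval_comp]
    rw [e, enormSq_poly hβ, enormSq_poly hβ, ← ENNReal.ofReal_coe_nnreal,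
      ← ENNReal.ofReal_mul K.coe_nonneg] at h2
    rwa [ENNReal.ofReal_le_ofReal_iff (mul_nonneg K.coe_nonneg (PN_nonneg hβ F))] at h2


theorem SlowlyOscillating.const {β : ℕ → ℝ} (h : SlowlyOscillating β) :
    ∃ C : ℝ, 1 < C ∧ ∀ n m : ℕ, n ≤ 2 * m → m ≤ 2 * n → β m ≤ C * β n := by
  obtain ⟨c, C, _, _, hC, hmain⟩ := h
  refine ⟨C, hC, fun n m h1 h2 => (hmain n m ?_ ?_).2⟩
  · have : (n : ℝ) ≤ 2 * m := by exact_mod_cast h1
    linarith
  · exact_mod_cast h2

/-- The uniform distribution on `{0, …, L-1}`. -/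
noncomputable def blk (L : ℕ) : ℝ[X] := C ((L : ℝ)⁻¹) * ∑ j ∈ Finset.range L, X ^ j

theorem blk_coeff (L k : ℕ) : (blk L).coeff k = if k < L then (L : ℝ)⁻¹ else 0 := by
  rw [blk, coeff_C_mul, finsetSum_coeff]
  simp only [coeff_X_pow]
  rw [Finset.sum_ite_eq]
  simp

theorem blk_nn (L : ℕ) : NN (blk L) := fun n => by
  rw [blk_coeff]
  split_ifs
  · positivity
  · exact le_rfl

theorem blk_eval {L : ℕ} (hL : 0 < L) : (blk L).eval 1 = 1 := by
  have : (L : ℝ) ≠ 0 := by exact_mod_cast hL.ne'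
  simp [blk, eval_finsetSum, this]

theorem blk_natDegree_le (L : ℕ) : (blk L).natDegree ≤ L := by
  rw [natDegree_le_iff_coeff_eq_zero]
  intro k hk
  rw [blk_coeff, if_neg (by omega)]

theorem coeff_mul_blk_le {P : ℝ[X]} (hP : NN P) (hP1 : P.eval 1 = 1) (L k : ℕ) :
    (P * blk L).coeff k ≤ (L : ℝ)⁻¹ := by
  rw [Polynomial.coeff_mul]
  calc ∑ x ∈ Finset.HasAntidiagonal.antidiagonal k, P.coeff x.1 * (blk L).coeff x.2
      ≤ ∑ x ∈ Finset.HasAntidiagonal.antidiagonal k, P.coeff x.1 * (L : ℝ)⁻¹ := by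
        apply Finset.sum_le_sum
        intro x _
        apply mul_le_mul_of_nonneg_left _ (hP _)
        rw [blk_coeff]
        split_ifs
        · exact le_rfl
        · positivity
    _ = (∑ x ∈ Finset.HasAntidiagonal.antidiagonal k, P.coeff x.1) * (L : ℝ)⁻¹ := by
        rw [Finset.sum_mul]
    _ = (∑ i ∈ Finset.range (k + 1), P.coeff i) * (L : ℝ)⁻¹ := by
        rw [Finset.Nat.sum_antidiagonal_eq_sum_range_succ_mk]
    _ ≤ 1 * (L : ℝ)⁻¹ := by
        apply mul_le_mul_of_nonneg_right _ (by positivity)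
        rw [← hP1]
        exact sum_le_hasSum _ (fun n _ => hP n) (hasSum_coeff_eval P)
    _ = (L : ℝ)⁻¹ := one_mul _

/-- if `k` is past the degree of `W` and inside the block, the coefficient is constant -/
theorem coeff_mul_blk_eq {W : ℝ[X]} {L k : ℕ} (h1 : W.natDegree ≤ k) (h2 : k < L) :
    (W * blk L).coeff k = W.eval 1 * (L : ℝ)⁻¹ := by
  rw [Polynomial.coeff_mul, Finset.Nat.sum_antidiagonal_eq_sum_range_succ_mk]
  have : W.eval 1 = ∑ i ∈ Finset.range (k + 1), W.coeff i := by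
    rw [eval_eq_sum_range' (n := k + 1) (by omega)]
    simp
  rw [this, Finset.sum_mul]
  apply Finset.sum_congr rfl
  intro i _
  dsimp only
  rw [blk_coeff, if_pos (by omega)]

/-- The perturbed symbol. -/
noncomputable def pert (P : ℝ[X]) (ρ : ℝ) (L m : ℕ) : ℝ[X] :=
  C (1 - ρ) * P + C ρ * (P * blk L * X ^ m)

section pert

variable {P : ℝ[X]} (hP : NN P) (hP0 : P.coeff 0 = 0) (hP1 : P.eval 1 = 1) {ρ : ℝ}
  (hρ0 : 0 ≤ ρ) (hρ1 : ρ ≤ 1) {L m : ℕ} (hL : 0 < L)

include hP hρ0 hρ1 in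
theorem pert_nn : NN (pert P ρ L m) :=
  (hP.C_mul (by linarith)).add ((((hP.mul (blk_nn L)).mul (NN.X_pow m))).C_mul hρ0)

include hP0 in
theorem pert_coeff_zero : (pert P ρ L m).coeff 0 = 0 := by
  rw [pert, Polynomial.coeff_add, coeff_C_mul, coeff_C_mul, mul_coeff_zero, mul_coeff_zero, hP0]
  ring

include hP1 hL in
theorem pert_eval_one : (pert P ρ L m).eval 1 = 1 := by
  simp [pert, hP1, blk_eval hL]

include hP hP1 hρ0 hL in
theorem pert_dist_one : ∑' n, |(pert P ρ L m - P).coeff n| ≤ 2 * ρ := by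
  have h1 := hasSum_coeff_eval P
  have h2 := hasSum_coeff_eval (P * blk L * X ^ m)
  have e2 : (P * blk L * X ^ m).eval 1 = 1 := by simp [hP1, blk_eval hL]
  rw [hP1] at h1
  rw [e2] at h2
  have h3 := (h1.add h2).mul_left ρ
  have hle : ∀ n, |(pert P ρ L m - P).coeff n| ≤
      ρ * (P.coeff n + (P * blk L * X ^ m).coeff n) := by
    intro n
    have e : (pert P ρ L m - P).coeff n = ρ * ((P * blk L * X ^ m).coeff n - P.coeff n) := by
      rw [pert, coeff_sub, Polynomial.coeff_add, coeff_C_mul, coeff_C_mul]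
      ring
    have p1 := hP n
    have p2 := (hP.mul (blk_nn L)).mul (NN.X_pow m) n
    rw [e, abs_mul, abs_of_nonneg hρ0]
    apply mul_le_mul_of_nonneg_left _ hρ0
    rw [abs_le]
    constructor <;> linarith
  have h4 : Summable fun n => |(pert P ρ L m - P).coeff n| :=
    Summable.of_nonneg_of_le (fun n => abs_nonneg _) hle h3.summable
  have h5 := hasSum_le hle h4.hasSum h3
  linarith

include hP hP1 in
theorem PN_block_le {β : ℕ → ℝ} (hβ : ∀ n, 0 < β n) {Cs : ℝ}
    (hso : ∀ n m : ℕ, n ≤ 2 * m → m ≤ 2 * n → β m ≤ Cs * β n) (hL : 0 < L)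
    (hm : P.natDegree + L ≤ m) :
    PN β (P * blk L * X ^ m) ≤ Cs * β m * (L : ℝ)⁻¹ := by
  have h2 := hasSum_coeff_eval (P * blk L * X ^ m)
  have e2 : (P * blk L * X ^ m).eval 1 = 1 := by simp [hP1, blk_eval hL]
  rw [e2] at h2
  have h3 := h2.mul_left (Cs * β m * (L : ℝ)⁻¹)
  rw [mul_one] at h3
  refine hasSum_le (fun n => ?_) (PN_summable β _).hasSum h3
  have p2 := (hP.mul (blk_nn L)).mul (NN.X_pow m) n
  rw [coeff_mul_X_pow'] at p2 ⊢
  split_ifs with hmn
  · rw [if_pos hmn] at p2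
    by_cases hz : (P * blk L).coeff (n - m) = 0
    · rw [hz]
      simp
    · have hdeg : n - m ≤ P.natDegree + L := by
        by_contra hcon
        apply hz
        apply coeff_eq_zero_of_natDegree_lt
        have := natDegree_mul_le (p := P) (q := blk L)
        have := blk_natDegree_le L
        omega
      have hb : β n ≤ Cs * β m := hso m n (by omega) (by omega)
      have hc := coeff_mul_blk_le hP hP1 L (n - m)
      calc (P * blk L).coeff (n - m) ^ 2 * β n
          = (P * blk L).coeff (n - m) * (P * blk L).coeff (n - m) * β n := by ring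
        _ ≤ (P * blk L).coeff (n - m) * (L : ℝ)⁻¹ * (Cs * β m) := by
            apply mul_le_mul _ hb (hβ n).le
            · positivity
            · exact mul_le_mul_of_nonneg_left hc p2
        _ = Cs * β m * (L : ℝ)⁻¹ * (P * blk L).coeff (n - m) := by ring
  · simp

include hP hP1 hL in
theorem pert_dist_two {β : ℕ → ℝ} (hβ : ∀ n, 0 < β n) {Cs : ℝ}
    (hso : ∀ n m : ℕ, n ≤ 2 * m → m ≤ 2 * n → β m ≤ Cs * β n)
    (hm : P.natDegree + L ≤ m) :
    PN β (pert P ρ L m - P) ≤ 2 * ρ ^ 2 * (Cs * β m * (L : ℝ)⁻¹ + PN β P) := by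
  have h1 := PN_block_le hP hP1 hβ hso hL hm
  have h2 := ((PN_summable β (P * blk L * X ^ m)).hasSum.add (PN_summable β P).hasSum).mul_left
    (2 * ρ ^ 2)
  have h3 : PN β (pert P ρ L m - P) ≤ 2 * ρ ^ 2 * (PN β (P * blk L * X ^ m) + PN β P) := by
    refine hasSum_le (fun n => ?_) (PN_summable β _).hasSum h2
    have e : (pert P ρ L m - P).coeff n = ρ * ((P * blk L * X ^ m).coeff n - P.coeff n) := by
      rw [pert, coeff_sub, Polynomial.coeff_add, coeff_C_mul, coeff_C_mul]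
      ring
    rw [e]
    have hb := (hβ n).le
    have : ((P * blk L * X ^ m).coeff n - P.coeff n) ^ 2 ≤
        2 * ((P * blk L * X ^ m).coeff n ^ 2 + P.coeff n ^ 2) := by
      nlinarith [sq_nonneg ((P * blk L * X ^ m).coeff n + P.coeff n)]
    calc (ρ * ((P * blk L * X ^ m).coeff n - P.coeff n)) ^ 2 * β n
        = ρ ^ 2 * ((P * blk L * X ^ m).coeff n - P.coeff n) ^ 2 * β n := by ring
      _ ≤ ρ ^ 2 * (2 * ((P * blk L * X ^ m).coeff n ^ 2 + P.coeff n ^ 2)) * β n := by
          gcongr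
      _ = _ := by ring
  refine h3.trans ?_
  gcongr

/-- The weight attached to the test polynomial `F`. -/
noncomputable def wt (F P : ℝ[X]) : ℝ[X] :=
  ∑ n ∈ Finset.range (F.natDegree + 1), C (n * F.coeff n) * P ^ n

include hP hρ0 in
theorem comp_pert_coeff_ge {F : ℝ[X]} (hF : NN F) (hρF : ρ * F.natDegree ≤ 1 / 2) (hρ1 : ρ ≤ 1)
    (l : ℕ) :
    ρ / 2 * (wt F P * blk L).coeff l ≤ (F.comp (pert P ρ L m)).coeff (m + l) := by
  rw [comp, eval₂_eq_sum_range, finsetSum_coeff, wt, Finset.sum_mul, finsetSum_coeff,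
    Finset.mul_sum]
  apply Finset.sum_le_sum
  intro n hn
  rw [Finset.mem_range] at hn
  rw [mul_assoc, coeff_C_mul, coeff_C_mul]
  rcases Nat.eq_zero_or_pos n with rfl | hn0
  · simp only [CharP.cast_eq_zero, zero_mul, mul_zero, pow_zero]
    exact mul_nonneg (hF 0) (NN.one _)
  have hA : NN (C (1 - ρ) * P) := hP.C_mul (by linarith)
  have hB : NN (C ρ * (P * blk L * X ^ m)) :=
    (((hP.mul (blk_nn L)).mul (NN.X_pow m))).C_mul hρ0
  have h1 := coeff_add_pow_ge hA hB n (m + l)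
  have e : (C (1 - ρ) * P) ^ (n - 1) * (C ρ * (P * blk L * X ^ m)) =
      C ((1 - ρ) ^ (n - 1) * ρ) * ((P ^ n * blk L) * X ^ m) := by
    obtain ⟨k, rfl⟩ := Nat.exists_eq_add_of_le' hn0
    simp only [Nat.add_sub_cancel, C_mul, C_pow]
    ring
  rw [e, coeff_C_mul, add_comm m l, coeff_mul_X_pow] at h1
  have h2 : (1 : ℝ) / 2 ≤ (1 - ρ) ^ (n - 1) := by
    have hb := one_add_mul_le_pow (a := -ρ) (by linarith) (n - 1)
    have hn1 : ((n - 1 : ℕ) : ℝ) ≤ F.natDegree := by
      have : n - 1 ≤ F.natDegree := by omega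
      exact_mod_cast this
    have h3 : ρ * ((n - 1 : ℕ) : ℝ) ≤ ρ * F.natDegree := mul_le_mul_of_nonneg_left hn1 hρ0
    have h4 : (1 + -ρ) = 1 - ρ := by ring
    rw [h4] at hb
    nlinarith
  have h5 : 0 ≤ (P ^ n * blk L).coeff l := ((hP.pow n).mul (blk_nn L)) l
  have h6 : (n : ℝ) * (ρ / 2 * (P ^ n * blk L).coeff l) ≤
      ((pert P ρ L m) ^ n).coeff (m + l) := by
    rw [add_comm m l]
    refine le_trans ?_ h1
    apply mul_le_mul_of_nonneg_left _ (Nat.cast_nonneg n)
    apply mul_le_mul_of_nonneg_right _ h5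
    nlinarith
  calc ρ / 2 * (n * F.coeff n * (P ^ n * blk L).coeff l)
      = F.coeff n * (n * (ρ / 2 * (P ^ n * blk L).coeff l)) := by ring
    _ ≤ F.coeff n * ((pert P ρ L m) ^ n).coeff (m + l) :=
        mul_le_mul_of_nonneg_left h6 (hF n)

include hP hρ0 in
theorem PN_comp_pert_ge {β : ℕ → ℝ} (hβ : ∀ n, 0 < β n) {Cs : ℝ} (hCs : 0 < Cs)
    (hso : ∀ n m : ℕ, n ≤ 2 * m → m ≤ 2 * n → β m ≤ Cs * β n)
    {F : ℝ[X]} (hF : NN F) (hρF : ρ * F.natDegree ≤ 1 / 2) (hρ1 : ρ ≤ 1)
    (T : Finset ℕ) (hT : ∀ l ∈ T, l ≤ m) :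
    β m / Cs * (ρ ^ 2 / 4) * ∑ l ∈ T, (wt F P * blk L).coeff l ^ 2 ≤
      PN β (F.comp (pert P ρ L m)) := by
  have h1 : ∑ l ∈ T, (F.comp (pert P ρ L m)).coeff (m + l) ^ 2 * β (m + l) ≤
      PN β (F.comp (pert P ρ L m)) := by
    have := (PN_summable β (F.comp (pert P ρ L m))).sum_le_tsum
      (T.map (addLeftEmbedding m)) (fun n _ => mul_nonneg (sq_nonneg _) (hβ n).le)
    rw [Finset.sum_map] at this
    simpa [PN] using this
  refine le_trans ?_ h1
  rw [Finset.mul_sum]
  apply Finset.sum_le_sum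
  intro l hl
  have h2 := comp_pert_coeff_ge (m := m) (L := L) hP hρ0 hF hρF hρ1 l
  have hlm := hT l hl
  have h3 : β m ≤ Cs * β (m + l) := hso _ _ (by omega) (by omega)
  have h4 : β m / Cs ≤ β (m + l) := by
    rw [div_le_iff₀ hCs]
    linarith
  have hw : NN (wt F P) := NN.sum fun n _ => (hP.pow n).C_mul (mul_nonneg (Nat.cast_nonneg n) (hF n))
  have h5 : 0 ≤ ρ / 2 * (wt F P * blk L).coeff l := by
    have := (hw.mul (blk_nn L)) l
    positivity
  calc β m / Cs * (ρ ^ 2 / 4) * (wt F P * blk L).coeff l ^ 2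
      = (ρ / 2 * (wt F P * blk L).coeff l) ^ 2 * (β m / Cs) := by ring
    _ ≤ (F.comp (pert P ρ L m)).coeff (m + l) ^ 2 * β (m + l) := by
        have : 0 ≤ β m / Cs := div_nonneg (hβ m).le hCs.le
        gcongr

theorem wt_natDegree_le (F P : ℝ[X]) : (wt F P).natDegree ≤ F.natDegree * P.natDegree := by
  apply natDegree_sum_le_of_forall_le
  intro n hn
  rw [Finset.mem_range] at hn
  refine (natDegree_C_mul_le _ _).trans (natDegree_pow_le.trans ?_)
  exact Nat.mul_le_mul_right _ (by omega)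

include hP1 in
theorem wt_eval_one (F : ℝ[X]) :
    (wt F P).eval 1 = ∑ n ∈ Finset.range (F.natDegree + 1), n * F.coeff n := by
  simp [wt, eval_finsetSum, hP1]

end pert

theorem so_chain {β : ℕ → ℝ} (hβ : ∀ n, 0 < β n) {Cs : ℝ} (hCs : 1 < Cs)
    (hso : ∀ n m : ℕ, n ≤ 2 * m → m ≤ 2 * n → β m ≤ Cs * β n) (k : ℕ) :
    ∀ n m : ℕ, n ≤ m → m ≤ 2 ^ k * n → β m ≤ Cs ^ k * β n := by
  induction k with
  | zero =>
    intro n m h1 h2
    have : m = n := by omega
    subst this
    simp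
  | succ k ih =>
    intro n m h1 h2
    by_cases h3 : m ≤ 2 ^ k * n
    · refine (ih n m h1 h3).trans ?_
      have := (hβ n).le
      have : Cs ^ k ≤ Cs ^ (k + 1) := pow_le_pow_right₀ hCs.le (Nat.le_succ k)
      gcongr
    · have h4 : m ≤ 2 * (2 ^ k * n) := by
        calc m ≤ 2 ^ (k + 1) * n := h2
          _ = 2 * (2 ^ k * n) := by ring
      have h5 := hso (2 ^ k * n) m (by omega) h4
      have h6 := ih n (2 ^ k * n) (Nat.le_mul_of_pos_left _ (by positivity)) le_rfl
      calc β m ≤ Cs * β (2 ^ k * n) := h5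
        _ ≤ Cs * (Cs ^ k * β n) := by gcongr
        _ = Cs ^ (k + 1) * β n := by ring

/-- Part IV, bounded weights. -/
theorem partIVb {β : ℕ → ℝ} (hβ : ∀ n, 0 < β n) (hSO : SlowlyOscillating β)
    (hZ : PropertyZ β) {B : ℝ} (hB : ∀ n, β n ≤ B) : EssDecreasing β := by
  obtain ⟨Cs, hCs, hso⟩ := hSO.const
  obtain ⟨P, ε, K, hP, hP0, hP1, hε, hmain⟩ := baire_poly hβ hZ
  have hCs0 : 0 < Cs := by linarith
  have hBpos : 0 < B := (hβ 0).trans_le (hB 0)
  set d := P.natDegree with hd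
  -- `d ≥ 1`
  have hd1 : 1 ≤ d := by
    by_contra hcon
    have h0 : P.natDegree = 0 := by omega
    rw [eq_C_of_natDegree_eq_zero h0, hP0] at hP1
    simp at hP1
  -- large `N`
  have hlim1 : Tendsto (fun N : ℕ => 2 * (1 / (4 * (N : ℝ)))) atTop (𝓝 0) := by
    have := tendsto_const_div_atTop_nhds_zero_nat (2 * (1 / 4) : ℝ)
    refine this.congr fun N => ?_
    rw [one_div, one_div, mul_inv]
    ring
  have hlim2 : Tendsto (fun N : ℕ => 2 * (1 / (4 * (N : ℝ))) ^ 2 * (Cs * B + PN β P)) atTop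
      (𝓝 0) := by
    have := ((hlim1.pow 2).const_mul (1 / 2)).mul_const (Cs * B + PN β P)
    simp only [ne_eq, OfNat.ofNat_ne_zero, not_false_eq_true, zero_pow, mul_zero, zero_mul] at this
    refine this.congr fun N => ?_
    ring
  obtain ⟨N0, hN0⟩ : ∃ N0 : ℕ, ∀ N ≥ N0, 1 ≤ N ∧ 2 * (1 / (4 * (N : ℝ))) < ε ∧
      2 * (1 / (4 * (N : ℝ))) ^ 2 * (Cs * B + PN β P) < ε := by
    have := (eventually_ge_atTop 1).and
      ((hlim1.eventually_lt_const hε).and (hlim2.eventually_lt_const hε))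
    exact eventually_atTop.1 this
  -- the main estimate
  have hkey : ∀ N ≥ N0, ∀ m, 2 * N * d + 1 ≤ m → β m ≤ 192 * d * K * Cs ^ 2 * β N := by
    intro N hN m hm
    obtain ⟨hN1, hε1, hε2⟩ := hN0 N hN
    have hNpos : (0 : ℝ) < N := by exact_mod_cast hN1
    set ρ : ℝ := 1 / (4 * (N : ℝ)) with hρ
    have hρ0 : 0 ≤ ρ := by positivity
    have hρ1 : ρ ≤ 1 := by
      rw [hρ, div_le_one (by positivity)]
      have : (1 : ℝ) ≤ N := by exact_mod_cast hN1
      linarith
    have hdm : P.natDegree + 1 ≤ m := by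
      have : d ≤ 2 * N * d := Nat.le_mul_of_pos_left d (by omega)
      omega
    set F : ℝ[X] := ∑ n ∈ Finset.Ico N (2 * N), X ^ n with hF
    have hFc : ∀ k, F.coeff k = if k ∈ Finset.Ico N (2 * N) then 1 else 0 := by
      intro k
      rw [hF, finsetSum_coeff]
      simp only [coeff_X_pow]
      rw [Finset.sum_ite_eq]
    have hFnn : NN F := fun n => by
      rw [hFc]
      split_ifs <;> norm_num
    have hFdeg : F.natDegree ≤ 2 * N := by
      rw [natDegree_le_iff_coeff_eq_zero]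
      intro k hk
      rw [hFc, if_neg (by simp; omega)]
    have hρF : ρ * F.natDegree ≤ 1 / 2 := by
      have : (F.natDegree : ℝ) ≤ 2 * N := by exact_mod_cast hFdeg
      calc ρ * F.natDegree ≤ ρ * (2 * N) := by gcongr
        _ = 1 / 2 := by rw [hρ]; field_simp; norm_num
    have hub := hmain (pert P ρ 1 m) (pert_nn hP hρ0 hρ1) (pert_coeff_zero hP0)
      (pert_eval_one hP1 one_pos)
      ((pert_dist_one hP hP1 hρ0 one_pos).trans_lt hε1)
      ((pert_dist_two hP hP1 one_pos hβ hso hdm).trans_lt (by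
        refine lt_of_le_of_lt ?_ hε2
        have := hB m
        have h1 : Cs * β m * ((1 : ℕ) : ℝ)⁻¹ ≤ Cs * B := by
          simp only [Nat.cast_one, inv_one, mul_one]
          gcongr
        gcongr)) F
    have hFN : PN β F ≤ N * (Cs * β N) := by
      have e : PN β F = ∑ n ∈ Finset.Ico N (2 * N), β n := by
        rw [PN, tsum_eq_sum (s := Finset.Ico N (2 * N))]
        · apply Finset.sum_congr rfl
          intro n hn
          rw [hFc, if_pos hn]
          ring
        · intro n hn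
          rw [hFc, if_neg hn]
          ring
      rw [e]
      calc ∑ n ∈ Finset.Ico N (2 * N), β n ≤ ∑ n ∈ Finset.Ico N (2 * N), Cs * β N := by
            apply Finset.sum_le_sum
            intro n hn
            rw [Finset.mem_Ico] at hn
            exact hso N n (by omega) (by omega)
        _ = N * (Cs * β N) := by
            rw [Finset.sum_const, Nat.card_Ico, nsmul_eq_mul]
            congr 2
            omega
    set W := wt F P * blk 1 with hW
    have hWdeg : W.natDegree ≤ 2 * N * d := by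
      have h1 := natDegree_mul_le (p := wt F P) (q := blk 1)
      have h2 := wt_natDegree_le F P
      have h3 : (blk 1).natDegree = 0 := by
        have : blk 1 = 1 := by simp [blk]
        rw [this, natDegree_one]
      have h4 : F.natDegree * P.natDegree ≤ 2 * N * d := Nat.mul_le_mul_right _ hFdeg
      rw [h3, add_zero] at h1
      exact h1.trans (h2.trans h4)
    have hlb := PN_comp_pert_ge (m := m) (L := 1) hP hρ0 hβ hCs0 hso hFnn hρF hρ1
      (Finset.range (2 * N * d + 1)) (fun l hl => by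
        rw [Finset.mem_range] at hl
        omega)
    have hWsum : (N : ℝ) ^ 2 ≤ ∑ l ∈ Finset.range (2 * N * d + 1), W.coeff l := by
      have h1 : ∑ l ∈ Finset.range (2 * N * d + 1), W.coeff l = W.eval 1 := by
        rw [eval_eq_sum_range' (n := 2 * N * d + 1) (by omega)]
        simp
      rw [h1, hW, eval_mul, blk_eval one_pos, mul_one, wt_eval_one hP1]
      have h2 : ∑ n ∈ Finset.Ico N (2 * N), (n : ℝ) * F.coeff n ≤
          ∑ n ∈ Finset.range (F.natDegree + 1), (n : ℝ) * F.coeff n := by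
        apply Finset.sum_le_sum_of_subset_of_nonneg
        · intro n hn
          rw [Finset.mem_range, Nat.lt_succ_iff]
          apply le_natDegree_of_ne_zero
          rw [hFc, if_pos hn]
          norm_num
        · intro n _ _
          exact mul_nonneg (Nat.cast_nonneg n) (hFnn n)
      refine le_trans ?_ h2
      calc (N : ℝ) ^ 2 = ∑ n ∈ Finset.Ico N (2 * N), (N : ℝ) := by
            rw [Finset.sum_const, Nat.card_Ico, nsmul_eq_mul, sq]
            congr 2
            omega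
        _ ≤ _ := by
            apply Finset.sum_le_sum
            intro n hn
            rw [hFc, if_pos hn, mul_one]
            rw [Finset.mem_Ico] at hn
            exact_mod_cast hn.1
    have hcs : (∑ l ∈ Finset.range (2 * N * d + 1), W.coeff l) ^ 2 ≤
        (2 * N * d + 1) * ∑ l ∈ Finset.range (2 * N * d + 1), W.coeff l ^ 2 := by
      have := sq_sum_le_card_mul_sum_sq (s := Finset.range (2 * N * d + 1))
        (f := fun l => W.coeff l)
      rw [Finset.card_range] at this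
      exact_mod_cast this
    have h3 : (N : ℝ) ^ 4 ≤ (3 * N * d) * ∑ l ∈ Finset.range (2 * N * d + 1), W.coeff l ^ 2 := by
      have h4 : ((N : ℝ) ^ 2) ^ 2 ≤ (∑ l ∈ Finset.range (2 * N * d + 1), W.coeff l) ^ 2 := by
        gcongr
      have h5 : (2 * N * d + 1 : ℝ) ≤ 3 * N * d := by
        have : (1 : ℝ) ≤ N * d := by exact_mod_cast Nat.mul_pos hN1 hd1
        nlinarith
      have h6 : 0 ≤ ∑ l ∈ Finset.range (2 * N * d + 1), W.coeff l ^ 2 := by positivity
      calc (N : ℝ) ^ 4 = ((N : ℝ) ^ 2) ^ 2 := by ring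
        _ ≤ (2 * N * d + 1) * ∑ l ∈ Finset.range (2 * N * d + 1), W.coeff l ^ 2 := h4.trans hcs
        _ ≤ _ := by gcongr
    -- combine
    set Sg := ∑ l ∈ Finset.range (2 * N * d + 1), W.coeff l ^ 2 with hSg
    have h7 : β m / Cs * (ρ ^ 2 / 4) * Sg ≤ K * (N * (Cs * β N)) :=
      hlb.trans (hub.trans (by gcongr))
    have hρ2 : ρ ^ 2 = 1 / (16 * (N : ℝ) ^ 2) := by rw [hρ]; field_simp; norm_num
    rw [hρ2] at h7
    have hdpos : (0 : ℝ) < d := by exact_mod_cast hd1
    have h8 : (N : ℝ) ^ 3 ≤ 3 * d * Sg := by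
      have : (N : ℝ) * (N : ℝ) ^ 3 ≤ N * (3 * d * Sg) := by linarith
      exact le_of_mul_le_mul_left this hNpos
    have h9 : β m * Sg ≤ 64 * K * Cs ^ 2 * (N : ℝ) ^ 3 * β N := by
      have e1 : β m / Cs * (1 / (16 * (N : ℝ) ^ 2) / 4) * Sg =
          β m * Sg / (64 * Cs * (N : ℝ) ^ 2) := by
        field_simp
        ring
      rw [e1, div_le_iff₀ (by positivity)] at h7
      calc β m * Sg ≤ K * (N * (Cs * β N)) * (64 * Cs * N ^ 2) := h7
        _ = _ := by ring
    have hβm := hβ m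
    have hN3 : (0 : ℝ) < (N : ℝ) ^ 3 := by positivity
    have h10 : β m * (N : ℝ) ^ 3 ≤ (192 * d * K * Cs ^ 2 * β N) * (N : ℝ) ^ 3 := by
      calc β m * (N : ℝ) ^ 3 ≤ β m * (3 * d * Sg) := by gcongr
        _ = 3 * d * (β m * Sg) := by ring
        _ ≤ 3 * d * (64 * K * Cs ^ 2 * (N : ℝ) ^ 3 * β N) := by gcongr
        _ = _ := by ring
    exact le_of_mul_le_mul_right h10 hN3
  -- conclusion
  obtain ⟨k, hk⟩ : ∃ k : ℕ, 3 * d ≤ 2 ^ k := ⟨3 * d, Nat.lt_two_pow_self.le⟩
  obtain ⟨b0, hb0, hb0'⟩ : ∃ b0 : ℝ, 0 < b0 ∧ ∀ n ≤ N0, b0 ≤ β n := by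
    obtain ⟨i, hi, hmin⟩ := Finset.exists_min_image (Finset.range (N0 + 1)) β ⟨0, by simp⟩
    exact ⟨β i, hβ i, fun n hn => hmin n (by simp; omega)⟩
  set C1 : ℝ := 192 * d * K * Cs ^ 2 with hC1
  have hC1' : 0 ≤ C1 := by positivity
  refine ⟨1 + C1 + Cs ^ k + B / b0, ?_, ?_⟩
  · have : 0 < B / b0 := by positivity
    have : 0 < Cs ^ k := by positivity
    linarith
  · intro n m hnm
    have hβn := hβ n
    have hCk : 0 < Cs ^ k := by positivity
    have hBb : 0 < B / b0 := by positivity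
    by_cases hn : n ≤ N0
    · have h1 : β m ≤ B / b0 * β n := by
        calc β m ≤ B := hB m
          _ = B / b0 * b0 := by field_simp
          _ ≤ B / b0 * β n := by have := hb0' n hn; gcongr
      nlinarith
    · have hn' : N0 ≤ n := by omega
      by_cases hm : 2 * n * d + 1 ≤ m
      · have h1 := hkey n hn' m hm
        nlinarith
      · have h2 : m ≤ 2 ^ k * n := by
          calc m ≤ 2 * n * d + 1 := by omega
            _ ≤ 3 * d * n := by
                have : 1 ≤ d * n := Nat.mul_pos hd1 (by omega)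
                nlinarith
            _ ≤ 2 ^ k * n := Nat.mul_le_mul_right _ hk
        have h1 := so_chain hβ hCs hso k n m hnm h2
        nlinarith

end Pool.Agent.MP51b9c2
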