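import Pool.Agent.Lib.MP_51b9c2_an.PartIV

/-!
# Necessity for slowly oscillating unbounded weights
-/

namespace Pool.Agent.MP51b9c2

open Filter Metric Topology Polynomial
open scoped ENNReal NNReal Real

/-- Part IV, unbounded weights. -/
theorem partIVa {β : ℕ → ℝ} (hβ : ∀ n, 0 < β n) (hSO : SlowlyOscillating β)
    (hZ : PropertyZ β) (hB : ¬ BddAbove (Set.range β)) :
    Summable fun n : ℕ => (n : ℝ) ^ 2 / β n := by
  obtain ⟨Cs, hCs, hso⟩ := hSO.const
  obtain ⟨P, ε, K, hP, hP0, hP1, hε, hmain⟩ := baire_poly hβ hZ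
  have hCs0 : 0 < Cs := by linarith
  set d := P.natDegree with hd
  set κ : ℝ := ε / (8 * Cs) with hκ
  have hκ0 : 0 < κ := by positivity
  have hPN := PN_nonneg hβ P
  -- arbitrarily large values far out
  have hfar : ∀ (m0 : ℕ) (b : ℝ), ∃ m ≥ m0, b ≤ β m := by
    intro m0 b
    by_contra hcon
    push Not at hcon
    apply hB
    obtain ⟨M, hM⟩ := ((Finset.range m0).image β).bddAbove
    refine ⟨max M b, ?_⟩
    rintro _ ⟨n, rfl⟩
    by_cases hn : n < m0
    · refine le_max_of_le_left (hM ?_)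
      rw [Finset.mem_coe, Finset.mem_image]
      exact ⟨n, by simpa using hn, rfl⟩
    · exact le_max_of_le_right (hcon n (by omega)).le
  have hkey : ∀ T : ℕ, ∑ n ∈ Finset.range (T + 1), (n : ℝ) ^ 2 / β n ≤ 8 * Cs * K / κ := by
    intro T
    set G := ∑ n ∈ Finset.range (T + 1), (n : ℝ) ^ 2 / β n with hG
    have hG0 : 0 ≤ G := Finset.sum_nonneg fun n _ => div_nonneg (sq_nonneg _) (hβ n).le
    set F : ℝ[X] := ∑ n ∈ Finset.range (T + 1), C ((n : ℝ) / β n) * X ^ n with hF
    have hFc : ∀ k, F.coeff k = if k ∈ Finset.range (T + 1) then (k : ℝ) / β k else 0 := by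
      intro k
      rw [hF, finsetSum_coeff]
      simp only [coeff_C_mul_X_pow]
      rw [Finset.sum_ite_eq]
    have hFnn : NN F := fun n => by
      rw [hFc]
      split_ifs
      · exact div_nonneg (Nat.cast_nonneg n) (hβ n).le
      · exact le_rfl
    have hFdeg : F.natDegree ≤ T := by
      rw [natDegree_le_iff_coeff_eq_zero]
      intro k hk
      rw [hFc, if_neg (by simp; omega)]
    have hFN : PN β F = G := by
      rw [PN, tsum_eq_sum (s := Finset.range (T + 1))]
      · apply Finset.sum_congr rfl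
        intro n hn
        rw [hFc, if_pos hn]
        have := (hβ n).ne'
        field_simp
      · intro n hn
        rw [hFc, if_neg hn]
        ring
    have hW1 : (wt F P).eval 1 = G := by
      rw [wt_eval_one hP1, hG]
      have hsub : Finset.range (F.natDegree + 1) ⊆ Finset.range (T + 1) :=
        Finset.range_subset_range.2 (by omega)
      rw [Finset.sum_subset hsub]
      · apply Finset.sum_congr rfl
        intro n hn
        rw [hFc, if_pos hn]
        ring
      · intro n _ hn
        rw [Finset.mem_range, not_lt] at hn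
        rw [coeff_eq_zero_of_natDegree_lt (by omega), mul_zero]
    have hWdeg : (wt F P).natDegree ≤ T * d :=
      (wt_natDegree_le F P).trans (Nat.mul_le_mul_right _ hFdeg)
    set L : ℕ := 2 * (T * d) + 2 with hL
    have hLpos : 0 < L := by omega
    have hLr : (0 : ℝ) < L := by exact_mod_cast hLpos
    -- choose `m`
    have hlim : ∃ b : ℝ, 0 < b ∧ ∀ x ≥ b, κ * L / x ≤ 1 ∧ 2 * √(κ * L / x) < ε ∧
        2 * (κ * L / x) * PN β P < ε / 2 ∧ √(κ * L / x) * T ≤ 1 / 2 := by
      have h1 : Tendsto (fun x : ℝ => κ * L / x) atTop (𝓝 0) :=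
        tendsto_const_nhds.div_atTop tendsto_id
      have h2 : Tendsto (fun x : ℝ => √(κ * L / x)) atTop (𝓝 0) := by
        simpa using h1.sqrt
      have h3 : Tendsto (fun x : ℝ => 2 * √(κ * L / x)) atTop (𝓝 0) := by
        simpa using h2.const_mul 2
      have h4 : Tendsto (fun x : ℝ => 2 * (κ * L / x) * PN β P) atTop (𝓝 0) := by
        simpa using (h1.const_mul 2).mul_const (PN β P)
      have h5 : Tendsto (fun x : ℝ => √(κ * L / x) * T) atTop (𝓝 0) := by
        simpa using h2.mul_const (T : ℝ)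
      have hall := (h1.eventually_le_const one_pos).and ((h3.eventually_lt_const hε).and
        ((h4.eventually_lt_const (half_pos hε)).and
          (h5.eventually_le_const (by norm_num : (0:ℝ) < 1 / 2))))
      obtain ⟨b, hb⟩ := eventually_atTop.1 hall
      exact ⟨max b 1, by positivity, fun x hx => hb x ((le_max_left _ _).trans hx)⟩
    obtain ⟨b, hb0, hb⟩ := hlim
    obtain ⟨m, hm, hbm⟩ := hfar (P.natDegree + L) b
    obtain ⟨hx1, hx2, hx3, hx4⟩ := hb _ hbm
    have hβm := hβ m
    set ρ : ℝ := √(κ * L / β m) with hρ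
    have hρ0 : 0 ≤ ρ := Real.sqrt_nonneg _
    have hρ2 : ρ ^ 2 = κ * L / β m := Real.sq_sqrt (by positivity)
    have hρ1 : ρ ≤ 1 := by
      rw [hρ]
      exact Real.sqrt_le_one.2 hx1
    have hρF : ρ * F.natDegree ≤ 1 / 2 := by
      have : (F.natDegree : ℝ) ≤ T := by exact_mod_cast hFdeg
      calc ρ * F.natDegree ≤ ρ * T := by gcongr
        _ ≤ 1 / 2 := hx4
    have hub := hmain (pert P ρ L m) (pert_nn hP hρ0 hρ1) (pert_coeff_zero hP0)
      (pert_eval_one hP1 hLpos)
      ((pert_dist_one hP hP1 hρ0 hLpos).trans_lt hx2)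
      ((pert_dist_two hP hP1 hLpos hβ hso hm).trans_lt (by
        rw [hρ2, mul_add]
        have e1 : 2 * (κ * L / β m) * (Cs * β m * (L : ℝ)⁻¹) = ε / 4 := by
          rw [hκ]
          field_simp
          ring
        rw [e1]
        linarith)) F
    have hlb := PN_comp_pert_ge (m := m) (L := L) hP hρ0 hβ hCs0 hso hFnn hρF hρ1
      (Finset.Ico (T * d) L) (fun l hl => by
        rw [Finset.mem_Ico] at hl
        omega)
    have hsum : ∑ l ∈ Finset.Ico (T * d) L, (wt F P * blk L).coeff l ^ 2 =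
        ((L - T * d : ℕ) : ℝ) * (G * (L : ℝ)⁻¹) ^ 2 := by
      rw [← Nat.card_Ico, ← nsmul_eq_mul, ← Finset.sum_const]
      apply Finset.sum_congr rfl
      intro l hl
      rw [Finset.mem_Ico] at hl
      rw [coeff_mul_blk_eq (hWdeg.trans hl.1) hl.2, hW1]
    rw [hsum, hρ2] at hlb
    have hLd : (L : ℝ) / 2 ≤ ((L - T * d : ℕ) : ℝ) := by
      have h1 : L ≤ 2 * (L - T * d) := by omega
      have h2 : (L : ℝ) ≤ 2 * ((L - T * d : ℕ) : ℝ) := by exact_mod_cast h1
      linarith
    rw [hFN] at hub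
    have h1 : β m / Cs * (κ * L / β m / 4) * ((L : ℝ) / 2 * (G * (L : ℝ)⁻¹) ^ 2) ≤ K * G := by
      refine le_trans ?_ (hlb.trans hub)
      gcongr
    have e1 : β m / Cs * (κ * L / β m / 4) * ((L : ℝ) / 2 * (G * (L : ℝ)⁻¹) ^ 2) =
        κ * G ^ 2 / (8 * Cs) := by
      field_simp
      ring
    rw [e1, div_le_iff₀ (by positivity)] at h1
    rw [le_div_iff₀ hκ0]
    rcases hG0.eq_or_lt with h0 | h0
    · rw [← h0]
      have : (0:ℝ) ≤ 8 * Cs * K := by positivity
      simpa using this
    · have : G * (G * κ) ≤ G * (8 * Cs * K) := by nlinarith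
      exact le_of_mul_le_mul_left this h0
  refine summable_of_sum_range_le (c := 8 * Cs * K / κ) (fun n => div_nonneg (sq_nonneg _) (hβ n).le)
    fun n => ?_
  refine le_trans ?_ (hkey n)
  apply Finset.sum_le_sum_of_subset_of_nonneg
  · exact Finset.range_subset_range.2 (by omega)
  · intro k _ _
    exact div_nonneg (sq_nonneg _) (hβ k).le

end Pool.Agent.MP51b9c2
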